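import Mathlib
import Pool.Agent.Results.MP_3cf473_nt.DirectionsNearAPoint

/-!
# The count of the exceptional tuples of integers with coordinates up to `T` (helper35)
-/

set_option autoImplicit false

namespace Pool.Agent.V7H35.LogCount

open Pool.Agent.Results.MP_3cf473_nt.DirectionsNearAPoint (HasMeasure size size_le count)

/-- the exceptional tuples of positive integers up to `T` -/
theorem box_count (k d : ℕ) (hk : 1 ≤ k) : ∃ C : ℕ, 2 ≤ C ∧ ∃ K : ℝ, 0 ≤ K ∧ ∀ T : ℕ, 1 ≤ T →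
    {n : Fin k → ℕ | (∀ i, 1 ≤ n i ∧ n i ≤ T) ∧ ¬ HasMeasure d C n}.Finite ∧
    (({n : Fin k → ℕ | (∀ i, 1 ≤ n i ∧ n i ≤ T) ∧ ¬ HasMeasure d C n}.ncard : ℕ) : ℝ) ≤
      K * (T : ℝ) ^ ((k : ℝ) - 1 / C) := by
  obtain ⟨m, rfl⟩ : ∃ m, k = m + 1 := ⟨k - 1, by omega⟩
  obtain ⟨C, hC, K, hK, h⟩ := count m d
  refine ⟨C, hC, K, hK, fun T hT => ?_⟩
  have hT1 : (1 : ℝ) ≤ T := by exact_mod_cast hT
  obtain ⟨h1, h2⟩ := h T hT1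
  have heq : {n : Fin (m + 1) → ℕ | (∀ i, 1 ≤ n i ∧ n i ≤ T) ∧ ¬ HasMeasure d C n} =
     {n : Fin (m + 1) → ℕ | ((∀ i, 1 ≤ n i) ∧ ¬ HasMeasure d C n) ∧ max (1 : ℝ) (size n) ≤ T} := by
    ext n
    simp only [Set.mem_ofPred_eq, max_le_iff, Nat.cast_le]
    constructor
    · rintro ⟨a, b⟩
      exact ⟨⟨fun i => (a i).1, b⟩, hT1, size_le.2 fun i => (a i).2⟩
    · rintro ⟨⟨a, b⟩, -, c⟩
      exact ⟨fun i => ⟨a i, size_le.1 c i⟩, b⟩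
  rw [heq]
  exact ⟨h1, h2⟩

/-- the exceptional integer vectors -/
def Exc (k d C : ℕ) : Set (Fin k → ℤ) :=
  {z | (∀ i, 0 < z i) ∧ ¬ HasMeasure d C (fun i => (z i).toNat)}

/-- the exceptional integer vectors in a box -/
theorem exc_count {k d C : ℕ} {K : ℝ}
    (h : ∀ T : ℕ, 1 ≤ T → {n : Fin k → ℕ | (∀ i, 1 ≤ n i ∧ n i ≤ T) ∧ ¬ HasMeasure d C n}.Finite ∧
      (({n : Fin k → ℕ | (∀ i, 1 ≤ n i ∧ n i ≤ T) ∧ ¬ HasMeasure d C n}.ncard : ℕ) : ℝ) ≤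
      K * (T : ℝ) ^ ((k : ℝ) - 1 / C)) (T : ℕ) (hT : 1 ≤ T) :
    (({z : Fin k → ℤ | (∀ i, |z i| ≤ (T : ℤ)) ∧ z ∈ Exc k d C}.ncard : ℕ) : ℝ) ≤
      K * (T : ℝ) ^ ((k : ℝ) - 1 / C) := by
  obtain ⟨h1, h2⟩ := h T hT
  refine le_trans ?_ h2
  have hmaps : Set.MapsTo (fun (z : Fin k → ℤ) (i : Fin k) => (z i).toNat)
      {z : Fin k → ℤ | (∀ i, |z i| ≤ (T : ℤ)) ∧ z ∈ Exc k d C}
      {n : Fin k → ℕ | (∀ i, 1 ≤ n i ∧ n i ≤ T) ∧ ¬ HasMeasure d C n} := by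
    rintro z ⟨a1, a2, a3⟩
    refine ⟨fun i => ?_, a3⟩
    have b1 := a2 i
    have b2 := abs_le.1 (a1 i)
    show 1 ≤ (z i).toNat ∧ (z i).toNat ≤ T
    omega
  have hinj : Set.InjOn (fun (z : Fin k → ℤ) (i : Fin k) => (z i).toNat)
      {z : Fin k → ℤ | (∀ i, |z i| ≤ (T : ℤ)) ∧ z ∈ Exc k d C} := by
    rintro z ⟨-, a2, -⟩ w ⟨-, b2, -⟩ hzw
    funext i
    have c1 := congrFun hzw i
    have c2 := a2 i
    have c3 := b2 i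
    simp only at c1
    omega
  exact_mod_cast Set.ncard_le_ncard_of_injOn _ hmaps hinj h1

end Pool.Agent.V7H35.LogCount
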