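import Pool.Agent.Results.MP_b58c63_nt.FewExceptionsAllScales

/-!
# The exceptional sets of `FewExceptionsAllScales` as sets of natural numbers
-/

set_option autoImplicit false

namespace Pool.Agent.V7H35.GoldCount

open Finset
open Pool.Agent.Results.MP_b58c63_nt
open Pool.Agent.Results.MP_b58c63_nt.FewExceptionsAllScales (sing richert inWindow)

/-- `N` has at least `δ 𝔖(N) √N / (log N) ^ 2` primes `p` in `(√N, 4 √N)` such that `N - p` has at most `r` prime factors,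
all of them at least `N ^ ζ / 2` -/
def Good (r : ℕ) (ζ δ : ℝ) (N : ℕ) : Prop :=
  δ * sing N * (√(N : ℝ) / Real.log N ^ 2) ≤ (inWindow r ζ (4 * √(N : ℝ)) N : ℝ)

/-- for EVERY `x` with `N ^ ϑ ≤ x ≤ N / 2` there are at least `δ 𝔖(N) x / (log N) ^ 2` primes `p` in `(x / 4, x)` such that
`N - p` has at most `r` prime factors, all of them at least `N ^ ζ / 2` -/
def GoodScale (r : ℕ) (ζ ϑ δ : ℝ) (N : ℕ) : Prop :=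
  ∀ x : ℝ, (N : ℝ) ^ ϑ ≤ x → x ≤ N / 2 → δ * sing N * (x / Real.log N ^ 2) ≤ (inWindow r ζ x N : ℝ)

open Classical in
lemma count_sqrt (r : ℕ) (ζ s : ℝ)
    (h : ∃ δ C : ℝ, 0 < δ ∧ 0 < C ∧ ∀ X : ℕ, 1 ≤ X →
      (((Icc 1 X).filter (fun N : ℕ => Even N ∧ (inWindow r ζ (4 * √(N : ℝ)) N : ℝ) <
        δ * sing N * (√(N : ℝ) / Real.log N ^ 2))).card : ℝ) ≤ C * (X : ℝ) ^ s) :
    ∃ δ : ℝ, 0 < δ ∧ ∃ C : ℝ, 0 < C ∧ ∀ X : ℕ, 1 ≤ X →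
      ({t : ℕ | 1 ≤ t ∧ t ≤ X ∧ Even t ∧ ¬ Good r ζ δ t}.ncard : ℝ) ≤ C * (X : ℝ) ^ s := by
  obtain ⟨δ, C, hδ, hC, h⟩ := h
  refine ⟨δ, hδ, C, hC, fun X hX => le_trans ?_ (h X hX)⟩
  apply Nat.cast_le.2
  rw [← Set.ncard_coe_finset]
  apply Set.ncard_le_ncard _ (Finset.finite_toSet _)
  rintro t ⟨h1, h2, h3, h4⟩
  rw [Finset.mem_coe, mem_filter, mem_Icc]
  exact ⟨⟨h1, h2⟩, h3, not_le.1 h4⟩

open Classical in
lemma count_scale (r : ℕ) (ϑ σ ε : ℝ) (hr : 1 ≤ r) (h0 : 0 < ϑ) (h1 : ϑ ≤ 1) (h2 : ϑ / 2 ≤ σ) (h3 : σ < ϑ)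
    (h4 : 1 < σ * richert r) (hε : 0 < ε) :
    ∃ δ : ℝ, 0 < δ ∧ ∃ C : ℝ, 0 < C ∧ ∀ X : ℕ, 1 ≤ X →
      ({t : ℕ | 1 ≤ t ∧ t ≤ X ∧ Even t ∧ ¬ GoodScale r (σ / 4) ϑ δ t}.ncard : ℝ) ≤ C * (X : ℝ) ^ (2 * σ - ϑ + ε) := by
  obtain ⟨δ, C, hδ, hC, h⟩ := FewExceptionsAllScales.result.1 r ϑ σ ε hr h0 h1 h2 h3 h4 hε
  refine ⟨δ, hδ, C, hC, fun X hX => le_trans ?_ (h X hX)⟩
  apply Nat.cast_le.2
  rw [← Set.ncard_coe_finset]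
  apply Set.ncard_le_ncard _ (Finset.finite_toSet _)
  rintro t ⟨h1, h2, h3, h4⟩
  rw [Finset.mem_coe, mem_filter, mem_Icc]
  unfold GoodScale at h4
  push Not at h4
  exact ⟨⟨h1, h2⟩, h3, h4⟩

/-- the bound with an additional `ε` in the exponent -/
lemma weaken {P : ℕ → ℕ → Prop} {C s : ℝ} (hC : 0 < C)
    (h : ∀ X : ℕ, 1 ≤ X → ({t : ℕ | P X t}.ncard : ℝ) ≤ C * (X : ℝ) ^ s) (ε : ℝ) (hε : 0 < ε) :
    ∃ C : ℝ, ∀ X : ℕ, 1 ≤ X → ({t : ℕ | P X t}.ncard : ℝ) ≤ C * (X : ℝ) ^ (s + ε) := by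
  refine ⟨C, fun X hX => (h X hX).trans ?_⟩
  have hX1 : (1 : ℝ) ≤ X := by exact_mod_cast hX
  apply mul_le_mul_of_nonneg_left _ hC.le
  apply Real.rpow_le_rpow_of_exponent_le hX1
  linarith

/-- room for an `ε` -/
lemma room {d s κ : ℝ} (hd : 1 ≤ d) (h : d * s + κ < 1) : ∃ ε : ℝ, 0 < ε ∧ d * (s + ε) + κ < 1 := by
  refine ⟨(1 - d * s - κ) / (2 * d), by apply div_pos <;> linarith, ?_⟩
  have hd0 : d ≠ 0 := by linarith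
  have : d * ((1 - d * s - κ) / (2 * d)) = (1 - d * s - κ) / 2 := by
    field_simp
  rw [mul_add, this]
  linarith

end Pool.Agent.V7H35.GoldCount
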