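import Pool.Agent.V7H8.CoverBasic

set_option autoImplicit false
open MeasureTheory Set

namespace Pool.Agent.V7H35.Cover

open Pool.Agent.V7H8.Cover

/-- the Euclidean plane -/
abbrev E2 := EuclideanSpace ℝ (Fin 2)

/-- coordinates, as a measurable equivalence -/
noncomputable def co : E2 ≃ᵐ ℝ × ℝ :=
  (MeasurableEquiv.toLp 2 (Fin 2 → ℝ)).symm.trans MeasurableEquiv.finTwoArrow

theorem co_apply (x : E2) : co x = (x 0, x 1) := rfl

theorem co_mp : MeasurePreserving co (volume : Measure E2) (volume : Measure (ℝ × ℝ)) :=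
  (EuclideanSpace.volume_preserving_symm_measurableEquiv_toLp (Fin 2)).trans
    (volume_preserving_finTwoArrow ℝ)

/-- coordinates, as a linear map -/
def coL : E2 →ₗ[ℝ] ℝ × ℝ where
  toFun x := (x 0, x 1)
  map_add' x y := rfl
  map_smul' c x := rfl

theorem coL_eq (x : E2) : coL x = co x := rfl

theorem co_add (x y : E2) : co (x + y) = co x + co y := rfl

/-- squared distance -/
theorem sq2_co (x y : E2) : sq2 (co x) (co y) = dist x y ^ 2 := by
  rw [EuclideanSpace.dist_eq, Real.sq_sqrt (by positivity)]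
  simp only [Fin.sum_univ_two, sq2, co_apply, Real.dist_eq, sq_abs]

theorem sq2_le_iff (x y : E2) : sq2 (co x) (co y) ≤ 1 ↔ edist x y ≤ 1 := by
  rw [sq2_co, edist_dist]
  constructor
  · intro h
    have h1 : dist x y ≤ 1 := by
      nlinarith [dist_nonneg (x := x) (y := y)]
    calc ENNReal.ofReal (dist x y) ≤ ENNReal.ofReal 1 := ENNReal.ofReal_le_ofReal h1
      _ = 1 := ENNReal.ofReal_one
  · intro h
    have h1 : dist x y ≤ 1 := by
      rw [← ENNReal.ofReal_one] at h
      exact (ENNReal.ofReal_le_ofReal_iff (by norm_num)).1 h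
    nlinarith [dist_nonneg (x := x) (y := y)]

theorem sq2_eq_one (x y : E2) (h : sq2 (co x) (co y) = 1) : edist x y = 1 := by
  rw [sq2_co] at h
  have h1 : dist x y = 1 := by
    nlinarith [dist_nonneg (x := x) (y := y)]
  rw [edist_dist, h1, ENNReal.ofReal_one]

/-- module B: transfer to the Euclidean plane -/
theorem final_of
    (hup : ∃ K : Set (ℝ × ℝ), Convex ℝ K ∧
      (∀ S : Set (ℝ × ℝ), (∀ p ∈ S, ∀ q ∈ S, sq2 p q ≤ 1) → ∃ v : ℝ × ℝ, ∀ p ∈ S, p + v ∈ K) ∧
      volume K ≤ ENNReal.ofReal Astar)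
    (hlow : ∀ K : Set (ℝ × ℝ), Convex ℝ K → Cov K → ENNReal.ofReal Astar ≤ volume K) :
    sInf {a : ENNReal | ∃ K : Set (EuclideanSpace ℝ (Fin 2)), Convex ℝ K ∧
      (∀ S : Set (EuclideanSpace ℝ (Fin 2)), EMetric.diam S = 1 →
        ∃ v : EuclideanSpace ℝ (Fin 2), (fun x => x + v) '' S ⊆ K) ∧
      volume K = a}
      = ENNReal.ofReal (Real.pi / 6 + 2 * Real.sqrt 3 - 3) := by
  apply le_antisymm
  · obtain ⟨K, hK, hc, hv⟩ := hup
    have hpre : (co ⁻¹' K : Set E2) = coL ⁻¹' K := rfl
    refine le_trans (sInf_le ⟨co ⁻¹' K, ?_, ?_, rfl⟩) ?_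
    · rw [hpre]; exact hK.linear_preimage coL
    · intro S hS
      obtain ⟨v, hv'⟩ := hc (co '' S) (by
        rintro _ ⟨x, hx, rfl⟩ _ ⟨y, hy, rfl⟩
        rw [sq2_le_iff, ← hS]
        exact Metric.edist_le_ediam_of_mem hx hy)
      refine ⟨co.symm v, ?_⟩
      rintro _ ⟨x, hx, rfl⟩
      show co (x + co.symm v) ∈ K
      rw [co_add, MeasurableEquiv.apply_symm_apply]
      exact hv' _ ⟨x, hx, rfl⟩
    · rw [co_mp.measure_preimage_equiv]
      exact hv
  · refine le_sInf ?_
    rintro a ⟨K, hK, hc, rfl⟩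
    have hv : volume (co.symm ⁻¹' K) = volume K := by
      exact (co_mp.symm co).measure_preimage_equiv K
    rw [← hv]
    refine hlow _ ?_ ?_
    · have : (co.symm ⁻¹' K) = coL '' K := by
        ext p
        constructor
        · intro hp
          exact ⟨co.symm p, hp, by rw [coL_eq, MeasurableEquiv.apply_symm_apply]⟩
        · rintro ⟨x, hx, rfl⟩
          show co.symm (coL x) ∈ K
          rw [coL_eq, MeasurableEquiv.symm_apply_apply]
          exact hx
      rw [this]
      exact hK.linear_image coL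
    · intro S hS1 hS2
      have hd : EMetric.diam (co ⁻¹' S : Set E2) = 1 := by
        apply le_antisymm
        · refine Metric.ediam_le ?_
          intro x hx y hy
          rw [← sq2_le_iff]
          exact hS1 _ hx _ hy
        · obtain ⟨p, hp, q, hq, hpq⟩ := hS2
          have h1 : edist (co.symm p) (co.symm q) = 1 := by
            apply sq2_eq_one
            rw [MeasurableEquiv.apply_symm_apply, MeasurableEquiv.apply_symm_apply]
            exact hpq
          rw [← h1]
          refine Metric.edist_le_ediam_of_mem ?_ ?_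
          · show co (co.symm p) ∈ S
            rw [MeasurableEquiv.apply_symm_apply]; exact hp
          · show co (co.symm q) ∈ S
            rw [MeasurableEquiv.apply_symm_apply]; exact hq
      obtain ⟨v, hv'⟩ := hc _ hd
      refine ⟨co v, ?_⟩
      intro p hp
      show co.symm (p + co v) ∈ K
      have h2 : p + co v = co (co.symm p + v) := by
        rw [co_add, MeasurableEquiv.apply_symm_apply]
      rw [h2, MeasurableEquiv.symm_apply_apply]
      apply hv'
      refine ⟨co.symm p, ?_, rfl⟩
      show co (co.symm p) ∈ S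
      rw [MeasurableEquiv.apply_symm_apply]; exact hp

end Pool.Agent.V7H35.Cover
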