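import Pool.Agent.Results.MP_7475bd_nt.PointsNearAPoint

/-!
# The count of the exceptional points of the `n`-term abc inequality by the height (helper35)
-/

set_option autoImplicit false

namespace Pool.Agent.V7H35.AbcCount

open NumberField Module
open Pool.Agent.Results.MP_7475bd_nt.PointsNearAPoint (h rad OffZ κ κ_nonneg Bad hcount)

/-- the multiplicative height `H_K(P) = exp ([K : ℚ] h(P))`; over `ℚ` it is `max |z_i|` for coprime integer coordinates -/
noncomputable def H {K : Type} [Field K] [NumberField K] {n : ℕ} (P : Projectivization K (Fin n → K)) : ℝ :=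
  Real.exp (finrank ℚ K * h P)

lemma H_eq {K : Type} [Field K] [NumberField K] {n : ℕ} (P : Projectivization K (Fin n → K)) :
    H P = P.mulHeight := by
  unfold H h
  have hd : (0 : ℝ) < finrank ℚ K := by exact_mod_cast finrank_pos
  rw [mul_div_cancel₀ _ hd.ne', Projectivization.logHeight_eq_log_mulHeight, Real.exp_log P.mulHeight_pos]

/-- the count of the exceptional points of height at most `X` -/
theorem count (K : Type) [Field K] [NumberField K] {n : ℕ} (hn : 3 ≤ n) {M : ℝ} (hM : 0 < M) (c : ℝ) :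
    ∀ ε : ℝ, 0 < ε → ∃ C : ℝ, ∀ X : ℝ, 1 ≤ X →
      {P : Projectivization K (Fin n → K) | (OffZ P ∧ ¬ h P < M * rad P + c) ∧ H P ≤ X}.Finite ∧
      ({P : Projectivization K (Fin n → K) | (OffZ P ∧ ¬ h P < M * rad P + c) ∧ H P ≤ X}.ncard : ℝ) ≤
        C * X ^ ((1 - 1 / (n.choose (n / 2) : ℝ)) / M + ε) := by
  intro ε hε
  obtain ⟨C, hC⟩ := hcount K hn hM c ε hε
  refine ⟨C, fun X hX => ?_⟩
  obtain ⟨h1, h2⟩ := hC X hX
  have himg : {P : Projectivization K (Fin n → K) | (OffZ P ∧ ¬ h P < M * rad P + c) ∧ H P ≤ X} =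
      Subtype.val '' {i : {P // Bad K n M c P} | i.1.mulHeight ≤ X} := by
    ext P
    simp only [Set.mem_image, Set.mem_ofPred_eq, Subtype.exists, exists_and_left, exists_prop,
      exists_eq_right_right, H_eq]
    unfold Bad
    tauto
  rw [himg]
  refine ⟨h1.image _, ?_⟩
  rw [Set.ncard_image_of_injective _ Subtype.val_injective]
  exact h2

/-- the exceptional sets decrease in `c` -/
lemma mono {K : Type} [Field K] [NumberField K] {n : ℕ} {P : Projectivization K (Fin n → K)} {M c c' : ℝ} (hc : c' ≤ c)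
    (hP : ¬ h P < M * rad P + c) : ¬ h P < M * rad P + c' := by
  rw [not_lt] at hP ⊢
  linarith

lemma exp_nonneg' {n : ℕ} {M : ℝ} (hM : 0 < M) : 0 ≤ (1 - 1 / (n.choose (n / 2) : ℝ)) / M :=
  div_nonneg (κ_nonneg n) hM.le

end Pool.Agent.V7H35.AbcCount
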