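import Pool.Agent.Results.MP_a1568a_nt.MultiplicativeValues

/-!
# The exceptional sets of the starting theorems on the `3x+1` map, in the form needed by the transfer theorems
-/

set_option autoImplicit false

namespace Pool.Agent.V7H35.CollatzCount

open Pool.Agent.Results.MP_a1568a_nt
open Pool.Agent.Results.MP_a1568a_nt.PowerSavingLaw (T Regular)
open Pool.Agent.Results.MP_a1568a_nt.MultiplicativeValues (Descends Fast descent_law desc_mono regular_mono iter_pos)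

lemma regular_count {ε : ℝ} (hε : 0 < ε) : ∃ c : ℝ, 0 < c ∧ ∀ v δ : ℝ, 0 < v → v ≤ 1 → 0 < δ →
    ∀ ε' : ℝ, 0 < ε' → ∃ C : ℝ, ∀ X : ℝ, 1 ≤ X →
      {n : ℕ | (1 ≤ n ∧ ¬ Regular ε ((n : ℝ) ^ δ) ((n : ℝ) ^ (1 + v)) n) ∧ (n : ℝ) ≤ X}.Finite ∧
      ({n : ℕ | (1 ≤ n ∧ ¬ Regular ε ((n : ℝ) ^ δ) ((n : ℝ) ^ (1 + v)) n) ∧ (n : ℝ) ≤ X}.ncard : ℝ) ≤
        C * X ^ (1 - min v (c * δ) + ε') := by
  obtain ⟨c, C, hc, hC, law⟩ := PowerSavingLaw.result ε hε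
  exact ⟨c, hc, fun v δ hv hv1 hδ =>
    Pool.Agent.N481.MV.two_scale (Bad := fun y V n => ¬ Regular ε y V n) hv hv1 hδ hC.le
      (fun y y' V V' n hy hV h h' => h (regular_mono hy hV h'))
      (fun x y V hx hy hV => by rw [add_comm (x ^ 2 / V)]; exact law x y V hx hy hV)⟩

lemma descent_count : ∃ B₁ : ℝ, 0 < B₁ ∧ ∀ B : ℝ, B₁ ≤ B → ∀ δ : ℝ, 0 < δ → δ ≤ 1 →
    ∀ ε' : ℝ, 0 < ε' → ∃ C : ℝ, ∀ X : ℝ, 1 ≤ X →
      {n : ℕ | (1 ≤ n ∧ ¬ Descends B ((n : ℝ) ^ δ) n) ∧ (n : ℝ) ≤ X}.Finite ∧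
      ({n : ℕ | (1 ≤ n ∧ ¬ Descends B ((n : ℝ) ^ δ) n) ∧ (n : ℝ) ≤ X}.ncard : ℝ) ≤
        C * X ^ (1 - 6 / 100 * δ + ε') := by
  obtain ⟨B₁, C, hB₁, hC, law⟩ := descent_law
  refine ⟨B₁, hB₁, fun B hB δ hδ hδ1 => ?_⟩
  have hmin : min 1 (6 / 100 * δ) = 6 / 100 * δ := min_eq_right (by linarith)
  have h := Pool.Agent.N481.MV.two_scale (Bad := fun y _ n => ¬ Descends B y n) (c := 6 / 100) (v := 1) (p := 3)
    one_pos le_rfl hδ hC.le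
    (fun y y' V V' n hy hV h h' => h (desc_mono (hB₁.trans_le hB) le_rfl hy h'))
    (fun x y V hx hy hV => by
      have h1 : (0 : ℝ) ≤ x ^ 2 / V := div_nonneg (by positivity) (by linarith)
      have h2 : 0 ≤ C * Real.log x ^ 3 := by
        have := Real.log_nonneg (show (1 : ℝ) ≤ x by linarith)
        positivity
      refine (law B x y hB hx hy).trans (mul_le_mul_of_nonneg_left (by linarith) h2))
  rw [hmin] at h
  exact h

lemma inherit (B δ : ℝ) (n : ℕ) (hn : 1 ≤ n) (h : Descends B ((n : ℝ) ^ δ) n)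
    (hu : ∀ u : ℕ, 1 ≤ u → (u : ℝ) ≤ (n : ℝ) ^ δ → Fast B u) : Fast B n :=
  (MultiplicativeValues.result.2.2.1) B δ n hn h hu

end Pool.Agent.V7H35.CollatzCount
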