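import Pool.Agent.Results.MP_5591bc_ag.CyclicCoverProducts

/-!
# The count of the exceptional tuples for the periods of products of cyclic covers (helper35)
-/

set_option autoImplicit false

namespace Pool.Agent.V7H35.CyclicCount

open Pool.Agent.Results.MP_5591bc_ag
open Pool.Agent.Results.MP_5591bc_ag.CyclicCoverProducts (Family periods DegreeStatement exceptions)

/-- the point `(1 / w_1, …, 1 / w_p)` is in the polydisc of radius `r`, and the degree `δ` statement over `K` is true at this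
point for all periods of the product of the curves `C⁽ˡ⁾_{1 / w_l}` -/
def Good (K : Type) [Field K] [Algebra K ℂ] {p : ℕ} (Γ : Fin p → Family) (r : ℝ) (δ : ℕ) (w : Fin p → ℕ) : Prop :=
  (∀ l, 1 / (w l : ℝ) < r) ∧ DegreeStatement K (periods Γ) r δ fun l => 1 / (w l : K)

/-- the exceptional vectors of integers `≥ 2` -/
def Exc (K : Type) [Field K] [Algebra K ℂ] {p : ℕ} (Γ : Fin p → Family) (r : ℝ) (δ : ℕ) : Set (Fin p → ℤ) :=
  {z | (∀ l, 2 ≤ z l) ∧ ¬ Good K Γ r δ fun l => (z l).toNat}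

/-- the count of the exceptional tuples, with a small saving -/
theorem count {p : ℕ} (Γ : Fin p → Family) (K : Type) [Field K] [NumberField K] [Algebra K ℂ] (δ : ℕ) :
    ∃ r : ℝ, 0 < r ∧ (∀ l, r ≤ (Γ l).ρ) ∧ ∃ c C : ℝ, 0 < c ∧ c ≤ 1 / 2 ∧ ∀ T : ℕ, 1 ≤ T →
      {w : Fin p → ℕ | (∀ l, 2 ≤ w l ∧ w l ≤ T) ∧ ¬ Good K Γ r δ w}.Finite ∧
      (({w : Fin p → ℕ | (∀ l, 2 ≤ w l ∧ w l ≤ T) ∧ ¬ Good K Γ r δ w}.ncard : ℕ) : ℝ) ≤ C * (T : ℝ) ^ ((p : ℝ) - c) := by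
  obtain ⟨r, hr, hρ, c, C, hc, h⟩ := CyclicCoverProducts.result Γ K δ
  refine ⟨r, hr, hρ, min c (1 / 2), |C|, lt_min hc (by norm_num), min_le_right _ _, fun T hT => ⟨?_, ?_⟩⟩
  · refine (Set.Finite.pi' fun _ : Fin p => Set.finite_Icc 2 T).subset ?_
    rintro w ⟨h1, -⟩ i
    exact h1 i
  · have hT1 : (1 : ℝ) ≤ T := by exact_mod_cast hT
    refine (h T hT).trans ?_
    calc C * (T : ℝ) ^ ((p : ℝ) - c) ≤ |C| * (T : ℝ) ^ ((p : ℝ) - c) :=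
          mul_le_mul_of_nonneg_right (le_abs_self C) (by positivity)
      _ ≤ |C| * (T : ℝ) ^ ((p : ℝ) - min c (1 / 2)) :=
          mul_le_mul_of_nonneg_left (Real.rpow_le_rpow_of_exponent_le hT1 (by have := min_le_left c (1 / 2); linarith))
            (abs_nonneg C)

/-- the exceptional integer vectors in a box -/
theorem exc_count {p : ℕ} {Γ : Fin p → Family} {K : Type} [Field K] [Algebra K ℂ] {δ : ℕ} {r c C : ℝ}
    (h : ∀ T : ℕ, 1 ≤ T → {w : Fin p → ℕ | (∀ l, 2 ≤ w l ∧ w l ≤ T) ∧ ¬ Good K Γ r δ w}.Finite ∧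
      (({w : Fin p → ℕ | (∀ l, 2 ≤ w l ∧ w l ≤ T) ∧ ¬ Good K Γ r δ w}.ncard : ℕ) : ℝ) ≤ C * (T : ℝ) ^ ((p : ℝ) - c))
    (T : ℕ) (hT : 1 ≤ T) :
    (({z : Fin p → ℤ | (∀ i, |z i| ≤ (T : ℤ)) ∧ z ∈ Exc K Γ r δ}.ncard : ℕ) : ℝ) ≤ C * (T : ℝ) ^ ((p : ℝ) - c) := by
  obtain ⟨h1, h2⟩ := h T hT
  refine le_trans ?_ h2
  have hmaps : Set.MapsTo (fun (z : Fin p → ℤ) (i : Fin p) => (z i).toNat)
      {z : Fin p → ℤ | (∀ i, |z i| ≤ (T : ℤ)) ∧ z ∈ Exc K Γ r δ}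
      {w : Fin p → ℕ | (∀ l, 2 ≤ w l ∧ w l ≤ T) ∧ ¬ Good K Γ r δ w} := by
    rintro z ⟨a1, a2, a3⟩
    refine ⟨fun i => ?_, a3⟩
    have b1 := a2 i
    have b2 := abs_le.1 (a1 i)
    show 2 ≤ (z i).toNat ∧ (z i).toNat ≤ T
    omega
  have hinj : Set.InjOn (fun (z : Fin p → ℤ) (i : Fin p) => (z i).toNat)
      {z : Fin p → ℤ | (∀ i, |z i| ≤ (T : ℤ)) ∧ z ∈ Exc K Γ r δ} := by
    rintro z ⟨-, a2, -⟩ w ⟨-, b2, -⟩ hzw
    funext i
    have c1 := congrFun hzw i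
    have c2 := a2 i
    have c3 := b2 i
    simp only at c1
    omega
  exact_mod_cast Set.ncard_le_ncard_of_injOn _ hmaps hinj h1

end Pool.Agent.V7H35.CyclicCount
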