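import Pool.Agent.Results.MP_122e00_nt.PowerSavingShifts
import Pool.Agent.N481.MV.Dy

/-!
# The exceptional shifts for the divisor correlations, at all scales between the shift and a power of it
-/

set_option autoImplicit false

namespace Pool.Agent.V7H35.DivCount

open Finset Polynomial
open Pool.Agent.Results.MP_122e00_nt
open Pool.Agent.Results.MP_122e00_nt.PowerSavingShifts (D main Asymp G ram κ 𝔖 Density)

/-- the asymptotic formulas with a power saving for the shift `h` and ALL `x` with `|h| ≤ x ≤ |h| ^ (1 + θ)`: `D_r(x; h)` is the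
main term up to `x ^ (1 - θ)` and, if `|h| ≤ x ^ (1 - η)`, it is `x T_h(log x)` up to `x ^ (1 - η / 16)` -/
def Formulas (r : ℕ) (P : ℕ → ℝ[X]) (T : ℤ → ℝ[X]) (θ η : ℝ) (h : ℤ) : Prop :=
  ∀ x : ℕ, (|h| : ℝ) ≤ x → (x : ℝ) ≤ (|h| : ℝ) ^ (1 + θ) →
    |D r x h - main P x h| ≤ (x : ℝ) ^ (1 - θ) ∧
      ((|h| : ℝ) ≤ (x : ℝ) ^ (1 - η) → |D r x h - x * (T h).eval (Real.log x)| ≤ (x : ℝ) ^ (1 - η / 16))

/-- the formulas for both shifts `n` and `-n` -/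
def Good (r : ℕ) (P : ℕ → ℝ[X]) (T : ℤ → ℝ[X]) (θ η : ℝ) (n : ℕ) : Prop :=
  Formulas r P T θ η n ∧ Formulas r P T θ η (-(n : ℤ))

lemma asymp_mono {r N : ℕ} {P : ℕ → ℝ[X]} {T : ℤ → ℝ[X]} {θ θ' η : ℝ} {h : ℤ} (hN : 1 ≤ N) (hθ : θ' ≤ θ)
    (ha : Asymp r N P T θ η h) : Asymp r N P T θ' η h := by
  intro x hx
  have hN1 : (1 : ℝ) ≤ N := by exact_mod_cast hN
  exact ⟨(ha x hx).1.trans (Real.rpow_le_rpow_of_exponent_le hN1 (by linarith)), (ha x hx).2⟩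

/-- a dyadic scale gives the formulas at all `x` of its size -/
lemma formulas_of {r : ℕ} {P : ℕ → ℝ[X]} {T : ℤ → ℝ[X]} {θ η : ℝ} (hθ : 0 < θ) (hθ1 : θ ≤ 1 / 2) (hη : 0 < η)
    (hη1 : η ≤ 1) {h : ℤ} {x j : ℕ} (hx : 1 ≤ x) (hxθ : 2 ≤ (x : ℝ) ^ θ) (hxη : 2 ≤ (x : ℝ) ^ (η / 16))
    (h1 : x ≤ 2 ^ j) (h2 : 2 ^ j < 2 * x) (ha : Asymp r (2 ^ j) P T (2 * θ) η h) :
    |D r x h - main P x h| ≤ (x : ℝ) ^ (1 - θ) ∧
      ((|h| : ℝ) ≤ (x : ℝ) ^ (1 - η) → |D r x h - x * (T h).eval (Real.log x)| ≤ (x : ℝ) ^ (1 - η / 16)) := by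
  obtain ⟨a1, a2⟩ := ha x h1
  have hx1 : (1 : ℝ) ≤ x := by exact_mod_cast hx
  have hx0 : (0 : ℝ) < x := by linarith
  have h2R : (((2 ^ j : ℕ)) : ℝ) ≤ 2 * x := by exact_mod_cast h2.le
  have h1R : (x : ℝ) ≤ ((2 ^ j : ℕ) : ℝ) := by exact_mod_cast h1
  have key : ∀ s t : ℝ, 0 ≤ s → s ≤ 1 → 2 ≤ (x : ℝ) ^ t → (((2 ^ j : ℕ)) : ℝ) ^ s ≤ (x : ℝ) ^ (s + t) := by
    intro s t hs hs1 ht
    calc (((2 ^ j : ℕ)) : ℝ) ^ s ≤ (2 * (x : ℝ)) ^ s := Real.rpow_le_rpow (Nat.cast_nonneg _) h2R hs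
      _ = (2 : ℝ) ^ s * (x : ℝ) ^ s := Real.mul_rpow (by norm_num) hx0.le
      _ ≤ 2 * (x : ℝ) ^ s := by
          apply mul_le_mul_of_nonneg_right _ (by positivity)
          calc (2 : ℝ) ^ s ≤ (2 : ℝ) ^ (1 : ℝ) := Real.rpow_le_rpow_of_exponent_le (by norm_num) hs1
            _ = 2 := Real.rpow_one 2
      _ ≤ (x : ℝ) ^ t * (x : ℝ) ^ s := mul_le_mul_of_nonneg_right ht (by positivity)
      _ = (x : ℝ) ^ (s + t) := by rw [add_comm, Real.rpow_add hx0]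
  refine ⟨a1.trans ?_, fun hh => (a2 (hh.trans ?_)).trans ?_⟩
  · have := key (1 - 2 * θ) θ (by linarith) (by linarith) hxθ
    have e : 1 - 2 * θ + θ = 1 - θ := by ring
    rwa [e] at this
  · exact Real.rpow_le_rpow hx0.le h1R (by linarith)
  · have := key (1 - η / 8) (η / 16) (by linarith) (by linarith) hxη
    have e : 1 - η / 8 + η / 16 = 1 - η / 16 := by ring
    rwa [e] at this

open Classical in
/-- **The count of the exceptional shifts.** -/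
theorem count (r : ℕ) (hr : 2 ≤ r) : ∃ (P : ℕ → ℝ[X]) (T : ℤ → ℝ[X]),
    (Density r P ∧ (∀ q, 1 ≤ q → (P q).natDegree = r - 1 ∧ (P q).leadingCoeff = κ (r - 1) q / ((r - 1).factorial : ℝ)) ∧
      ∀ ε : ℝ, 0 < ε → ∃ C : ℝ, ∀ q i : ℕ, 1 ≤ q → |(P q).coeff i| ≤ C * (q : ℝ) ^ (ε - 1)) ∧
    (∀ h : ℤ, h ≠ 0 → (∀ u v : ℝ, Summable (fun q : ℕ => (ram (q + 1) h : ℝ) * ((P (q + 1)).eval u * (P (q + 1)).eval v))) ∧
      (∀ u : ℝ, (T h).eval u + (derivative (T h)).eval u = G P h u u) ∧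
      (T h).natDegree = 2 * r - 2 ∧ (T h).leadingCoeff = 𝔖 r h / ((r - 1).factorial : ℝ) ^ 2) ∧
    ∃ θ : ℝ, 0 < θ ∧ θ ≤ 1 / 2 ∧ ∀ η : ℝ, 0 < η → η ≤ θ → ∀ ε : ℝ, 0 < ε → ∃ K : ℝ, ∀ X : ℝ, 1 ≤ X →
      {n : ℕ | (1 ≤ n ∧ ¬ Good r P T θ η n) ∧ (n : ℝ) ≤ X}.Finite ∧
      ({n : ℕ | (1 ≤ n ∧ ¬ Good r P T θ η n) ∧ (n : ℝ) ≤ X}.ncard : ℝ) ≤ K * X ^ (1 - θ + ε) := by
  obtain ⟨P, T, h0, h1, -, h3⟩ := PowerSavingShifts.result r hr
  refine ⟨P, T, h0, h1, ?_⟩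
  obtain ⟨θ₀, hθ₀, h4⟩ := h3 X (by rw [natDegree_X]) 2
  obtain ⟨θ₁, hθ₁⟩ : ∃ θ₁ : ℝ, θ₁ = min θ₀ 1 := ⟨_, rfl⟩
  have ht0 : θ₁ ≤ θ₀ := by rw [hθ₁]; exact min_le_left _ _
  have ht1 : θ₁ ≤ 1 := by rw [hθ₁]; exact min_le_right _ _
  have htp : 0 < θ₁ := by rw [hθ₁]; exact lt_min hθ₀ one_pos
  obtain ⟨θ, hθ⟩ : ∃ θ : ℝ, θ = θ₁ / 2 := ⟨_, rfl⟩
  have hθp : 0 < θ := by rw [hθ]; linarith
  have hθh : θ ≤ 1 / 2 := by rw [hθ]; linarith
  have e2θ : 2 * θ = θ₁ := by rw [hθ]; ring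
  refine ⟨θ, hθp, hθh, fun η hη hηθ => ?_⟩
  obtain ⟨M₀, h5⟩ := h4 η hη (by linarith)
  -- the count at one scale `N`, for both signs
  obtain ⟨F, hF⟩ : ∃ F : ℕ → Set ℕ, F = fun N => {n : ℕ | 1 ≤ n ∧ n ≤ N ∧
    ¬ (Asymp r N P T θ₁ η (n : ℤ) ∧ Asymp r N P T θ₁ η (-(n : ℤ)))} := ⟨_, rfl⟩
  have hFfin : ∀ N, (F N).Finite := by
    intro N
    apply (Set.finite_Icc 1 N).subset
    rw [hF]
    rintro n ⟨a1, a2, -⟩
    exact ⟨a1, a2⟩
  have hFc : ∀ N : ℕ, max M₀ 1 ≤ N → ((F N).ncard : ℝ) ≤ 2 * (N : ℝ) ^ (1 - θ₁) := by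
    intro N hN
    have hN0 : M₀ ≤ N := (le_max_left _ _).trans hN
    have hN1 : 1 ≤ N := (le_max_right _ _).trans hN
    have hN1R : (1 : ℝ) ≤ N := by exact_mod_cast hN1
    have g1 := h5 N hN0 N (by rw [natDegree_X, pow_one]) (by
      rw [natDegree_X]
      calc (N : ℝ) = (N : ℝ) ^ (1 : ℝ) := (Real.rpow_one _).symm
        _ ≤ (N : ℝ) ^ ((1 + θ₀) * ((1 : ℕ) : ℝ)) := Real.rpow_le_rpow_of_exponent_le hN1R (by push_cast; linarith)) 0 (by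
      simp only [abs_zero]
      positivity)
    have g2 := h5 N hN0 N (by rw [natDegree_X, pow_one]) (by
      rw [natDegree_X]
      calc (N : ℝ) = (N : ℝ) ^ (1 : ℝ) := (Real.rpow_one _).symm
        _ ≤ (N : ℝ) ^ ((1 + θ₀) * ((1 : ℕ) : ℝ)) := Real.rpow_le_rpow_of_exponent_le hN1R (by push_cast; linarith))
      (-((N : ℤ) + 1)) (by
      rw [natDegree_X, pow_one, abs_neg, abs_of_nonneg (by positivity)]
      have : (1 : ℤ) ≤ N := by exact_mod_cast hN1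
      push_cast
      linarith)
    have hsub : F N ⊆ (((Icc 1 N).filter (fun m : ℕ => (0 : ℤ) + (X : ℤ[X]).eval (m : ℤ) ≠ 0 ∧
          ¬ Asymp r N P T θ₀ η (0 + (X : ℤ[X]).eval (m : ℤ))) : Finset ℕ) : Set ℕ) ∪
        ((fun m : ℕ => N + 1 - m) '' (((Icc 1 N).filter (fun m : ℕ => (-((N : ℤ) + 1)) + (X : ℤ[X]).eval (m : ℤ) ≠ 0 ∧
          ¬ Asymp r N P T θ₀ η ((-((N : ℤ) + 1)) + (X : ℤ[X]).eval (m : ℤ))) : Finset ℕ) : Set ℕ)) := by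
      intro n hn
      rw [hF] at hn
      obtain ⟨a1, a2, a3⟩ := hn
      rw [not_and_or] at a3
      rcases a3 with a3 | a3
      · left
        rw [Finset.mem_coe, mem_filter, mem_Icc, eval_X, zero_add]
        exact ⟨⟨a1, a2⟩, by omega, fun hh => a3 (asymp_mono hN1 ht0 hh)⟩
      · right
        refine ⟨N + 1 - n, ?_, by show N + 1 - (N + 1 - n) = n; omega⟩
        rw [Finset.mem_coe, mem_filter, mem_Icc, eval_X]
        have e : -((N : ℤ) + 1) + ((N + 1 - n : ℕ) : ℤ) = -(n : ℤ) := by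
          rw [Nat.cast_sub (by omega)]
          push_cast
          ring
        rw [e]
        exact ⟨⟨by omega, by omega⟩, by omega, fun hh => a3 (asymp_mono hN1 ht0 hh)⟩
    have hfin2 := (Finset.finite_toSet ((Icc 1 N).filter (fun m : ℕ => (0 : ℤ) + (X : ℤ[X]).eval (m : ℤ) ≠ 0 ∧
          ¬ Asymp r N P T θ₀ η (0 + (X : ℤ[X]).eval (m : ℤ))))).union
      ((Finset.finite_toSet ((Icc 1 N).filter (fun m : ℕ => (-((N : ℤ) + 1)) + (X : ℤ[X]).eval (m : ℤ) ≠ 0 ∧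
          ¬ Asymp r N P T θ₀ η ((-((N : ℤ) + 1)) + (X : ℤ[X]).eval (m : ℤ))))).image (fun m : ℕ => N + 1 - m))
    have k1 := Set.ncard_le_ncard hsub hfin2
    have k2 := k1.trans (Set.ncard_union_le _ _)
    have k3 := Set.ncard_image_le (f := fun m : ℕ => N + 1 - m)
      (Finset.finite_toSet ((Icc 1 N).filter (fun m : ℕ => (-((N : ℤ) + 1)) + (X : ℤ[X]).eval (m : ℤ) ≠ 0 ∧
          ¬ Asymp r N P T θ₀ η ((-((N : ℤ) + 1)) + (X : ℤ[X]).eval (m : ℤ)))))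
    rw [Set.ncard_coe_finset] at k2 k3
    have k4 := k2.trans (Nat.add_le_add_left k3 _)
    have k5 : ((F N).ncard : ℝ) ≤ _ := Nat.cast_le.2 k4
    rw [Nat.cast_add] at k5
    have k6 : (N : ℝ) ^ (1 - θ₀) ≤ (N : ℝ) ^ (1 - θ₁) := Real.rpow_le_rpow_of_exponent_le hN1R (by linarith)
    refine k5.trans ?_
    linarith
  -- all scales
  obtain ⟨J, hJ⟩ : ∃ J : ℕ → ℕ, J = fun k => 2 * k + 3 := ⟨_, rfl⟩
  obtain ⟨x₀, hx₀⟩ : ∃ x₀ : ℕ, ∀ x : ℕ, x₀ ≤ x → 2 ≤ (x : ℝ) ^ θ ∧ 2 ≤ (x : ℝ) ^ (η / 16) := by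
    have q1 := (tendsto_rpow_atTop hθp).comp (tendsto_natCast_atTop_atTop (R := ℝ))
    have q2 := (tendsto_rpow_atTop (show 0 < η / 16 by linarith)).comp (tendsto_natCast_atTop_atTop (R := ℝ))
    obtain ⟨x₀, hx₀⟩ := Filter.eventually_atTop.1
      ((q1.eventually_ge_atTop 2).and (q2.eventually_ge_atTop 2))
    exact ⟨x₀, hx₀⟩
  obtain ⟨k₀, hk₀⟩ : ∃ k₀ : ℕ, k₀ = max (max M₀ 1) (max x₀ 1) := ⟨_, rfl⟩
  refine Pool.Agent.N481.MV.scale (fun n : ℕ => (n : ℝ)) (P := fun n : ℕ => 1 ≤ n ∧ ¬ Good r P T θ η n)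
    (Q := fun k n => ∃ j : ℕ, k ≤ j ∧ ((2 ^ j : ℕ) : ℝ) ≤ 2 * ((2 : ℝ) ^ (k + 1)) ^ (1 + θ) ∧ n ∈ F (2 ^ j)) (C := 36) (p := 1)
    (k₀ := k₀) (by linarith) ?_ ?_ ?_
  · apply (Set.finite_Iio (2 ^ k₀)).subset
    rintro n ⟨-, h2⟩
    exact_mod_cast h2
  · rintro k n hk g1 g2 ⟨g3, g4⟩
    -- some formula fails
    have hn0 : (1 : ℝ) ≤ n := by exact_mod_cast g3
    have hkx : x₀ ≤ n := by
      have : k₀ ≤ 2 ^ k := hk.trans (Nat.lt_two_pow_self).le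
      have h2 : 2 ^ k ≤ n := by exact_mod_cast g1
      have h3 : x₀ ≤ k₀ := by rw [hk₀]; exact (le_max_left _ _).trans (le_max_right _ _)
      omega
    have main : ∀ h : ℤ, |h| = (n : ℤ) → ¬ Formulas r P T θ η h →
        (h = (n : ℤ) ∨ h = -(n : ℤ)) →
        ∃ j : ℕ, k ≤ j ∧ ((2 ^ j : ℕ) : ℝ) ≤ 2 * ((2 : ℝ) ^ (k + 1)) ^ (1 + θ) ∧ n ∈ F (2 ^ j) := by
      intro h hh hF1 hor
      have hhR : (|h| : ℝ) = (n : ℝ) := by
        have : ((|h| : ℤ) : ℝ) = ((n : ℤ) : ℝ) := by rw [hh]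
        push_cast at this
        exact this
      unfold Formulas at hF1
      push Not at hF1
      obtain ⟨x, hx1, hx2, hx3⟩ := hF1
      rw [hhR] at hx1 hx2
      have hnx : n ≤ x := by exact_mod_cast hx1
      have hx0 : 1 ≤ x := by omega
      obtain ⟨j, hj⟩ : ∃ j : ℕ, j = Nat.clog 2 x := ⟨_, rfl⟩
      have hj1 : x ≤ 2 ^ j := by rw [hj]; exact Nat.le_pow_clog (by norm_num) x
      have hj2 : 2 ^ j < 2 * x := by
        rcases Nat.lt_or_ge x 2 with hx2' | hx2'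
        · have : x = 1 := by omega
          rw [hj, this]
          simp
        · have hpos : 0 < Nat.clog 2 x := Nat.clog_pos (by norm_num) hx2'
          have := Nat.pow_pred_clog_lt_self (b := 2) (by norm_num) (x := x) (by omega)
          have e : 2 ^ j = 2 * 2 ^ (Nat.clog 2 x - 1) := by
            rw [hj, ← pow_succ']
            congr 1
            omega
          rw [e]
          have e2 : (Nat.clog 2 x).pred = Nat.clog 2 x - 1 := rfl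
          rw [e2] at this
          omega
      obtain ⟨y1, y2⟩ := hx₀ x (hkx.trans hnx)
      have hna : ¬ Asymp r (2 ^ j) P T θ₁ η h := by
        intro ha
        rw [← e2θ] at ha
        obtain ⟨z1, z2⟩ := formulas_of hθp hθh hη (by linarith) hx0 y1 y2 hj1 hj2 ha
        exact absurd (z2 (hx3 z1).1) (not_le.2 (hx3 z1).2)
      refine ⟨j, ?_, ?_, ?_⟩
      · by_contra hcon
        push Not at hcon
        have : 2 ^ j < 2 ^ k := Nat.pow_lt_pow_right (by norm_num) hcon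
        have h2 : 2 ^ k ≤ n := by exact_mod_cast g1
        omega
      · have q1 : ((2 ^ j : ℕ) : ℝ) ≤ 2 * x := by exact_mod_cast hj2.le
        have q2 : (n : ℝ) ^ (1 + θ) ≤ ((2 : ℝ) ^ (k + 1)) ^ (1 + θ) :=
          Real.rpow_le_rpow (by linarith) g2.le (by linarith)
        linarith
      · rw [hF]
        refine ⟨g3, by omega, ?_⟩
        rintro ⟨w1, w2⟩
        rcases hor with hor | hor
        · rw [hor] at hna
          exact hna w1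
        · rw [hor] at hna
          exact hna w2
    unfold Good at g4
    rw [not_and_or] at g4
    rcases g4 with g4 | g4
    · exact main n (by simp) g4 (Or.inl rfl)
    · exact main (-(n : ℤ)) (by simp) g4 (Or.inr rfl)
  · intro k hk
    have hk1 : 1 ≤ k := by
      have : 1 ≤ k₀ := by rw [hk₀]; exact (le_max_right _ _).trans (le_max_right _ _)
      omega
    have hkM : max M₀ 1 ≤ k := by
      have : max M₀ 1 ≤ k₀ := by rw [hk₀]; exact le_max_left _ _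
      omega
    have h2k1 : (1 : ℝ) ≤ (2 : ℝ) ^ (k + 1) := one_le_pow₀ (by norm_num)
    -- the range of `j`
    have hjr : ∀ j : ℕ, ((2 ^ j : ℕ) : ℝ) ≤ 2 * ((2 : ℝ) ^ (k + 1)) ^ (1 + θ) → j ≤ 2 * k + 3 := by
      intro j hj
      have h1 : ((2 : ℝ) ^ (k + 1)) ^ (1 + θ) ≤ ((2 : ℝ) ^ (k + 1)) ^ (2 : ℝ) :=
        Real.rpow_le_rpow_of_exponent_le h2k1 (by linarith)
      rw [Real.rpow_two] at h1
      have h2 : ((2 ^ j : ℕ) : ℝ) ≤ ((2 ^ (2 * k + 3) : ℕ) : ℝ) := by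
        push_cast
        push_cast at hj
        calc (2 : ℝ) ^ j ≤ 2 * ((2 : ℝ) ^ (k + 1)) ^ (1 + θ) := hj
          _ ≤ 2 * ((2 : ℝ) ^ (k + 1)) ^ 2 := by linarith
          _ = (2 : ℝ) ^ (2 * k + 3) := by rw [← pow_mul, ← pow_succ']; congr 1; ring
      have h3 : 2 ^ j ≤ 2 ^ (2 * k + 3) := by exact_mod_cast h2
      exact (Nat.pow_le_pow_iff_right (by norm_num)).1 h3
    have hsub : {t : ℕ | (t : ℝ) ≤ 2 ^ (k + 1) ∧ ∃ j : ℕ, k ≤ j ∧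
        ((2 ^ j : ℕ) : ℝ) ≤ 2 * ((2 : ℝ) ^ (k + 1)) ^ (1 + θ) ∧ t ∈ F (2 ^ j)} ⊆
        ((((range (2 * k + 4)).filter (fun j => k ≤ j ∧ ((2 ^ j : ℕ) : ℝ) ≤ 2 * ((2 : ℝ) ^ (k + 1)) ^ (1 + θ))).biUnion
          (fun j => (hFfin (2 ^ j)).toFinset) : Finset ℕ) : Set ℕ) := by
      rintro t ⟨-, j, hj1, hj2, hj3⟩
      rw [Finset.mem_coe, mem_biUnion]
      refine ⟨j, ?_, by rw [Set.Finite.mem_toFinset]; exact hj3⟩
      rw [mem_filter, mem_range]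
      exact ⟨by have := hjr j hj2; omega, hj1, hj2⟩
    refine ⟨(Finset.finite_toSet _).subset hsub, ?_⟩
    have c1 := Set.ncard_le_ncard hsub (Finset.finite_toSet _)
    rw [Set.ncard_coe_finset] at c1
    have c2 := c1.trans card_biUnion_le
    have c3 : ((∑ j ∈ (range (2 * k + 4)).filter
        (fun j => k ≤ j ∧ ((2 ^ j : ℕ) : ℝ) ≤ 2 * ((2 : ℝ) ^ (k + 1)) ^ (1 + θ)), (hFfin (2 ^ j)).toFinset.card : ℕ) : ℝ) ≤
        (2 * k + 4) * (4 * ((2 : ℝ) ^ (k + 1)) ^ (1 - θ)) := by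
      rw [Nat.cast_sum]
      have hterm : ∀ j ∈ (range (2 * k + 4)).filter
          (fun j => k ≤ j ∧ ((2 ^ j : ℕ) : ℝ) ≤ 2 * ((2 : ℝ) ^ (k + 1)) ^ (1 + θ)),
          ((hFfin (2 ^ j)).toFinset.card : ℝ) ≤ 4 * ((2 : ℝ) ^ (k + 1)) ^ (1 - θ) := by
        intro j hj
        rw [mem_filter] at hj
        obtain ⟨-, hj1, hj2⟩ := hj
        have d1 : max M₀ 1 ≤ 2 ^ j := hkM.trans (hj1.trans (Nat.lt_two_pow_self).le)
        have d2 := hFc (2 ^ j) d1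
        rw [Set.ncard_eq_toFinset_card _ (hFfin (2 ^ j))] at d2
        refine d2.trans ?_
        have hs : (0 : ℝ) ≤ 1 - θ₁ := by linarith
        have d3 : (((2 ^ j : ℕ)) : ℝ) ^ (1 - θ₁) ≤ 2 * ((2 : ℝ) ^ (k + 1)) ^ (1 - θ) := by
          calc (((2 ^ j : ℕ)) : ℝ) ^ (1 - θ₁) ≤ (2 * ((2 : ℝ) ^ (k + 1)) ^ (1 + θ)) ^ (1 - θ₁) :=
                Real.rpow_le_rpow (Nat.cast_nonneg _) hj2 hs
            _ = (2 : ℝ) ^ (1 - θ₁) * (((2 : ℝ) ^ (k + 1)) ^ (1 + θ)) ^ (1 - θ₁) :=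
                Real.mul_rpow (by norm_num) (by positivity)
            _ ≤ 2 * (((2 : ℝ) ^ (k + 1)) ^ (1 + θ)) ^ (1 - θ₁) := by
                apply mul_le_mul_of_nonneg_right _ (by positivity)
                calc (2 : ℝ) ^ (1 - θ₁) ≤ (2 : ℝ) ^ (1 : ℝ) :=
                      Real.rpow_le_rpow_of_exponent_le (by norm_num) (by linarith)
                  _ = 2 := Real.rpow_one 2
            _ = 2 * ((2 : ℝ) ^ (k + 1)) ^ ((1 + θ) * (1 - θ₁)) := by rw [← Real.rpow_mul (by positivity)]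
            _ ≤ 2 * ((2 : ℝ) ^ (k + 1)) ^ (1 - θ) := by
                apply mul_le_mul_of_nonneg_left _ (by norm_num)
                apply Real.rpow_le_rpow_of_exponent_le h2k1
                nlinarith
        linarith
      refine (sum_le_card_nsmul _ _ _ hterm).trans ?_
      rw [nsmul_eq_mul]
      apply mul_le_mul_of_nonneg_right _ (by positivity)
      have : ((range (2 * k + 4)).filter
          (fun j => k ≤ j ∧ ((2 ^ j : ℕ) : ℝ) ≤ 2 * ((2 : ℝ) ^ (k + 1)) ^ (1 + θ))).card ≤ 2 * k + 4 :=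
        (card_filter_le _ _).trans (by rw [card_range])
      exact_mod_cast this
    have c4 : (2 * (k : ℝ) + 4) ≤ 9 * Real.log (2 ^ (k + 1)) := by
      rw [Real.log_pow]
      have := Real.log_two_gt_d9
      have hkR : (1 : ℝ) ≤ k := by exact_mod_cast hk1
      push_cast
      nlinarith
    calc ({t : ℕ | (t : ℝ) ≤ 2 ^ (k + 1) ∧ ∃ j : ℕ, k ≤ j ∧
        ((2 ^ j : ℕ) : ℝ) ≤ 2 * ((2 : ℝ) ^ (k + 1)) ^ (1 + θ) ∧ t ∈ F (2 ^ j)}.ncard : ℝ)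
        ≤ (2 * k + 4) * (4 * ((2 : ℝ) ^ (k + 1)) ^ (1 - θ)) := le_trans (by exact_mod_cast c2) c3
      _ ≤ (9 * Real.log (2 ^ (k + 1))) * (4 * ((2 : ℝ) ^ (k + 1)) ^ (1 - θ)) :=
          mul_le_mul_of_nonneg_right c4 (by positivity)
      _ = 36 * Real.log (2 ^ (k + 1)) ^ 1 * ((2 : ℝ) ^ (k + 1)) ^ (1 - θ) := by ring

end Pool.Agent.V7H35.DivCount
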