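import Pool.Agent.Q278.KT.Fin

/-!
# Primes which are followed by a large gap

The number of the primes `p ≤ X` for which the next prime is larger than `p + p^(1/2-δ)` is at most `C X^0.306`. This is a
consequence of the starting theorem `Pool.Agent.Q278.KT.mainp_half` on the number of poor intervals.
-/

set_option autoImplicit false

namespace Pool.Agent.V7H35.GapCount

open Finset Pool.Agent.Q240.KS

/-- the least prime greater than `n` -/
noncomputable def next (n : ℕ) : ℕ := sInf {p : ℕ | p.Prime ∧ n < p}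

/-- the gap after `n` is at most `n ^ (1 / 2 - δ)` and smaller than `√n + 1` -/
def Good (δ : ℝ) (n : ℕ) : Prop :=
  (next n : ℝ) - n ≤ (n : ℝ) ^ (1 / 2 - δ) ∧ (next n : ℝ) - n < Real.sqrt n + 1

lemma next_spec (n : ℕ) : (next n).Prime ∧ n < next n := by
  have hne : {p : ℕ | p.Prime ∧ n < p}.Nonempty := by
    obtain ⟨p, hp1, hp2⟩ := Nat.exists_infinite_primes (n + 1)
    exact ⟨p, hp2, by omega⟩
  exact Nat.sInf_mem hne

lemma next_le {n p : ℕ} (hp : p.Prime) (h : n < p) : next n ≤ p := Nat.sInf_le ⟨hp, h⟩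

lemma good_of {δ : ℝ} (hδ : 0 ≤ δ) {n : ℕ} (hn : 1 ≤ n) (h : (next n : ℝ) - n ≤ (n : ℝ) ^ (1 / 2 - δ)) : Good δ n := by
  refine ⟨h, h.trans_lt ?_⟩
  have h1 : (n : ℝ) ^ (1 / 2 - δ) ≤ (n : ℝ) ^ (1 / 2 : ℝ) :=
    Real.rpow_le_rpow_of_exponent_le (by exact_mod_cast hn) (by linarith)
  rw [Real.sqrt_eq_rpow]
  linarith

/-- the exceptional primes in one block -/
lemma block : ∃ δ η Y₁ : ℝ, 0 < δ ∧ δ ≤ 1 / 4 ∧ 0 < η ∧ η ≤ 1 / 10 ∧ ∀ Y : ℝ, Y₁ ≤ Y → ∀ S : Finset ℕ,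
    (∀ n ∈ S, n.Prime ∧ |Real.log n - Y| ≤ 2 / 5 ∧ ¬ Good δ n) →
    (S.card : ℝ) ≤ Real.exp ((0.306 - η) * Y) := by
  classical
  obtain ⟨c₀, η₀, Y₀, hc₀, hη₀, hM⟩ := Pool.Agent.Q278.KT.mainp_half
  set η : ℝ := min η₀ (1 / 10) with hηd
  have hη0 : 0 < η := lt_min hη₀ (by norm_num)
  have hη1 : η ≤ η₀ := min_le_left _ _
  have hη2 : η ≤ 1 / 10 := min_le_right _ _
  refine ⟨η / 2, η, max (|Y₀|) (max 10 (12 / η)), by positivity, by linarith, hη0, hη2, ?_⟩
  intro Y hY S hS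
  have hYY0 : Y₀ ≤ Y := (le_abs_self _).trans ((le_max_left _ _).trans hY)
  have hY10 : (10 : ℝ) ≤ Y := ((le_max_left _ _).trans (le_max_right _ _)).trans hY
  have hYη : 12 / η ≤ Y := ((le_max_right _ _).trans (le_max_right _ _)).trans hY
  rw [div_le_iff₀ hη0] at hYη
  set h : ℝ := Real.exp ((1 - 1 / 2 - η) * Y) with hh
  have hh0 : 0 < h := Real.exp_pos _
  have hgap : ∀ n ∈ S, h < (next n : ℝ) - n := by
    intro n hn
    obtain ⟨h1, h2, h3⟩ := hS n hn
    have hn0 : (0 : ℝ) < n := by exact_mod_cast h1.pos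
    by_contra hcon
    refine h3 (good_of (by positivity) h1.one_lt.le ((not_lt.1 hcon).trans ?_))
    rw [hh, Real.rpow_def_of_pos hn0, Real.exp_le_exp]
    have hlog := abs_le.1 h2
    have h4 : (Y - 2 / 5) * (1 / 2 - η / 2) ≤ Real.log n * (1 / 2 - η / 2) :=
      mul_le_mul_of_nonneg_right (by linarith) (by linarith)
    nlinarith
  set U : Finset ℝ := S.image (fun n : ℕ => (n : ℝ)) with hU
  have hUc : U.card = S.card := card_image_of_injective _ Nat.cast_injective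
  rw [← hUc]
  have hfin := hM Y hYY0 h ?_ ?_ U ?_ ?_
  · refine hfin.trans (Real.exp_le_exp.2 (mul_le_mul_of_nonneg_right (by linarith) (by linarith)))
  · rw [hh, Real.exp_le_exp]
    exact mul_le_mul_of_nonneg_right (by linarith) (by linarith)
  · rw [hh, Real.exp_le_exp]
    exact mul_le_mul_of_nonneg_right (by linarith) (by linarith)
  · intro y hy
    obtain ⟨n, hn, rfl⟩ := mem_image.1 hy
    obtain ⟨h1, h2, -⟩ := hS n hn
    have hn0 : (0 : ℝ) < n := by exact_mod_cast h1.pos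
    refine ⟨hn0, h2, ?_⟩
    have h3 : pic (n : ℝ) h = 0 := by
      unfold pic
      rw [card_eq_zero, filter_eq_empty_iff]
      intro p hp hpp
      rw [mem_Ioc, Nat.floor_natCast] at hp
      have h4 : next n ≤ p := next_le hpp hp.1
      have h5 : (p : ℝ) ≤ n + h := (Nat.cast_le.2 hp.2).trans (Nat.floor_le (by positivity))
      have h6 : (next n : ℝ) ≤ p := by exact_mod_cast h4
      linarith [hgap n hn]
    rw [h3]
    push_cast
    positivity
  · intro y hy y' hy' hne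
    obtain ⟨n, hn, rfl⟩ := mem_image.1 hy
    obtain ⟨n', hn', rfl⟩ := mem_image.1 hy'
    have hnn : n ≠ n' := by
      rintro rfl
      exact hne rfl
    rcases lt_or_gt_of_ne hnn with h7 | h7
    · have h8 : (next n : ℝ) ≤ n' := by exact_mod_cast next_le (hS n' hn').1 h7
      have h9 := hgap n hn
      rw [abs_sub_comm, abs_of_nonneg (by linarith)]
      linarith
    · have h8 : (next n' : ℝ) ≤ n := by exact_mod_cast next_le (hS n hn).1 h7
      have h9 := hgap n' hn'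
      rw [abs_of_nonneg (by linarith)]
      linarith

/-- the exceptional set in the form needed by the transfer theorems -/
theorem count : ∃ δ : ℝ, 0 < δ ∧ δ ≤ 1 / 4 ∧ ∀ ε : ℝ, 0 < ε → ∃ C : ℝ, ∀ X : ℝ, 1 ≤ X →
    {n : ℕ | (n.Prime ∧ ¬ Good δ n) ∧ (n : ℝ) ≤ X}.Finite ∧
    ({n : ℕ | (n.Prime ∧ ¬ Good δ n) ∧ (n : ℝ) ≤ X}.ncard : ℝ) ≤ C * X ^ (0.306 + ε) := by
  classical
  obtain ⟨δ, η, Y₁, hδ, hδ2, hη, hη2, hB⟩ := block
  refine ⟨δ, hδ, hδ2, fun ε hε => ?_⟩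
  set K₀ : ℝ := Real.exp (|Y₁| + 1) with hK₀
  have hK0 : 0 ≤ K₀ := (Real.exp_pos _).le
  refine ⟨(5 / η + 1) * (K₀ + 1), fun X hX => ?_⟩
  have hX0 : 0 < X := by linarith
  have hl : 0 ≤ Real.log X := Real.log_nonneg hX
  have hfin : {n : ℕ | (n.Prime ∧ ¬ Good δ n) ∧ (n : ℝ) ≤ X}.Finite :=
    (Set.finite_Iic ⌊X⌋₊).subset fun n hn => Nat.le_floor hn.2
  refine ⟨hfin, ?_⟩
  rw [Set.ncard_eq_toFinset_card _ hfin]
  set F : Finset ℕ := hfin.toFinset with hFdef
  have hF : ∀ n ∈ F, n.Prime ∧ ¬ Good δ n ∧ (n : ℝ) ≤ X := fun n hn => by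
    obtain ⟨⟨h1, h2⟩, h3⟩ := hfin.mem_toFinset.1 hn
    exact ⟨h1, h2, h3⟩
  set Fj : ℕ → Finset ℕ := fun j => F.filter (fun n => ⌊5 * Real.log n⌋₊ = j) with hFj
  have hsub : F ⊆ (range (⌊5 * Real.log X⌋₊ + 1)).biUnion Fj := by
    intro n hn
    obtain ⟨h1, -, h2⟩ := hF n hn
    have hn0 : (0 : ℝ) < n := by exact_mod_cast h1.pos
    refine mem_biUnion.2 ⟨⌊5 * Real.log n⌋₊, ?_, mem_filter.2 ⟨hn, rfl⟩⟩
    rw [mem_range, Nat.lt_succ_iff]
    exact Nat.floor_le_floor (by linarith [Real.log_le_log hn0 h2])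
  have hj : ∀ j ∈ range (⌊5 * Real.log X⌋₊ + 1), ((Fj j).card : ℝ) ≤ K₀ + X ^ (0.306 - η) := by
    intro j hj
    rw [mem_range, Nat.lt_succ_iff] at hj
    have hjX : (j : ℝ) ≤ 5 * Real.log X := by
      have h1 : (j : ℝ) ≤ (⌊5 * Real.log X⌋₊ : ℝ) := by exact_mod_cast hj
      exact h1.trans (Nat.floor_le (by linarith))
    have hmem : ∀ n ∈ Fj j, n.Prime ∧ |Real.log n - (j : ℝ) / 5| ≤ 2 / 5 ∧ ¬ Good δ n := by
      intro n hn
      rw [hFj] at hn
      obtain ⟨h1, h2⟩ := mem_filter.1 hn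
      obtain ⟨h3, h4, h5⟩ := hF n h1
      have hn1 : (1 : ℝ) ≤ n := by exact_mod_cast h3.one_lt.le
      have hln : 0 ≤ Real.log n := Real.log_nonneg hn1
      have h6 : (j : ℝ) ≤ 5 * Real.log n := by
        rw [← h2]
        exact Nat.floor_le (by linarith)
      have h7 : 5 * Real.log n < (j : ℝ) + 1 := by
        rw [← h2]
        exact Nat.lt_floor_add_one _
      refine ⟨h3, ?_, h4⟩
      rw [abs_le]
      constructor <;> linarith
    have hpos : 0 ≤ X ^ (0.306 - η) := by positivity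
    rcases le_or_gt Y₁ ((j : ℝ) / 5) with hY | hY
    · refine (hB _ hY _ hmem).trans ?_
      have h1 : Real.exp ((0.306 - η) * ((j : ℝ) / 5)) ≤ X ^ (0.306 - η) := by
        rw [Real.rpow_def_of_pos hX0, Real.exp_le_exp]
        nlinarith
      linarith
    · have h1 : (Fj j) ⊆ Icc 1 ⌊K₀⌋₊ := by
        intro n hn
        obtain ⟨h3, h4, -⟩ := hmem n hn
        have hn0 : (0 : ℝ) < n := by exact_mod_cast h3.pos
        rw [mem_Icc]
        refine ⟨h3.one_lt.le, Nat.le_floor ?_⟩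
        have h5 := (abs_le.1 h4).2
        have h6 := le_abs_self Y₁
        calc (n : ℝ) = Real.exp (Real.log n) := (Real.exp_log hn0).symm
          _ ≤ K₀ := Real.exp_le_exp.2 (by linarith)
      have h2 : ((Fj j).card : ℝ) ≤ K₀ := by
        have h3 : (Fj j).card ≤ ⌊K₀⌋₊ := (card_le_card h1).trans (by rw [Nat.card_Icc]; omega)
        exact (Nat.cast_le.2 h3).trans (Nat.floor_le hK0)
      linarith
  have h1 : (F.card : ℝ) ≤ (5 * Real.log X + 1) * (K₀ + X ^ (0.306 - η)) := by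
    calc (F.card : ℝ) ≤ (((range (⌊5 * Real.log X⌋₊ + 1)).biUnion Fj).card : ℝ) := by
          exact_mod_cast card_le_card hsub
      _ ≤ ∑ j ∈ range (⌊5 * Real.log X⌋₊ + 1), ((Fj j).card : ℝ) := by exact_mod_cast card_biUnion_le
      _ ≤ ∑ _j ∈ range (⌊5 * Real.log X⌋₊ + 1), (K₀ + X ^ (0.306 - η)) := sum_le_sum hj
      _ = ((⌊5 * Real.log X⌋₊ : ℝ) + 1) * (K₀ + X ^ (0.306 - η)) := by
          rw [sum_const, card_range, nsmul_eq_mul]
          push_cast
          ring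
      _ ≤ _ := by
          have h2 := Nat.floor_le (show (0 : ℝ) ≤ 5 * Real.log X by linarith)
          gcongr
  have hlog : Real.log X ≤ X ^ η / η := Real.log_le_rpow_div hX0.le hη
  have hXη : 1 ≤ X ^ η := Real.one_le_rpow hX hη.le
  have h5 : 5 * Real.log X + 1 ≤ (5 / η + 1) * X ^ η := by
    have : 5 / η * X ^ η = 5 * (X ^ η / η) := by ring
    nlinarith
  have h7 : K₀ + X ^ (0.306 - η) ≤ (K₀ + 1) * X ^ (0.306 - η) := by
    have h8 : 1 ≤ X ^ (0.306 - η) := Real.one_le_rpow hX (by linarith)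
    nlinarith
  have h8 : X ^ η * X ^ (0.306 - η) ≤ X ^ (0.306 + ε) := by
    rw [← Real.rpow_add hX0]
    exact Real.rpow_le_rpow_of_exponent_le hX (by linarith)
  calc (F.card : ℝ) ≤ (5 * Real.log X + 1) * (K₀ + X ^ (0.306 - η)) := h1
    _ ≤ ((5 / η + 1) * X ^ η) * ((K₀ + 1) * X ^ (0.306 - η)) := by
        apply mul_le_mul h5 h7 (by positivity) (by positivity)
    _ = (5 / η + 1) * (K₀ + 1) * (X ^ η * X ^ (0.306 - η)) := by ring
    _ ≤ _ := mul_le_mul_of_nonneg_left h8 (by positivity)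

end Pool.Agent.V7H35.GapCount
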