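import Pool.Agent.V7H35.LogMetric
import Pool.Agent.R482.ST.Star

/-!
# Examples of very thin sequences
-/

set_option autoImplicit false

namespace Pool.Agent.V7H35.LogMetric

open Filter Topology

lemma ev_half {c L : ℝ} (hc : 0 < c) (hL : 0 < L) (K : ℝ) : ∃ n₀ : ℕ, ∀ n : ℕ, n₀ ≤ n →
    (n : ℝ) ^ (c / 2) ≤ L * (n : ℝ) ^ c - K := by
  have ht : Tendsto (fun n : ℕ => (n : ℝ) ^ (c / 2)) atTop atTop :=
    (tendsto_rpow_atTop (by positivity)).comp tendsto_natCast_atTop_atTop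
  obtain ⟨n₀, hn₀⟩ := eventually_atTop.1 (ht.eventually_ge_atTop (max 1 ((2 + |K|) / L)))
  refine ⟨n₀, fun n hn => ?_⟩
  have h1 := hn₀ n hn
  have h2 : 1 ≤ (n : ℝ) ^ (c / 2) := (le_max_left _ _).trans h1
  have h3 : (2 + |K|) / L ≤ (n : ℝ) ^ (c / 2) := (le_max_right _ _).trans h1
  rw [div_le_iff₀ hL] at h3
  have h4 : (n : ℝ) ^ c = (n : ℝ) ^ (c / 2) * (n : ℝ) ^ (c / 2) := by
    rcases Nat.eq_zero_or_pos n with rfl | hn0
    · norm_num [Real.zero_rpow (show c / 2 ≠ 0 by positivity), Real.zero_rpow hc.ne']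
    · have : (0 : ℝ) < n := by exact_mod_cast hn0
      rw [← Real.rpow_add this]
      congr 1
      ring
  have h5 := le_abs_self K
  have h6 := abs_nonneg K
  rw [h4]
  nlinarith

/-- multiples of a sequence which grows -/
theorem ex_mul (v : ℕ → ℝ) (hv : ∀ n, 0 < v n) (c : ℝ) (hc : 0 < c)
    (h : ∃ n₀ : ℕ, ∀ n : ℕ, n₀ ≤ n → (n : ℝ) ^ c ≤ Real.log (v n)) :
    Star 0 (fun n x => v n * x) ∧ Grow 0 (fun n x => v n * x) := by
  refine ⟨⟨le_rfl, Pool.Agent.R482.ST.star_mul hv⟩, fun x hx => ⟨c / 2, by positivity, ?_⟩⟩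
  obtain ⟨n₀, hn₀⟩ := h
  obtain ⟨n₁, hn₁⟩ := ev_half hc one_pos (-Real.log x)
  refine ⟨max n₀ n₁, fun n hn => ?_⟩
  have h1 := hn₀ n ((le_max_left _ _).trans hn)
  have h2 := hn₁ n ((le_max_right _ _).trans hn)
  simp only
  rw [Real.log_mul (hv n).ne' hx.ne']
  linarith

/-- powers -/
theorem ex_pow (v : ℕ → ℝ) (hv : ∀ n, 1 ≤ v n) (c : ℝ) (hc : 0 < c)
    (h : ∃ n₀ : ℕ, ∀ n : ℕ, n₀ ≤ n → (n : ℝ) ^ c ≤ v n) :
    Star 1 (fun n x => x ^ (v n)) ∧ Grow 1 (fun n x => x ^ (v n)) := by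
  refine ⟨⟨zero_le_one, Pool.Agent.R482.ST.star_pow hv⟩, fun x hx => ⟨c / 2, by positivity, ?_⟩⟩
  obtain ⟨n₀, hn₀⟩ := h
  have hl : 0 < Real.log x := Real.log_pos hx
  obtain ⟨n₁, hn₁⟩ := ev_half hc hl 0
  refine ⟨max n₀ n₁, fun n hn => ?_⟩
  have h1 := hn₀ n ((le_max_left _ _).trans hn)
  have h2 := hn₁ n ((le_max_right _ _).trans hn)
  simp only
  rw [Real.log_rpow (by linarith)]
  nlinarith

/-- orbits of a map `g` with `g x > x` and `g x / x` nondecreasing -/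
theorem ex_orbit (a : ℝ) (g : ℝ → ℝ) (ha : 0 ≤ a) (hg : ∀ x y : ℝ, a < x → x ≤ y → g x / x ≤ g y / y)
    (hg1 : ∀ x : ℝ, a < x → x < g x) :
    Star a (fun n x => g^[n] x) ∧ Grow a (fun n x => g^[n] x) := by
  refine ⟨⟨ha, (Pool.Agent.R482.ST.orbit ha hg hg1).1⟩, fun x hx => ⟨1 / 2, by norm_num, ?_⟩⟩
  have hx0 : 0 < x := lt_of_le_of_lt ha hx
  set ρ : ℝ := g x / x with hρ
  have hρ1 : 1 < ρ := (one_lt_div hx0).2 (hg1 x hx)
  have hlow : ∀ n : ℕ, x * ρ ^ n ≤ g^[n] x ∧ x ≤ g^[n] x := by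
    intro n
    induction n with
    | zero => simp
    | succ n ih =>
      rw [Function.iterate_succ_apply']
      have h1 := hg x (g^[n] x) hx ih.2
      have hy0 : 0 < g^[n] x := hx0.trans_le ih.2
      have h2 : ρ * g^[n] x ≤ g (g^[n] x) := by
        rwa [le_div_iff₀ hy0] at h1
      constructor
      · calc x * ρ ^ (n + 1) = ρ * (x * ρ ^ n) := by ring
          _ ≤ ρ * g^[n] x := mul_le_mul_of_nonneg_left ih.1 (by linarith)
          _ ≤ _ := h2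
      · exact ih.2.trans (hg1 _ (hx.trans_le ih.2)).le
  have hl : 0 < Real.log ρ := Real.log_pos hρ1
  obtain ⟨n₁, hn₁⟩ := ev_half one_pos hl (-Real.log x)
  refine ⟨n₁, fun n hn => ?_⟩
  have h2 := hn₁ n hn
  rw [Real.rpow_one] at h2
  have h3 := Real.log_le_log (by positivity) (hlow n).1
  rw [Real.log_mul hx0.ne' (by positivity), Real.log_pow] at h3
  simp only
  linarith

/-- a criterion for `Few` -/
theorem few_of {S : Set ℕ} (h : ∀ A : ℕ, ∃ C : ℝ, ∀ X : ℝ, Real.exp 2 ≤ X →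
    ({t : ℕ | t ∈ S ∧ Real.sqrt X < t ∧ (t : ℝ) ≤ X}.ncard : ℝ) ≤ C * X / Real.log X ^ A) :
    Few S (fun n : ℕ => (n : ℝ)) := by
  classical
  intro A
  obtain ⟨C, hC⟩ := h A
  set η : ℝ := 1 / (2 * ((A : ℝ) + 1)) with hη
  have hη0 : 0 < η := by positivity
  refine ⟨|C| + 2 * (1 / η) ^ A + 9 * 2 ^ A, fun X hX => ?_⟩
  have hX0 : 0 < X := by linarith
  have hfin : {t : ℕ | t ∈ S ∧ (t : ℝ) ≤ X}.Finite := (Set.finite_Iic ⌊X⌋₊).subset fun n hn => Nat.le_floor hn.2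
  refine ⟨hfin, ?_⟩
  have hlog : 0 < Real.log X := Real.log_pos (by linarith)
  rcases lt_or_ge X (Real.exp 2) with hlt | hge
  · -- small `X`
    have h1 : ({t : ℕ | t ∈ S ∧ (t : ℝ) ≤ X}.ncard : ℝ) ≤ X + 1 := by
      have h2 : {t : ℕ | t ∈ S ∧ (t : ℝ) ≤ X} ⊆ ((Finset.range (⌊X⌋₊ + 1) : Finset ℕ) : Set ℕ) := fun n hn => by
        rw [Finset.mem_coe, Finset.mem_range, Nat.lt_succ_iff]
        exact Nat.le_floor hn.2
      have h3 := Set.ncard_le_ncard h2 (Finset.finite_toSet _)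
      rw [Set.ncard_coe_finset, Finset.card_range] at h3
      calc ({t : ℕ | t ∈ S ∧ (t : ℝ) ≤ X}.ncard : ℝ) ≤ ((⌊X⌋₊ + 1 : ℕ) : ℝ) := Nat.cast_le.2 h3
        _ ≤ X + 1 := by
          push_cast
          linarith [Nat.floor_le hX0.le]
    have hlog2 : Real.log X ≤ 2 := by
      rw [← Real.log_exp 2]
      exact Real.log_le_log hX0 hlt.le
    rw [le_div_iff₀ (by positivity)]
    have h4 : Real.log X ^ A ≤ 2 ^ A := pow_le_pow_left₀ hlog.le hlog2 A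
    have h5 : X + 1 ≤ 9 * X := by linarith
    have h6 : (0 : ℝ) ≤ |C| + 2 * (1 / η) ^ A := by positivity
    calc ({t : ℕ | t ∈ S ∧ (t : ℝ) ≤ X}.ncard : ℝ) * Real.log X ^ A ≤ (9 * X) * 2 ^ A := by
          apply mul_le_mul (h1.trans h5) h4 (by positivity) (by positivity)
      _ = (9 * 2 ^ A) * X := by ring
      _ ≤ _ := mul_le_mul_of_nonneg_right (by linarith) hX0.le
  · have hX1 : 1 ≤ X := by linarith
    have hs1 : 1 ≤ Real.sqrt X := Real.one_le_sqrt.2 hX1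
    have hsub : {t : ℕ | t ∈ S ∧ (t : ℝ) ≤ X} ⊆ {t : ℕ | t ∈ S ∧ Real.sqrt X < t ∧ (t : ℝ) ≤ X} ∪
        ((Finset.range (⌊Real.sqrt X⌋₊ + 1) : Finset ℕ) : Set ℕ) := by
      rintro n ⟨h1, h2⟩
      by_cases h3 : Real.sqrt X < n
      · exact Or.inl ⟨h1, h3, h2⟩
      · refine Or.inr ?_
        rw [Finset.mem_coe, Finset.mem_range, Nat.lt_succ_iff]
        exact Nat.le_floor (not_lt.1 h3)
    have hfin2 : {t : ℕ | t ∈ S ∧ Real.sqrt X < t ∧ (t : ℝ) ≤ X}.Finite := hfin.subset fun t ht => ⟨ht.1, ht.2.2⟩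
    have h1 : ({t : ℕ | t ∈ S ∧ (t : ℝ) ≤ X}.ncard : ℝ) ≤ C * X / Real.log X ^ A + 2 * Real.sqrt X := by
      have h2 := (Set.ncard_le_ncard hsub (hfin2.union (Finset.finite_toSet _))).trans (Set.ncard_union_le _ _)
      rw [Set.ncard_coe_finset, Finset.card_range] at h2
      have h3 : ({t : ℕ | t ∈ S ∧ (t : ℝ) ≤ X}.ncard : ℝ) ≤
          ({t : ℕ | t ∈ S ∧ Real.sqrt X < t ∧ (t : ℝ) ≤ X}.ncard : ℝ) + ((⌊Real.sqrt X⌋₊ : ℝ) + 1) := by
        exact_mod_cast h2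
      have h4 := hC X hge
      have h5 := Nat.floor_le (Real.sqrt_nonneg X)
      linarith
    have h2 : Real.sqrt X * Real.log X ^ A ≤ (1 / η) ^ A * X := by
      have h3 : Real.log X ≤ X ^ η / η := Real.log_le_rpow_div hX0.le hη0
      have h4 : Real.log X ^ A ≤ (X ^ η / η) ^ A := pow_le_pow_left₀ hlog.le h3 A
      have h5 : (X ^ η / η) ^ A = X ^ (η * A) * (1 / η) ^ A := by
        rw [div_eq_mul_one_div, mul_pow, ← Real.rpow_natCast (X ^ η) A, ← Real.rpow_mul hX0.le]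
      have h6 : X ^ (η * A) ≤ Real.sqrt X := by
        rw [Real.sqrt_eq_rpow]
        refine Real.rpow_le_rpow_of_exponent_le hX1 ?_
        rw [hη, div_mul_eq_mul_div, one_mul, div_le_div_iff₀ (by positivity) (by norm_num)]
        linarith
      have h7 : Real.sqrt X * Real.sqrt X = X := Real.mul_self_sqrt hX0.le
      have h8 : (0 : ℝ) ≤ (1 / η) ^ A := by positivity
      calc Real.sqrt X * Real.log X ^ A ≤ Real.sqrt X * (X ^ (η * A) * (1 / η) ^ A) := by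
            rw [← h5]
            exact mul_le_mul_of_nonneg_left h4 (Real.sqrt_nonneg X)
        _ ≤ Real.sqrt X * (Real.sqrt X * (1 / η) ^ A) := by gcongr
        _ = (1 / η) ^ A * X := by
            rw [← mul_assoc, h7]
            ring
    refine h1.trans ?_
    have hA0 : 0 < Real.log X ^ A := by positivity
    rw [div_add' _ _ _ hA0.ne', div_le_div_iff_of_pos_right hA0]
    have h3 : C * X ≤ |C| * X := mul_le_mul_of_nonneg_right (le_abs_self C) hX0.le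
    have h4 : (0 : ℝ) ≤ 9 * 2 ^ A * X := by positivity
    nlinarith

end Pool.Agent.V7H35.LogMetric
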