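import Mathlib

/-!
# Very thin sequences and sets with at most `C X / (log X) ^ A` elements, for all `A`

Let `f j`, `j = 0, 1, 2, …`, be positive functions on `(a, ∞)` with `f j x / x` nondecreasing and `log (f j x) ≥ j ^ c` for
large `j` (with `c > 0` that may depend on `x`). Let `S` be a set of objects with at most `C_A X / (log X) ^ A` members of
height at most `X`, for every `A`. For almost all `x > a`, for every `b`, for all but finitely many `j` there is no member of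
height `H` with `|H - f j x| ≤ (log (f j x)) ^ b`.
-/

set_option autoImplicit false

namespace Pool.Agent.V7H35.LogMetric

open MeasureTheory Filter Topology Set

/-- few members: at most `C X / (log X) ^ A` up to `X`, for every `A` -/
def Few {T : Type*} (S : Set T) (h : T → ℝ) : Prop :=
  ∀ A : ℕ, ∃ C : ℝ, ∀ X : ℝ, 2 ≤ X → {t : T | t ∈ S ∧ h t ≤ X}.Finite ∧
    ({t : T | t ∈ S ∧ h t ≤ X}.ncard : ℝ) ≤ C * X / Real.log X ^ A

/-- the functions `f j` are positive on `(a, ∞)`, `a ≥ 0`, and `f j x / x` is nondecreasing there -/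
def Star (a : ℝ) (f : ℕ → ℝ → ℝ) : Prop :=
  0 ≤ a ∧ ∀ j : ℕ, ∀ x y : ℝ, a < x → x ≤ y → 0 < f j x ∧ f j x / x ≤ f j y / y

/-- `log (f j x) ≥ j ^ c` for large `j` -/
def Grow (a : ℝ) (f : ℕ → ℝ → ℝ) : Prop :=
  ∀ x : ℝ, a < x → ∃ c : ℝ, 0 < c ∧ ∃ j₀ : ℕ, ∀ j : ℕ, j₀ ≤ j → (j : ℝ) ^ c ≤ Real.log (f j x)

/-- the windows -/
def P {T : Type*} (h : T → ℝ) (f : ℕ → ℝ → ℝ) (b : ℕ) (x₁ x₂ : ℝ) (j : ℕ) (t : T) : Set ℝ :=
  {α : ℝ | x₁ ≤ α ∧ α ≤ x₂ ∧ |h t - f j α| ≤ (Real.log (f j α)) ^ b}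

lemma star_mono {a : ℝ} {f : ℕ → ℝ → ℝ} (hf : Star a f) {j : ℕ} {x y : ℝ} (hx : a < x) (hxy : x ≤ y) :
    f j x ≤ f j y := by
  obtain ⟨h1, h2⟩ := hf.2 j x y hx hxy
  have hx0 : 0 < x := lt_of_le_of_lt hf.1 hx
  have hy0 : 0 < y := lt_of_lt_of_le hx0 hxy
  rw [div_le_div_iff₀ hx0 hy0] at h2
  have h3 : 0 < f j y := (hf.2 j y y (hx.trans_le hxy) le_rfl).1
  nlinarith

lemma exists_F (b : ℕ) : ∃ F : ℝ, 1 ≤ F ∧ ∀ y : ℝ, F ≤ y → Real.log y ^ b ≤ y / 2 := by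
  have h := (Real.isLittleO_pow_log_id_atTop (n := b)).def (show (0 : ℝ) < 1 / 2 by norm_num)
  obtain ⟨F, hF⟩ := eventually_atTop.1 h
  refine ⟨max F 1, le_max_right _ _, fun y hy => ?_⟩
  have h1 := hF y ((le_max_left _ _).trans hy)
  have hy1 : 1 ≤ y := (le_max_right _ _).trans hy
  have h2 : 0 ≤ Real.log y ^ b := pow_nonneg (Real.log_nonneg hy1) _
  rw [Real.norm_of_nonneg h2, id, Real.norm_of_nonneg (by linarith)] at h1
  linarith

lemma mem_bounds {T : Type*} {h : T → ℝ} {a : ℝ} {f : ℕ → ℝ → ℝ} (hf : Star a f) {b : ℕ} {F : ℝ}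
    (hF1 : 1 ≤ F) (hF : ∀ y : ℝ, F ≤ y → Real.log y ^ b ≤ y / 2) {x₁ x₂ : ℝ} (hx₁ : a < x₁) {j : ℕ} (hj : F ≤ f j x₁)
    {t : T} {α : ℝ} (hα : α ∈ P h f b x₁ x₂ j t) : f j x₁ / 2 ≤ h t ∧ f j α ≤ 2 * h t ∧ h t ≤ 2 * f j α ∧ F ≤ f j α := by
  obtain ⟨h1, h2, h3⟩ := hα
  have h4 := star_mono hf (j := j) hx₁ h1
  have h5 := hF (f j α) (hj.trans h4)
  have h6 := abs_le.1 h3
  refine ⟨by linarith [h6.1], by linarith [h6.1], by linarith [h6.2], hj.trans h4⟩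

lemma diam_aux {T : Type*} {h : T → ℝ} {a : ℝ} {f : ℕ → ℝ → ℝ} (hf : Star a f) {b : ℕ} {F : ℝ}
    (hF1 : 1 ≤ F) (hF : ∀ y : ℝ, F ≤ y → Real.log y ^ b ≤ y / 2) {x₁ x₂ : ℝ} (hx₁ : a < x₁) {j : ℕ} (hj : F ≤ f j x₁)
    {t : T} {i : ℕ} (hi1 : (2 : ℝ) ^ i ≤ h t) (hi2 : h t < (2 : ℝ) ^ (i + 1)) {α β : ℝ} (hα : α ∈ P h f b x₁ x₂ j t)
    (hβ : β ∈ P h f b x₁ x₂ j t) (hαβ : α ≤ β) : β - α ≤ 4 * x₂ * ((i : ℝ) + 2) ^ b / 2 ^ i := by
  obtain ⟨-, a2, a3, a4⟩ := mem_bounds hf hF1 hF hx₁ hj hα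
  obtain ⟨-, b2, b3, b4⟩ := mem_bounds hf hF1 hF hx₁ hj hβ
  obtain ⟨c1, c2, c3⟩ := hα
  obtain ⟨d1, d2, d3⟩ := hβ
  have hα0 : 0 < α := lt_of_lt_of_le (lt_of_le_of_lt hf.1 hx₁) c1
  have hβ0 : 0 < β := lt_of_lt_of_le hα0 hαβ
  obtain ⟨e1, e2⟩ := hf.2 j α β (hx₁.trans_le c1) hαβ
  rw [div_le_div_iff₀ hα0 hβ0] at e2
  -- logs
  have hlog : ∀ y : ℝ, F ≤ y → y ≤ 2 * h t → Real.log y ^ b ≤ ((i : ℝ) + 2) ^ b := by
    intro y hy1 hy2
    have hy0 : 0 < y := by linarith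
    have h1 : Real.log y ≤ (i : ℝ) + 2 := by
      have h2 : y ≤ (2 : ℝ) ^ (i + 2) := by
        have : (2 : ℝ) ^ (i + 2) = 2 * 2 ^ (i + 1) := by ring
        linarith
      have h3 := Real.log_le_log hy0 h2
      rw [Real.log_pow] at h3
      have h4 := Real.log_two_lt_d9
      have h5 : (0 : ℝ) ≤ i := Nat.cast_nonneg i
      push_cast at h3
      nlinarith
    exact pow_le_pow_left₀ (Real.log_nonneg (hF1.trans hy1)) h1 b
  have w1 := hlog (f j α) a4 a2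
  have w2 := hlog (f j β) b4 b2
  have g1 := abs_le.1 c3
  have g2 := abs_le.1 d3
  have hdiff : f j β - f j α ≤ 2 * ((i : ℝ) + 2) ^ b := by linarith [g1.2, g2.1]
  have hpow : (0 : ℝ) < 2 ^ i := by positivity
  have hx₂ : 0 < x₂ := lt_of_lt_of_le hβ0 d2
  -- f α (β - α) ≤ α (f β - f α)
  have k1 : f j α * (β - α) ≤ x₂ * (2 * ((i : ℝ) + 2) ^ b) := by
    have k2 : f j α * (β - α) ≤ α * (f j β - f j α) := by nlinarith
    have k3 : 0 ≤ f j β - f j α := by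
      have := star_mono hf (j := j) (hx₁.trans_le c1) hαβ
      linarith
    calc f j α * (β - α) ≤ α * (f j β - f j α) := k2
      _ ≤ x₂ * (f j β - f j α) := mul_le_mul_of_nonneg_right (hαβ.trans d2) k3
      _ ≤ _ := mul_le_mul_of_nonneg_left hdiff hx₂.le
  have k4 : (2 : ℝ) ^ i / 2 * (β - α) ≤ f j α * (β - α) :=
    mul_le_mul_of_nonneg_right (by linarith) (by linarith)
  rw [le_div_iff₀ hpow]
  nlinarith

lemma vol_window {T : Type*} {h : T → ℝ} {a : ℝ} {f : ℕ → ℝ → ℝ} (hf : Star a f) {b : ℕ} {F : ℝ}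
    (hF1 : 1 ≤ F) (hF : ∀ y : ℝ, F ≤ y → Real.log y ^ b ≤ y / 2) {x₁ x₂ : ℝ} (hx₁ : a < x₁) {j : ℕ} (hj : F ≤ f j x₁)
    {t : T} {i : ℕ} (hi1 : (2 : ℝ) ^ i ≤ h t) (hi2 : h t < (2 : ℝ) ^ (i + 1)) :
    volume (P h f b x₁ x₂ j t) ≤ ENNReal.ofReal (4 * x₂ * ((i : ℝ) + 2) ^ b / 2 ^ i) := by
  refine (Real.volume_le_diam _).trans (Metric.ediam_le fun α hα β hβ => ?_)
  rw [edist_dist, Real.dist_eq]
  refine ENNReal.ofReal_le_ofReal ?_
  rcases le_total α β with hl | hl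
  · rw [abs_sub_comm, abs_of_nonneg (by linarith)]
    exact diam_aux hf hF1 hF hx₁ hj hi1 hi2 hα hβ hl
  · rw [abs_of_nonneg (by linarith)]
    exact diam_aux hf hF1 hF hx₁ hj hi1 hi2 hβ hα hl

/-- the exceptional `α` for one `j` -/
lemma vol_bad {T : Type*} {S : Set T} {h : T → ℝ} (hS : Few S h) {a : ℝ} {f : ℕ → ℝ → ℝ} (hf : Star a f) (b K : ℕ)
    {x₁ x₂ : ℝ} (hx₁ : a < x₁) (hx₂ : 0 ≤ x₂) : ∃ F C : ℝ, 1 ≤ F ∧ 0 ≤ C ∧ ∀ j : ℕ, F ≤ f j x₁ →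
      volume {α : ℝ | ∃ t ∈ S, α ∈ P h f b x₁ x₂ j t} ≤ ENNReal.ofReal (C * (1 / Real.log (f j x₁)) ^ K) := by
  classical
  obtain ⟨F, hF1, hF⟩ := exists_F b
  obtain ⟨C, hC⟩ := hS (b + K + 2)
  set Z : ℝ := ∑' i : ℕ, 1 / ((i : ℝ) + 2) ^ 2 with hZ
  have hsum : Summable (fun i : ℕ => 1 / ((i : ℝ) + 2) ^ 2) := by
    have h1 : Summable (fun i : ℕ => 1 / ((i : ℝ)) ^ 2) := Real.summable_one_div_nat_pow.2 (by norm_num)
    have h2 := (summable_nat_add_iff 2).2 h1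
    refine h2.congr fun i => ?_
    push_cast
    rfl
  have hZ0 : 0 ≤ Z := tsum_nonneg fun i => by positivity
  set C₂ : ℝ := |C| * 2 * (2 / Real.log 2) ^ (b + K + 2) * (4 * x₂) with hC₂
  have hl2 : 0 < Real.log 2 := Real.log_pos (by norm_num)
  have hC₂0 : 0 ≤ C₂ := by positivity
  refine ⟨max F (Real.exp 1), C₂ * Z, hF1.trans (le_max_left _ _), by positivity, fun j hj => ?_⟩
  have hjF : F ≤ f j x₁ := (le_max_left _ _).trans hj
  have hje : Real.exp 1 ≤ f j x₁ := (le_max_right _ _).trans hj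
  have hf0 : 0 < f j x₁ := (Real.exp_pos 1).trans_le hje
  have hlog1 : 1 ≤ Real.log (f j x₁) := by rwa [Real.le_log_iff_exp_le hf0]
  -- the blocks
  set B : ℕ → Set T := fun i => {t : T | t ∈ S ∧ (2 : ℝ) ^ i ≤ h t ∧ h t < (2 : ℝ) ^ (i + 1)} with hB
  have hBsub : ∀ i, B i ⊆ {t : T | t ∈ S ∧ h t ≤ (2 : ℝ) ^ (i + 1)} := fun i t ht => ⟨ht.1, ht.2.2.le⟩
  have h2i : ∀ i : ℕ, (2 : ℝ) ≤ (2 : ℝ) ^ (i + 1) := fun i => by
    calc (2 : ℝ) = 2 ^ 1 := (pow_one _).symm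
      _ ≤ 2 ^ (i + 1) := pow_le_pow_right₀ (by norm_num) (by omega)
  have hBfin : ∀ i, (B i).Finite := fun i => (hC _ (h2i i)).1.subset (hBsub i)
  have hBcard : ∀ i, ((hBfin i).toFinset.card : ℝ) ≤ |C| * 2 * (2 / Real.log 2) ^ (b + K + 2) *
      2 ^ i / ((i : ℝ) + 2) ^ (b + K + 2) := by
    intro i
    have h1 : ((B i).ncard : ℝ) ≤ C * 2 ^ (i + 1) / Real.log (2 ^ (i + 1)) ^ (b + K + 2) := by
      refine le_trans ?_ (hC _ (h2i i)).2
      exact_mod_cast Set.ncard_le_ncard (hBsub i) (hC _ (h2i i)).1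
    rw [← Set.ncard_eq_toFinset_card _ (hBfin i)]
    refine h1.trans ?_
    rw [Real.log_pow]
    push_cast
    have h3 : (0 : ℝ) < ((i : ℝ) + 1) * Real.log 2 := by positivity
    have h4 : ((i : ℝ) + 2) * (Real.log 2 / 2) ≤ ((i : ℝ) + 1) * Real.log 2 := by nlinarith [Nat.cast_nonneg (α := ℝ) i]
    calc C * 2 ^ (i + 1) / (((i : ℝ) + 1) * Real.log 2) ^ (b + K + 2)
        ≤ |C| * 2 ^ (i + 1) / (((i : ℝ) + 1) * Real.log 2) ^ (b + K + 2) := by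
          gcongr
          exact le_abs_self C
      _ ≤ |C| * 2 ^ (i + 1) / (((i : ℝ) + 2) * (Real.log 2 / 2)) ^ (b + K + 2) := by
          gcongr
      _ = _ := by
          rw [mul_pow, div_pow, div_pow, pow_succ]
          field_simp
  have hcov : {α : ℝ | ∃ t ∈ S, α ∈ P h f b x₁ x₂ j t} ⊆
      ⋃ i : ℕ, {α : ℝ | Real.log (f j x₁) ≤ (i : ℝ) + 2 ∧ ∃ t ∈ (hBfin i).toFinset, α ∈ P h f b x₁ x₂ j t} := by
    rintro α ⟨t, ht, hα⟩
    obtain ⟨h1, h2, h3, h4⟩ := mem_bounds hf hF1 hF hx₁ hjF hα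
    have he := Real.add_one_le_exp (1 : ℝ)
    have ht1 : 1 ≤ h t := by linarith
    set i : ℕ := Nat.log 2 ⌊h t⌋₊ with hi
    have hfl : ⌊h t⌋₊ ≠ 0 := by
      have : 1 ≤ ⌊h t⌋₊ := Nat.le_floor (by simpa using ht1)
      omega
    have i1 : (2 : ℝ) ^ i ≤ h t := by
      have h5 : 2 ^ i ≤ ⌊h t⌋₊ := Nat.pow_log_le_self 2 hfl
      have h6 : ((2 : ℝ) ^ i) ≤ (⌊h t⌋₊ : ℝ) := by exact_mod_cast h5
      exact h6.trans (Nat.floor_le (by linarith))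
    have i2 : h t < (2 : ℝ) ^ (i + 1) := by
      have h5 : ⌊h t⌋₊ < 2 ^ (i + 1) := Nat.lt_pow_succ_log_self (by norm_num) _
      have h6 : ⌊h t⌋₊ + 1 ≤ 2 ^ (i + 1) := h5
      have h7 : ((⌊h t⌋₊ : ℝ) + 1) ≤ (2 : ℝ) ^ (i + 1) := by exact_mod_cast h6
      exact (Nat.lt_floor_add_one _).trans_le h7
    refine mem_iUnion.2 ⟨i, ?_, t, (hBfin i).mem_toFinset.2 ⟨ht, i1, i2⟩, hα⟩
    have h5 : f j x₁ ≤ (2 : ℝ) ^ (i + 2) := by
      have : (2 : ℝ) ^ (i + 2) = 2 * 2 ^ (i + 1) := by ring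
      linarith
    have h6 := Real.log_le_log hf0 h5
    rw [Real.log_pow] at h6
    have h7 := Real.log_two_lt_d9
    push_cast at h6
    nlinarith [Nat.cast_nonneg (α := ℝ) i]
  have hterm : ∀ i : ℕ, volume {α : ℝ | Real.log (f j x₁) ≤ (i : ℝ) + 2 ∧
      ∃ t ∈ (hBfin i).toFinset, α ∈ P h f b x₁ x₂ j t} ≤
      ENNReal.ofReal (C₂ * (1 / Real.log (f j x₁)) ^ K * (1 / ((i : ℝ) + 2) ^ 2)) := by
    intro i
    by_cases hcase : Real.log (f j x₁) ≤ (i : ℝ) + 2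
    · have hsub : {α : ℝ | Real.log (f j x₁) ≤ (i : ℝ) + 2 ∧ ∃ t ∈ (hBfin i).toFinset, α ∈ P h f b x₁ x₂ j t} ⊆
          ⋃ t ∈ (hBfin i).toFinset, P h f b x₁ x₂ j t := by
        rintro α ⟨-, t, ht, hα⟩
        exact mem_iUnion₂.2 ⟨t, ht, hα⟩
      have hv : 0 ≤ 4 * x₂ * ((i : ℝ) + 2) ^ b / 2 ^ i := by positivity
      calc _ ≤ volume (⋃ t ∈ (hBfin i).toFinset, P h f b x₁ x₂ j t) := measure_mono hsub
        _ ≤ ∑ t ∈ (hBfin i).toFinset, volume (P h f b x₁ x₂ j t) := measure_biUnion_finset_le _ _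
        _ ≤ ∑ _t ∈ (hBfin i).toFinset, ENNReal.ofReal (4 * x₂ * ((i : ℝ) + 2) ^ b / 2 ^ i) := by
            refine Finset.sum_le_sum fun t ht => ?_
            obtain ⟨-, i1, i2⟩ := (hBfin i).mem_toFinset.1 ht
            exact vol_window hf hF1 hF hx₁ hjF i1 i2
        _ = ENNReal.ofReal (((hBfin i).toFinset.card : ℝ) * (4 * x₂ * ((i : ℝ) + 2) ^ b / 2 ^ i)) := by
            rw [Finset.sum_const, nsmul_eq_mul, ENNReal.ofReal_mul (Nat.cast_nonneg _), ENNReal.ofReal_natCast]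
        _ ≤ _ := by
            refine ENNReal.ofReal_le_ofReal ?_
            have h1 := mul_le_mul_of_nonneg_right (hBcard i) hv
            refine h1.trans ?_
            have hi2 : (0 : ℝ) < (i : ℝ) + 2 := by positivity
            have h2 : |C| * 2 * (2 / Real.log 2) ^ (b + K + 2) * 2 ^ i / ((i : ℝ) + 2) ^ (b + K + 2) *
                (4 * x₂ * ((i : ℝ) + 2) ^ b / 2 ^ i) = C₂ * (1 / ((i : ℝ) + 2)) ^ K * (1 / ((i : ℝ) + 2) ^ 2) := by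
              rw [hC₂]
              have h3 : ((i : ℝ) + 2) ^ (b + K + 2) = ((i : ℝ) + 2) ^ b * ((i : ℝ) + 2) ^ K * ((i : ℝ) + 2) ^ 2 := by
                rw [pow_add, pow_add]
              rw [h3, div_pow 1, one_pow]
              field_simp
            rw [h2]
            gcongr
    · have hempty : {α : ℝ | Real.log (f j x₁) ≤ (i : ℝ) + 2 ∧ ∃ t ∈ (hBfin i).toFinset, α ∈ P h f b x₁ x₂ j t} = ∅ := by
        ext α
        simp only [mem_setOf_eq, mem_empty_iff_false, iff_false, not_and]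
        intro h1
        exact absurd h1 hcase
      rw [hempty, measure_empty]
      exact zero_le
  have hpos : 0 ≤ C₂ * (1 / Real.log (f j x₁)) ^ K := by positivity
  calc volume {α : ℝ | ∃ t ∈ S, α ∈ P h f b x₁ x₂ j t} ≤ _ := measure_mono hcov
    _ ≤ ∑' i : ℕ, volume {α : ℝ | Real.log (f j x₁) ≤ (i : ℝ) + 2 ∧
          ∃ t ∈ (hBfin i).toFinset, α ∈ P h f b x₁ x₂ j t} := measure_iUnion_le _
    _ ≤ ∑' i : ℕ, ENNReal.ofReal (C₂ * (1 / Real.log (f j x₁)) ^ K * (1 / ((i : ℝ) + 2) ^ 2)) :=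
        ENNReal.tsum_le_tsum hterm
    _ = ENNReal.ofReal (∑' i : ℕ, C₂ * (1 / Real.log (f j x₁)) ^ K * (1 / ((i : ℝ) + 2) ^ 2)) :=
        (ENNReal.ofReal_tsum_of_nonneg (fun i => by positivity) (hsum.mul_left _)).symm
    _ = _ := by
        rw [tsum_mul_left]
        congr 1
        ring

/-- **Thin sets and very thin sequences.** -/
theorem windows {T : Type*} {S : Set T} {h : T → ℝ} (hS : Few S h) {a : ℝ} {f : ℕ → ℝ → ℝ} (hf : Star a f)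
    (hg : Grow a f) : ∀ᵐ α : ℝ, a < α → ∀ b : ℕ, ∃ j₀ : ℕ, ∀ j : ℕ, j₀ ≤ j → ∀ t ∈ S,
      (Real.log (f j α)) ^ b < |h t - f j α| := by
  classical
  have key : ∀ (x₁ x₂ : ℚ) (b : ℕ), a < x₁ → ∀ᵐ α : ℝ, (x₁ : ℝ) ≤ α → α ≤ x₂ → ∃ j₀ : ℕ, ∀ j : ℕ, j₀ ≤ j →
      ∀ t ∈ S, (Real.log (f j α)) ^ b < |h t - f j α| := by
    intro x₁ x₂ b hx₁
    rcases lt_or_ge (x₂ : ℝ) 0 with hneg | hx₂
    · refine Eventually.of_forall fun α h1 h2 => ?_
      have := lt_of_le_of_lt hf.1 hx₁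
      linarith
    obtain ⟨c, hc, j₁, hj₁⟩ := hg x₁ hx₁
    obtain ⟨K, hK⟩ := exists_nat_ge (2 / c)
    obtain ⟨F, C, hF1, hC0, hvol⟩ := vol_bad hS hf b K hx₁ hx₂
    have htend : Tendsto (fun j : ℕ => (j : ℝ) ^ c) atTop atTop :=
      (tendsto_rpow_atTop hc).comp tendsto_natCast_atTop_atTop
    obtain ⟨j₂, hj₂⟩ := eventually_atTop.1 (htend.eventually_ge_atTop (Real.log F))
    set J : ℕ := max (max j₁ j₂) 1 with hJ
    have hJ1 : j₁ ≤ J := (le_max_left _ _).trans (le_max_left _ _)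
    have hJ2 : j₂ ≤ J := (le_max_right _ _).trans (le_max_left _ _)
    have hJ3 : 1 ≤ J := le_max_right _ _
    set s : ℕ → Set ℝ := fun n => {α : ℝ | ∃ t ∈ S, α ∈ P h f b x₁ x₂ (n + J) t} with hs
    have hbd : ∀ n, volume (s n) ≤ ENNReal.ofReal (C * (1 / (n : ℝ) ^ 2) + C * (if n = 0 then 1 else 0)) := by
      intro n
      have h1 : Real.log F ≤ ((n + J : ℕ) : ℝ) ^ c := hj₂ _ (by omega)
      have h2 : ((n + J : ℕ) : ℝ) ^ c ≤ Real.log (f (n + J) x₁) := hj₁ _ (by omega)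
      have hf0 : 0 < f (n + J) x₁ := (hf.2 _ _ _ hx₁ le_rfl).1
      have h3 : F ≤ f (n + J) x₁ := (Real.log_le_log_iff (by linarith) hf0).1 (h1.trans h2)
      refine (hvol _ h3).trans (ENNReal.ofReal_le_ofReal ?_)
      have hn1 : (1 : ℝ) ≤ ((n + J : ℕ) : ℝ) := by exact_mod_cast (by omega : 1 ≤ n + J)
      have h4 : (1 / Real.log (f (n + J) x₁)) ^ K ≤ 1 / ((n + J : ℕ) : ℝ) ^ 2 := by
        have h5 : 0 < ((n + J : ℕ) : ℝ) ^ c := by positivity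
        have h6 : ((n + J : ℕ) : ℝ) ^ 2 ≤ (((n + J : ℕ) : ℝ) ^ c) ^ K := by
          rw [← Real.rpow_natCast (((n + J : ℕ) : ℝ) ^ c) K, ← Real.rpow_mul (by linarith),
            ← Real.rpow_natCast _ 2]
          refine Real.rpow_le_rpow_of_exponent_le hn1 ?_
          rw [div_le_iff₀ hc] at hK
          push_cast
          linarith
        rw [one_div_pow]
        refine one_div_le_one_div_of_le (by positivity) (h6.trans (pow_le_pow_left₀ h5.le h2 K))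
      have h5 : C * (1 / Real.log (f (n + J) x₁)) ^ K ≤ C * (1 / ((n + J : ℕ) : ℝ) ^ 2) :=
        mul_le_mul_of_nonneg_left h4 hC0
      refine h5.trans ?_
      rcases Nat.eq_zero_or_pos n with rfl | hn
      · simp only [if_true]
        have h6 : 1 / ((0 + J : ℕ) : ℝ) ^ 2 ≤ 1 := by
          rw [div_le_one (by positivity)]
          exact one_le_pow₀ hn1
        have h7 : 0 ≤ C * (1 / ((0 : ℕ) : ℝ) ^ 2) := by positivity
        nlinarith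
      · have hnr : (0 : ℝ) < n := by exact_mod_cast hn
        have h6 : 1 / ((n + J : ℕ) : ℝ) ^ 2 ≤ 1 / (n : ℝ) ^ 2 := by
          refine one_div_le_one_div_of_le (by positivity) (pow_le_pow_left₀ hnr.le ?_ 2)
          push_cast
          linarith [Nat.cast_nonneg (α := ℝ) J]
        have h7 : C * (1 / ((n + J : ℕ) : ℝ) ^ 2) ≤ C * (1 / (n : ℝ) ^ 2) := mul_le_mul_of_nonneg_left h6 hC0
        have h8 : (0 : ℝ) ≤ C * (if n = 0 then 1 else 0) := by positivity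
        linarith
    have hsummable : Summable (fun n : ℕ => C * (1 / (n : ℝ) ^ 2) + C * (if n = 0 then (1 : ℝ) else 0)) := by
      have h1 : Summable (fun i : ℕ => 1 / ((i : ℝ)) ^ 2) := Real.summable_one_div_nat_pow.2 (by norm_num)
      have h2 : Summable (fun n : ℕ => if n = 0 then (1 : ℝ) else 0) := summable_of_ne_finset_zero (s := {0})
        (by intro n hn; rw [Finset.mem_singleton] at hn; simp [hn])
      exact (h1.mul_left _).add (h2.mul_left _)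
    have hfin : ∑' n, volume (s n) ≠ ⊤ := by
      refine ne_top_of_le_ne_top ?_ (ENNReal.tsum_le_tsum hbd)
      exact hsummable.tsum_ofReal_ne_top
    filter_upwards [ae_eventually_notMem hfin] with α hα h1 h2
    obtain ⟨N, hN⟩ := eventually_atTop.1 hα
    refine ⟨N + J, fun j hj t ht => ?_⟩
    by_contra hcon
    refine hN (j - J) (by omega) ⟨t, ht, h1, h2, ?_⟩
    rw [Nat.sub_add_cancel (by omega)]
    exact not_lt.1 hcon
  have hall : ∀ᵐ α : ℝ, ∀ (x₁ x₂ : ℚ) (b : ℕ), a < x₁ → (x₁ : ℝ) ≤ α → α ≤ x₂ → ∃ j₀ : ℕ, ∀ j : ℕ, j₀ ≤ j →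
      ∀ t ∈ S, (Real.log (f j α)) ^ b < |h t - f j α| := by
    rw [ae_all_iff]
    intro x₁
    rw [ae_all_iff]
    intro x₂
    rw [ae_all_iff]
    intro b
    by_cases hx₁ : a < x₁
    · filter_upwards [key x₁ x₂ b hx₁] with α hα _
      exact hα
    · exact Eventually.of_forall fun α h1 => absurd h1 hx₁
  filter_upwards [hall] with α hα haα b
  obtain ⟨x₁, h1, h2⟩ := exists_rat_btwn haα
  obtain ⟨x₂, h3, -⟩ := exists_rat_btwn (lt_add_one α)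
  exact hα x₁ x₂ b h1 h2.le h3.le

end Pool.Agent.V7H35.LogMetric
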