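import Mathlib
import Pool.Agent.TH719.ED.Main

/-!
# The word problem of the infinite cyclic group is not EDT0L

For every finite generating set of the integers, the word problem, taken over the alphabet formed
by the generators and their formal inverses, is not an EDT0L language.
-/

namespace Pool.Agent.V7H35.NoEDT0LWordZ

/-- An EDT0L system over the terminal alphabet `α`: a finite alphabet `V` that contains (a copy
of) the letters of `α`, an axiom, and finitely many deterministic tables, each giving the images
of the letters under an endomorphism of the free monoid. -/
structure EDT0LSystem (α : Type) where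
  /-- the whole alphabet -/
  V : Type
  /-- the alphabet is finite -/
  finV : Fintype V
  /-- the inclusion of the terminal letters in the whole alphabet -/
  incl : α → V
  /-- the inclusion is one-to-one -/
  incl_inj : Function.Injective incl
  /-- the axiom -/
  axiomWord : List V
  /-- the index set of the tables -/
  J : Type
  /-- there are finitely many tables -/
  finJ : Fintype J
  /-- the tables, as functions on letters -/
  table : J → V → List V

/-- The endomorphism of the free monoid given by its values on the letters. -/
def endo {V : Type} (h : V → List V) (u : List V) : List V := u.flatMap h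

/-- Apply to the word `u` the tables `h_j` with `j` in the list, one after the other; as the list
varies this runs through all elements of the monoid of endomorphisms generated by the tables,
the identity included. -/
def applyTables {V J : Type} (h : J → V → List V) : List J → List V → List V
  | [], u => u
  | j :: js, u => applyTables h js (endo (h j) u)

/-- The language of an EDT0L system: the terminal words that are reached from the axiom. -/
def EDT0LSystem.language {α : Type} (H : EDT0LSystem α) : Set (List α) :=
  {w | ∃ js : List H.J, applyTables H.table js H.axiomWord = w.map H.incl}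

/-- A language over `α` is EDT0L if it is the language of an EDT0L system. -/
def IsEDT0L {α : Type} (L : Set (List α)) : Prop :=
  ∃ H : EDT0LSystem α, H.language = L

/-- The integer represented by a letter: `inl x` is the generator `x`, and `inr x` is the formal
inverse of the generator `x`. -/
def letterVal (X : Finset ℤ) : {x // x ∈ X} ⊕ {x // x ∈ X} → ℤ
  | Sum.inl x => x.1
  | Sum.inr x => - x.1

/-- The word problem of the infinite cyclic group with respect to `X`: the words in the generators
and their formal inverses that represent the identity. -/
def WP (X : Finset ℤ) : Set (List ({x // x ∈ X} ⊕ {x // x ∈ X})) :=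
  {w | (w.map (letterVal X)).sum = 0}

theorem applyTables_eq {V J : Type} (h : J → V → List V) (js : List J) :
    ∀ u : List V, applyTables h js u = js.foldl (fun u j => u.flatMap (h j)) u := by
  induction js with
  | nil => intro u; rfl
  | cons j js ih => intro u; simp only [applyTables, List.foldl_cons, endo, ih]

/-- The word problem of the integers with respect to a finite generating set is never EDT0L. -/
theorem not_edt0l (X : Finset ℤ) (hX : AddSubgroup.closure (X : Set ℤ) = ⊤) :
    ¬ IsEDT0L (WP X) := by
  classical
  rintro ⟨⟨V, fV, e, he, ax, J, fJ, h⟩, hL⟩
  -- pass to the multiplicative form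
  set Y : Finset (Multiplicative ℤ) := X.image Multiplicative.ofAdd with hY
  have hYmem : ∀ g : Multiplicative ℤ, g ∈ Y ↔ g.toAdd ∈ X := by
    intro g
    rw [hY, Finset.mem_image]
    constructor
    · rintro ⟨a, ha, rfl⟩; simpa using ha
    · intro hg; exact ⟨g.toAdd, hg, by simp⟩
  have hgen : Subgroup.closure (Y : Set (Multiplicative ℤ)) = ⊤ := by
    have h1 : (Y : Set (Multiplicative ℤ)) = Multiplicative.toAdd ⁻¹' (X : Set ℤ) := by
      ext g; simp only [Finset.mem_coe, Set.mem_preimage]; exact hYmem g
    rw [h1, ← AddSubgroup.toSubgroup_closure, hX]
    rfl
  -- choose one letter for every element of `Y ∪ Y⁻¹`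
  have hne : X.Nonempty := by
    rcases X.eq_empty_or_nonempty with h0 | h0
    · exfalso
      rw [h0] at hX
      simp only [Finset.coe_empty, AddSubgroup.closure_empty] at hX
      have : (1 : ℤ) ∈ (⊥ : AddSubgroup ℤ) := by rw [hX]; trivial
      simp at this
    · exact h0
  obtain ⟨x0, hx0⟩ := hne
  set lt : Multiplicative ℤ → ({x // x ∈ X} ⊕ {x // x ∈ X}) := fun g =>
    if hg : g.toAdd ∈ X then Sum.inl ⟨g.toAdd, hg⟩
    else if hg' : - g.toAdd ∈ X then Sum.inr ⟨- g.toAdd, hg'⟩
    else Sum.inl ⟨x0, hx0⟩ with hlt
  have hval : ∀ g : Multiplicative ℤ, (g ∈ Y ∨ g⁻¹ ∈ Y) → letterVal X (lt g) = g.toAdd := by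
    intro g hg
    simp only [hYmem, toAdd_inv] at hg
    rw [hlt]
    by_cases h1 : g.toAdd ∈ X
    · simp [h1, letterVal]
    · have h2 : - g.toAdd ∈ X := by tauto
      simp [h1, h2, letterVal]
  have hfin : Finite (Multiplicative ℤ) := by
    refine Pool.Agent.TH719.ED.finite_of_edt0l (Multiplicative ℤ) Y hgen
      ⟨V, fV, J, fJ, fun g => e (lt g), ax, h, ?_, ?_⟩
    · intro g hg g' hg' hgg
      have h1 : lt g = lt g' := he hgg
      have h2 : g.toAdd = g'.toAdd := by
        rw [← hval g hg, ← hval g' hg', h1]
      exact Multiplicative.toAdd.injective h2
    · intro w hw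
      have h1 : (w.prod = 1) ↔ (w.map lt) ∈ WP X := by
        have h2 : ((w.map lt).map (letterVal X)).sum = w.prod.toAdd := by
          rw [List.map_map]
          have h3 : w.map (letterVal X ∘ lt) = w.map Multiplicative.toAdd := by
            apply List.map_congr_left
            intro g hg
            exact hval g (hw g hg)
          rw [h3, toAdd_list_sum]
        constructor
        · intro h3
          show ((w.map lt).map (letterVal X)).sum = 0
          rw [h2, h3]; rfl
        · intro h3
          have h4 : ((w.map lt).map (letterVal X)).sum = 0 := h3
          rw [h2] at h4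
          exact Multiplicative.toAdd.injective h4
      rw [h1, ← hL]
      show (∃ js : List J, applyTables h js ax = (w.map lt).map e) ↔ _
      simp only [applyTables_eq, List.map_map]
      rfl
  exact not_finite (Multiplicative ℤ)

/-- **Answer to Q1 and Q2: no and no.** There is no finite generating set `X` of the integers for
which the word problem is EDT0L; in particular it is not true that the word problem is EDT0L for
every finite generating set. -/
theorem result :
    (¬ ∃ X : Finset ℤ, AddSubgroup.closure (X : Set ℤ) = ⊤ ∧ IsEDT0L (WP X)) ∧
    (¬ ∀ X : Finset ℤ, AddSubgroup.closure (X : Set ℤ) = ⊤ → IsEDT0L (WP X)) := by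
  refine ⟨?_, ?_⟩
  · rintro ⟨X, hX, h⟩
    exact not_edt0l X hX h
  · intro h
    have h1 : AddSubgroup.closure ((({1} : Finset ℤ)) : Set ℤ) = ⊤ := by
      rw [Finset.coe_singleton]
      exact Int.addSubgroupClosure_one
    exact not_edt0l {1} h1 (h {1} h1)

end Pool.Agent.V7H35.NoEDT0LWordZ
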