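import Pool.Agent.V7H35.OddCrossNum

/-!
# The bilinear gap inequality for unions of two down-sets
-/

namespace Pool.Agent.V7H35.OddCross

open Finset
open scoped FinsetFamily

variable {α : Type*} [DecidableEq α]

theorem isLowerSet_sups {P Q : Finset (Finset α)} (hP : IsLowerSet (P : Set (Finset α)))
    (hQ : IsLowerSet (Q : Set (Finset α))) : IsLowerSet ((P ⊻ Q : Finset (Finset α)) : Set (Finset α)) := by
  intro X Y hYX hX
  rw [mem_coe, mem_sups] at hX ⊢
  obtain ⟨a, ha, b, hb, rfl⟩ := hX
  refine ⟨Y ∩ a, hP (inter_subset_right) ha, Y ∩ b, hQ (inter_subset_right) hb, ?_⟩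
  show Y ∩ a ∪ Y ∩ b = Y
  rw [← inter_union_distrib_left]
  exact inter_eq_left.2 hYX

theorem sups_subset_ground {P Q : Finset (Finset α)} {S : Finset α} (hP : ∀ X ∈ P, X ⊆ S)
    (hQ : ∀ X ∈ Q, X ⊆ S) : ∀ X ∈ P ⊻ Q, X ⊆ S := by
  intro X hX
  rw [mem_sups] at hX
  obtain ⟨a, ha, b, hb, rfl⟩ := hX
  exact union_subset (hP a ha) (hQ b hb)

omit [DecidableEq α] in
theorem card_le_of_ground {P : Finset (Finset α)} {S : Finset α} (hP : ∀ X ∈ P, X ⊆ S) :
    (#P : ℝ) ≤ 2 ^ #S := by
  have : #P ≤ 2 ^ #S := by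
    rw [← card_powerset]
    exact card_le_card fun X hX => mem_powerset.2 (hP X hX)
  exact_mod_cast this

theorem nonMember_sups {P Q : Finset (Finset α)} (i : α) :
    (P ⊻ Q).nonMemberSubfamily i ⊆ P.nonMemberSubfamily i ⊻ Q.nonMemberSubfamily i := by
  intro X hX
  rw [mem_nonMemberSubfamily, mem_sups] at hX
  obtain ⟨⟨a, ha, b, hb, rfl⟩, hi⟩ := hX
  rw [sup_eq_union, mem_union, not_or] at hi
  rw [mem_sups]
  exact ⟨a, mem_nonMemberSubfamily.2 ⟨ha, hi.1⟩, b, mem_nonMemberSubfamily.2 ⟨hb, hi.2⟩, rfl⟩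

theorem member_sups {P Q : Finset (Finset α)} (hP : IsLowerSet (P : Set (Finset α)))
    (hQ : IsLowerSet (Q : Set (Finset α))) (i : α) :
    (P ⊻ Q).memberSubfamily i ⊆ (P.memberSubfamily i ⊻ Q.nonMemberSubfamily i) ∪
      (P.nonMemberSubfamily i ⊻ Q.memberSubfamily i) := by
  intro X hX
  rw [mem_memberSubfamily, mem_sups] at hX
  obtain ⟨⟨a, ha, b, hb, hab⟩, hi⟩ := hX
  rw [sup_eq_union] at hab
  have hX' : X = a.erase i ∪ b.erase i := by
    rw [← erase_union_distrib, hab, erase_insert hi]
  have hiab : i ∈ a ∪ b := by rw [hab]; exact mem_insert_self _ _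
  rw [mem_union] at hiab
  rw [mem_union]
  have hea : a.erase i ∈ P := hP (erase_subset _ _) ha
  have heb : b.erase i ∈ Q := hQ (erase_subset _ _) hb
  rcases hiab with h | h
  · left
    rw [mem_sups]
    refine ⟨a.erase i, mem_memberSubfamily.2 ⟨?_, notMem_erase _ _⟩, b.erase i,
      mem_nonMemberSubfamily.2 ⟨heb, notMem_erase _ _⟩, hX'.symm⟩
    rwa [insert_erase h]
  · right
    rw [mem_sups]
    refine ⟨a.erase i, mem_nonMemberSubfamily.2 ⟨hea, notMem_erase _ _⟩, b.erase i,
      mem_memberSubfamily.2 ⟨?_, notMem_erase _ _⟩, hX'.symm⟩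
    rwa [insert_erase h]

theorem mixed {P Q : Finset (Finset α)} {m s t : ℕ} (hst : s + t = m + 1)
    (h : ((2 : ℝ) * #P - 2 ^ s) * (2 * #Q - 2 ^ t) ≤ 0) :
    ((2 : ℝ) ^ s - #P) * ((2 : ℝ) ^ t - #Q) + #(P ⊻ Q) ≤ 2 ^ m := by
  have h1 : (#(P ⊻ Q) : ℝ) ≤ #P * #Q := by exact_mod_cast card_sups_le P Q
  have h2 : (2 : ℝ) ^ s * 2 ^ t = 2 * 2 ^ m := by
    rw [← pow_add, hst, pow_succ]; ring
  nlinarith

theorem h₀ {i : α} {S : Finset α} {P : Finset (Finset α)} (hP : ∀ X ∈ P, X ⊆ insert i S) :
    ∀ X ∈ P.nonMemberSubfamily i, X ⊆ S := by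
  intro X hX
  rw [mem_nonMemberSubfamily] at hX
  exact (subset_insert_iff_of_notMem hX.2).1 (hP _ hX.1)

theorem h₁ {i : α} {S : Finset α} {P : Finset (Finset α)} (hP : ∀ X ∈ P, X ⊆ insert i S) :
    ∀ X ∈ P.memberSubfamily i, X ⊆ S := by
  intro X hX
  rw [mem_memberSubfamily] at hX
  exact (subset_insert_iff_of_notMem hX.2).1 ((subset_insert _ _).trans <| hP _ hX.1)

/-- The bilinear gap inequality: if `P`, `Q` are down-sets in the powerset of an `m`-set,
`s + t = m + 1`, `#P ≤ 2 ^ s`, `#Q ≤ 2 ^ t` and at least one of the two families has at least half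
of the allowed size, then at least `(2 ^ s - #P) * (2 ^ t - #Q)` subsets of the `m`-set are not the
union of a member of `P` and a member of `Q`. -/
theorem gap (S : Finset α) : ∀ (P Q : Finset (Finset α)) (s t : ℕ),
    IsLowerSet (P : Set (Finset α)) → IsLowerSet (Q : Set (Finset α)) →
    (∀ X ∈ P, X ⊆ S) → (∀ X ∈ Q, X ⊆ S) → s + t = #S + 1 →
    (#P : ℝ) ≤ 2 ^ s → (#Q : ℝ) ≤ 2 ^ t → ((2 : ℝ) ^ s ≤ 2 * #P ∨ (2 : ℝ) ^ t ≤ 2 * #Q) →
    ((2 : ℝ) ^ s - #P) * ((2 : ℝ) ^ t - #Q) + #(P ⊻ Q) ≤ 2 ^ #S := by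
  induction S using Finset.induction with
  | empty =>
    intro P Q s t hP hQ hPS hQS hst hPs hQt hor
    rw [card_empty] at hst ⊢
    have hc := card_le_of_ground (sups_subset_ground hPS hQS)
    rw [card_empty] at hc
    have hP1 := card_le_of_ground hPS
    have hQ1 := card_le_of_ground hQS
    rw [card_empty] at hP1 hQ1
    rcases le_total ((2 : ℝ) * #P) (2 ^ s) with h1 | h1
    · rcases le_total ((2 : ℝ) * #Q) (2 ^ t) with h2 | h2
      · refine mixed hst ?_
        rcases hor with h | h
        · have : (2 : ℝ) * #P - 2 ^ s = 0 := by linarith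
          rw [this, zero_mul]
        · have : (2 : ℝ) * #Q - 2 ^ t = 0 := by linarith
          rw [this, mul_zero]
      · refine mixed hst ?_
        exact mul_nonpos_of_nonpos_of_nonneg (by linarith) (by linarith)
    · rcases le_total ((2 : ℝ) * #Q) (2 ^ t) with h2 | h2
      · refine mixed hst ?_
        exact mul_nonpos_of_nonneg_of_nonpos (by linarith) (by linarith)
      · -- both at least half, one of s, t is zero
        have hs : s = 0 ∨ t = 0 := by omega
        rcases hs with rfl | rfl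
        · have hu : (1 : ℝ) ≤ #P := by
            have : (0 : ℝ) < #P := by
              have : (1 : ℝ) ≤ 2 * #P := by simpa using h1
              linarith
            have : 0 < #P := by exact_mod_cast this
            exact_mod_cast this
          have hu' : (#P : ℝ) = 1 := by
            have : (#P : ℝ) ≤ 1 := by simpa using hPs
            linarith
          rw [hu']; simpa using hc
        · have hu : (1 : ℝ) ≤ #Q := by
            have : (0 : ℝ) < #Q := by
              have : (1 : ℝ) ≤ 2 * #Q := by simpa using h2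
              linarith
            have : 0 < #Q := by exact_mod_cast this
            exact_mod_cast this
          have hu' : (#Q : ℝ) = 1 := by
            have : (#Q : ℝ) ≤ 1 := by simpa using hQt
            linarith
          rw [hu']; simpa using hc
  | insert i S hi ih =>
    intro P Q s t hP hQ hPS hQS hst hPs hQt hor
    rw [card_insert_of_notMem hi] at hst ⊢
    have hc := card_le_of_ground (sups_subset_ground hPS hQS)
    rw [card_insert_of_notMem hi] at hc
    rcases le_total ((2 : ℝ) * #P) (2 ^ s) with h1 | h1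
    · rcases le_total ((2 : ℝ) * #Q) (2 ^ t) with h2 | h2
      · refine mixed hst ?_
        rcases hor with h | h
        · have : (2 : ℝ) * #P - 2 ^ s = 0 := by linarith
          rw [this, zero_mul]
        · have : (2 : ℝ) * #Q - 2 ^ t = 0 := by linarith
          rw [this, mul_zero]
      · refine mixed hst ?_
        exact mul_nonpos_of_nonpos_of_nonneg (by linarith) (by linarith)
    rcases le_total ((2 : ℝ) * #Q) (2 ^ t) with h2 | h2
    · refine mixed hst ?_
      exact mul_nonpos_of_nonneg_of_nonpos (by linarith) (by linarith)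
    -- both at least half
    rcases Nat.eq_zero_or_pos s with hs0 | hs0
    · subst hs0
      have hu : (1 : ℝ) ≤ #P := by
        have : (0 : ℝ) < #P := by
          have : (1 : ℝ) ≤ 2 * #P := by simpa using h1
          linarith
        have : 0 < #P := by exact_mod_cast this
        exact_mod_cast this
      have hu' : (#P : ℝ) = 1 := by
        have : (#P : ℝ) ≤ 1 := by simpa using hPs
        linarith
      rw [hu']; simpa using hc
    rcases Nat.eq_zero_or_pos t with ht0 | ht0
    · subst ht0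
      have hu : (1 : ℝ) ≤ #Q := by
        have : (0 : ℝ) < #Q := by
          have : (1 : ℝ) ≤ 2 * #Q := by simpa using h2
          linarith
        have : 0 < #Q := by exact_mod_cast this
        exact_mod_cast this
      have hu' : (#Q : ℝ) = 1 := by
        have : (#Q : ℝ) ≤ 1 := by simpa using hQt
        linarith
      rw [hu']; simpa using hc
    obtain ⟨s, rfl⟩ : ∃ s', s = s' + 1 := ⟨s - 1, by omega⟩
    obtain ⟨t, rfl⟩ : ∃ t', t = t' + 1 := ⟨t - 1, by omega⟩
    have hst' : s + t = #S := by omega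
    -- the four parts
    have hP0 : IsLowerSet ((P.nonMemberSubfamily i : Finset (Finset α)) : Set (Finset α)) :=
      hP.nonMemberSubfamily
    have hP1 : IsLowerSet ((P.memberSubfamily i : Finset (Finset α)) : Set (Finset α)) :=
      hP.memberSubfamily
    have hQ0 : IsLowerSet ((Q.nonMemberSubfamily i : Finset (Finset α)) : Set (Finset α)) :=
      hQ.nonMemberSubfamily
    have hQ1 : IsLowerSet ((Q.memberSubfamily i : Finset (Finset α)) : Set (Finset α)) :=
      hQ.memberSubfamily
    have hP0S := h₀ hPS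
    have hP1S := h₁ hPS
    have hQ0S := h₀ hQS
    have hQ1S := h₁ hQS
    have hP10 : (#(P.memberSubfamily i) : ℝ) ≤ #(P.nonMemberSubfamily i) := by
      exact_mod_cast card_le_card hP.memberSubfamily_subset_nonMemberSubfamily
    have hQ10 : (#(Q.memberSubfamily i) : ℝ) ≤ #(Q.nonMemberSubfamily i) := by
      exact_mod_cast card_le_card hQ.memberSubfamily_subset_nonMemberSubfamily
    have hPsum : (#(P.memberSubfamily i) : ℝ) + #(P.nonMemberSubfamily i) = #P := by
      exact_mod_cast card_memberSubfamily_add_card_nonMemberSubfamily i P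
    have hQsum : (#(Q.memberSubfamily i) : ℝ) + #(Q.nonMemberSubfamily i) = #Q := by
      exact_mod_cast card_memberSubfamily_add_card_nonMemberSubfamily i Q
    have hsum : (#((P ⊻ Q).memberSubfamily i) : ℝ) + #((P ⊻ Q).nonMemberSubfamily i) = #(P ⊻ Q) := by
      exact_mod_cast card_memberSubfamily_add_card_nonMemberSubfamily i (P ⊻ Q)
    have hsub0 : (#((P ⊻ Q).nonMemberSubfamily i) : ℝ) ≤
        #(P.nonMemberSubfamily i ⊻ Q.nonMemberSubfamily i) := by
      exact_mod_cast card_le_card (nonMember_sups i)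
    have hsub1 : (#((P ⊻ Q).memberSubfamily i) : ℝ) ≤
        #((P.memberSubfamily i ⊻ Q.nonMemberSubfamily i) ∪
          (P.nonMemberSubfamily i ⊻ Q.memberSubfamily i)) := by
      exact_mod_cast card_le_card (member_sups hP hQ i)
    have hui : (#((P.memberSubfamily i ⊻ Q.nonMemberSubfamily i) ∪
          (P.nonMemberSubfamily i ⊻ Q.memberSubfamily i)) : ℝ) +
        #((P.memberSubfamily i ⊻ Q.nonMemberSubfamily i) ∩
          (P.nonMemberSubfamily i ⊻ Q.memberSubfamily i)) =
        #(P.memberSubfamily i ⊻ Q.nonMemberSubfamily i) +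
          #(P.nonMemberSubfamily i ⊻ Q.memberSubfamily i) := by
      exact_mod_cast card_union_add_card_inter _ _
    have hHK : (#(P.memberSubfamily i ⊻ Q.nonMemberSubfamily i) : ℝ) *
          #(P.nonMemberSubfamily i ⊻ Q.memberSubfamily i) ≤
        2 ^ #S * #((P.memberSubfamily i ⊻ Q.nonMemberSubfamily i) ∩
          (P.nonMemberSubfamily i ⊻ Q.memberSubfamily i)) := by
      exact_mod_cast IsLowerSet.le_card_inter_finset' (isLowerSet_sups hP1 hQ0)
        (isLowerSet_sups hP0 hQ1) (sups_subset_ground hP1S hQ0S) (sups_subset_ground hP0S hQ1S)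
    have hcA : (#(P.memberSubfamily i ⊻ Q.nonMemberSubfamily i) : ℝ) ≤
        #(P.memberSubfamily i) * #(Q.nonMemberSubfamily i) := by
      exact_mod_cast card_sups_le _ _
    have hcB : (#(P.nonMemberSubfamily i ⊻ Q.memberSubfamily i) : ℝ) ≤
        #(P.nonMemberSubfamily i) * #(Q.memberSubfamily i) := by
      exact_mod_cast card_sups_le _ _
    have hcG : (#(P.nonMemberSubfamily i ⊻ Q.nonMemberSubfamily i) : ℝ) ≤
        #(P.nonMemberSubfamily i) * #(Q.nonMemberSubfamily i) := by
      exact_mod_cast card_sups_le _ _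
    have hG0 : (#(P.nonMemberSubfamily i ⊻ Q.nonMemberSubfamily i) : ℝ) ≤ 2 ^ #S :=
      card_le_of_ground (sups_subset_ground hP0S hQ0S)
    have ihA := ih (P.memberSubfamily i) (Q.nonMemberSubfamily i) s (t + 1) hP1 hQ0 hP1S hQ0S
      (by omega)
    have ihB := ih (P.nonMemberSubfamily i) (Q.memberSubfamily i) (s + 1) t hP0 hQ1 hP0S hQ1S
      (by omega)
    have ihG := ih (P.nonMemberSubfamily i) (Q.nonMemberSubfamily i) (s + 1) t hP0 hQ0 hP0S hQ0S
      (by omega)
    have ihG' := ih (P.nonMemberSubfamily i) (Q.nonMemberSubfamily i) s (t + 1) hP0 hQ0 hP0S hQ0S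
      (by omega)
    have hM : (2 : ℝ) ^ #S = 2 ^ s * 2 ^ t := by rw [← hst', pow_add]
    rw [hM] at hHK hG0 ihA ihB ihG ihG'
    rw [pow_succ (2 : ℝ) (#S), hM]
    rw [pow_succ (2 : ℝ) s] at hPs h1 ihB ihG ⊢
    rw [pow_succ (2 : ℝ) t] at hQt h2 ihA ihG' ⊢
    have hSpos : (0 : ℝ) < 2 ^ s := by positivity
    have hTpos : (0 : ℝ) < 2 ^ t := by positivity
    have hu1 : (0 : ℝ) ≤ #(P.memberSubfamily i) := by positivity
    have hv1 : (0 : ℝ) ≤ #(Q.memberSubfamily i) := by positivity
    generalize (2 : ℝ) ^ s = a at *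
    generalize (2 : ℝ) ^ t = b at *
    generalize (#(P.memberSubfamily i) : ℝ) = u1 at *
    generalize (#(P.nonMemberSubfamily i) : ℝ) = u0 at *
    generalize (#(Q.memberSubfamily i) : ℝ) = v1 at *
    generalize (#(Q.nonMemberSubfamily i) : ℝ) = v0 at *
    generalize (#P : ℝ) = u at *
    generalize (#Q : ℝ) = v at *
    generalize (#((P ⊻ Q).memberSubfamily i) : ℝ) = w1 at *
    generalize (#((P ⊻ Q).nonMemberSubfamily i) : ℝ) = w0 at *
    generalize (#(P ⊻ Q) : ℝ) = w at *
    generalize (#((P.memberSubfamily i ⊻ Q.nonMemberSubfamily i) ∪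
          (P.nonMemberSubfamily i ⊻ Q.memberSubfamily i)) : ℝ) = un at *
    generalize (#((P.memberSubfamily i ⊻ Q.nonMemberSubfamily i) ∩
          (P.nonMemberSubfamily i ⊻ Q.memberSubfamily i)) : ℝ) = it at *
    generalize (#(P.memberSubfamily i ⊻ Q.nonMemberSubfamily i) : ℝ) = cA at *
    generalize (#(P.nonMemberSubfamily i ⊻ Q.memberSubfamily i) : ℝ) = cB at *
    generalize (#(P.nonMemberSubfamily i ⊻ Q.nonMemberSubfamily i) : ℝ) = cG at *
    clear hP hQ hPS hQS hP0 hP1 hQ0 hQ1 hP0S hP1S hQ0S hQ1S ih hM hst hst' hi hs0 ht0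
    subst hPsum hQsum
    obtain ⟨x0, rfl⟩ : ∃ x0, u0 = a * x0 := ⟨u0 / a, by field_simp⟩
    obtain ⟨x1, rfl⟩ : ∃ x1, u1 = a * x1 := ⟨u1 / a, by field_simp⟩
    obtain ⟨y0, rfl⟩ : ∃ y0, v0 = b * y0 := ⟨v0 / b, by field_simp⟩
    obtain ⟨y1, rfl⟩ : ∃ y1, v1 = b * y1 := ⟨v1 / b, by field_simp⟩
    have hab : 0 < a * b := mul_pos hSpos hTpos
    obtain ⟨A, hA⟩ : ∃ A, cA = a * b * (1 - A) := ⟨1 - cA / (a * b), by field_simp; ring⟩
    obtain ⟨B, hB⟩ : ∃ B, cB = a * b * (1 - B) := ⟨1 - cB / (a * b), by field_simp; ring⟩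
    obtain ⟨G, hG⟩ : ∃ G, cG = a * b * (1 - G) := ⟨1 - cG / (a * b), by field_simp; ring⟩
    subst hA hB hG
    have hx1 : 0 ≤ x1 := by
      by_contra h
      push Not at h
      nlinarith
    have hy1 : 0 ≤ y1 := by
      by_contra h
      push Not at h
      nlinarith
    have hx : x1 ≤ x0 := le_of_mul_le_mul_left hP10 hSpos
    have hy : y1 ≤ y0 := le_of_mul_le_mul_left hQ10 hTpos
    have hxl : 1 ≤ x0 + x1 := by
      refine le_of_mul_le_mul_left ?_ hSpos
      linarith
    have hyl : 1 ≤ y0 + y1 := by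
      refine le_of_mul_le_mul_left ?_ hTpos
      linarith
    have hxu : x0 + x1 ≤ 2 := by
      refine le_of_mul_le_mul_left ?_ hSpos
      linarith
    have hyu : y0 + y1 ≤ 2 := by
      refine le_of_mul_le_mul_left ?_ hTpos
      linarith
    have ax1 : 0 ≤ a * x1 := mul_nonneg hSpos.le hx1
    have by1 : 0 ≤ b * y1 := mul_nonneg hTpos.le hy1
    have core := num_core x0 x1 y0 y1 A B G hx1 hx hxl hxu hy1 hy hyl hyu
      (fun _ => by
        refine le_of_mul_le_mul_left ?_ hab
        linarith)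
      (fun hy01 => by
        refine le_of_mul_le_mul_left ?_ hab
        have h3 := mul_le_mul_of_nonneg_left hy01 hTpos.le
        have := ihA (by linarith) (by linarith) (Or.inr (by linarith))
        linarith)
      (fun _ => by
        refine le_of_mul_le_mul_left ?_ hab
        linarith)
      (fun hx01 => by
        refine le_of_mul_le_mul_left ?_ hab
        have h3 := mul_le_mul_of_nonneg_left hx01 hSpos.le
        have := ihB (by linarith) (by linarith) (Or.inl (by linarith))
        linarith)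
      (by
        refine le_of_mul_le_mul_left ?_ hab
        linarith)
      (fun hx01 hy01 => by
        refine le_of_mul_le_mul_left ?_ hab
        have h3 := mul_le_mul_of_nonneg_left hx01 hSpos.le
        have h4 := mul_le_mul_of_nonneg_left hy01 hTpos.le
        have := ihG (by linarith) (by linarith) (Or.inl (by linarith))
        linarith)
      (fun hx01 hy01 => by
        refine le_of_mul_le_mul_left ?_ hab
        have h3 := mul_le_mul_of_nonneg_left hx01 hSpos.le
        have h4 := mul_le_mul_of_nonneg_left hy01 hTpos.le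
        have := ihG' (by linarith) (by linarith) (Or.inr (by linarith))
        linarith)
      (by
        refine le_of_mul_le_mul_left ?_ hab
        linarith)
    -- Harris-Kleitman part
    have hit : a * b * ((1 - A) * (1 - B)) ≤ it := by
      refine le_of_mul_le_mul_left ?_ hab
      linarith
    have core' := mul_le_mul_of_nonneg_left core hab.le
    linarith

end Pool.Agent.V7H35.OddCross
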