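import Mathlib

/-!
# Numerical lemmas for the bilinear gap inequality
-/

namespace Pool.Agent.V7H35.OddCross

/-- The real-number heart of the induction step. -/
theorem num_core (x0 x1 y0 y1 A B G : ℝ)
    (hx1 : 0 ≤ x1) (hx : x1 ≤ x0) (hxl : 1 ≤ x0 + x1) (hxu : x0 + x1 ≤ 2)
    (hy1 : 0 ≤ y1) (hy : y1 ≤ y0) (hyl : 1 ≤ y0 + y1) (hyu : y0 + y1 ≤ 2)
    (hA : y0 ≤ 1 → 1 - x1 * y0 ≤ A) (hA' : 1 ≤ y0 → (1 - x1) * (2 - y0) ≤ A)
    (hB : x0 ≤ 1 → 1 - x0 * y1 ≤ B) (hB' : 1 ≤ x0 → (2 - x0) * (1 - y1) ≤ B)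
    (hG : 1 - x0 * y0 ≤ G) (hG' : 1 ≤ x0 → y0 ≤ 1 → (2 - x0) * (1 - y0) ≤ G)
    (hG'' : x0 ≤ 1 → 1 ≤ y0 → (1 - x0) * (2 - y0) ≤ G) (hG0 : 0 ≤ G) :
    (2 - x0 - x1) * (2 - y0 - y1) ≤ G + A * B := by
  rcases le_total x0 1 with h1 | h1 <;> rcases le_total y0 1 with h2 | h2
  · -- both at most one
    have hA1 := hA h2
    have hB1 := hB h1
    have hA0 : 0 ≤ 1 - x1 * y0 := by nlinarith
    have hB0 : 0 ≤ 1 - x0 * y1 := by nlinarith
    have hAB : (1 - x1 * y0) * (1 - x0 * y1) ≤ A * B :=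
      mul_le_mul hA1 hB1 hB0 (le_trans hA0 hA1)
    -- x0 = 1 - a, y0 = 1 - c, x1 = b ≥ a, y1 = d ≥ c
    obtain ⟨a, rfl⟩ : ∃ a, x0 = 1 - a := ⟨1 - x0, by ring⟩
    obtain ⟨c, rfl⟩ : ∃ c, y0 = 1 - c := ⟨1 - y0, by ring⟩
    have ha : 0 ≤ a := by linarith
    have hc : 0 ≤ c := by linarith
    have hax : a ≤ x1 := by linarith
    have hcy : c ≤ y1 := by linarith
    have ha1 : a ≤ 1 := by linarith
    have hc1 : c ≤ 1 := by linarith
    have hx11 : x1 ≤ 1 := by linarith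
    have hy11 : y1 ≤ 1 := by linarith
    have key : 0 ≤ 2 * a * y1 + 2 * x1 * c - 2 * a * c - x1 * y1 * (a + c - a * c) := by
      have e1 : 0 ≤ a * (y1 - c) := mul_nonneg ha (by linarith)
      have e2 : 0 ≤ c * (x1 - a) := mul_nonneg hc (by linarith)
      have e3 : 0 ≤ a * y1 * (1 - x1) := mul_nonneg (mul_nonneg ha hy1) (by linarith)
      have e4 : 0 ≤ c * x1 * (1 - y1) := mul_nonneg (mul_nonneg hc hx1) (by linarith)
      have e5 : 0 ≤ a * c * (x1 * y1) := mul_nonneg (mul_nonneg ha hc) (mul_nonneg hx1 hy1)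
      nlinarith
    nlinarith
  · -- x0 ≤ 1 ≤ y0
    have hA1 := hA' h2
    have hB1 := hB h1
    have hG1 := hG'' h1 h2
    have hA0 : 0 ≤ (1 - x1) * (2 - y0) := mul_nonneg (by linarith) (by linarith)
    have hB0 : 0 ≤ 1 - x0 * y1 := by nlinarith
    have hAB : ((1 - x1) * (2 - y0)) * (1 - x0 * y1) ≤ A * B :=
      mul_le_mul hA1 hB1 hB0 (le_trans hA0 hA1)
    obtain ⟨a, rfl⟩ : ∃ a, x0 = 1 - a := ⟨1 - x0, by ring⟩
    obtain ⟨b, rfl⟩ : ∃ b, x1 = 1 - b := ⟨1 - x1, by ring⟩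
    obtain ⟨r, rfl⟩ : ∃ r, y0 = 2 - r := ⟨2 - y0, by ring⟩
    have ha : 0 ≤ a := by linarith
    have hb : 0 ≤ b := by linarith
    have hr : 0 ≤ r := by linarith
    have hr1 : r ≤ 1 := by linarith
    have hab : a ≤ b := by linarith
    have hy11 : y1 ≤ r := by linarith
    have hb1 : b ≤ 1 := by linarith
    have ha1 : a ≤ 1 := by linarith
    have key : 0 ≤ y1 * (a + b - (1 - a) * r * b) := by
      apply mul_nonneg hy1
      have : (1 - a) * r * b ≤ b := by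
        have : (1 - a) * r ≤ 1 := by nlinarith
        nlinarith
      linarith
    nlinarith
  · -- y0 ≤ 1 ≤ x0
    have hA1 := hA h2
    have hB1 := hB' h1
    have hG1 := hG' h1 h2
    have hA0 : 0 ≤ 1 - x1 * y0 := by nlinarith
    have hB0 : 0 ≤ (2 - x0) * (1 - y1) := mul_nonneg (by linarith) (by linarith)
    have hAB : (1 - x1 * y0) * ((2 - x0) * (1 - y1)) ≤ A * B :=
      mul_le_mul hA1 hB1 hB0 (le_trans hA0 hA1)
    obtain ⟨a, rfl⟩ : ∃ a, y0 = 1 - a := ⟨1 - y0, by ring⟩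
    obtain ⟨b, rfl⟩ : ∃ b, y1 = 1 - b := ⟨1 - y1, by ring⟩
    obtain ⟨r, rfl⟩ : ∃ r, x0 = 2 - r := ⟨2 - x0, by ring⟩
    have ha : 0 ≤ a := by linarith
    have hb : 0 ≤ b := by linarith
    have hr : 0 ≤ r := by linarith
    have hr1 : r ≤ 1 := by linarith
    have hab : a ≤ b := by linarith
    have hb1 : b ≤ 1 := by linarith
    have ha1 : a ≤ 1 := by linarith
    have key : 0 ≤ x1 * (a + b - (1 - a) * r * b) := by
      apply mul_nonneg hx1
      have : (1 - a) * r * b ≤ b := by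
        have : (1 - a) * r ≤ 1 := by nlinarith
        nlinarith
      linarith
    nlinarith
  · -- both at least one
    have hA1 := hA' h2
    have hB1 := hB' h1
    have hA0 : 0 ≤ (1 - x1) * (2 - y0) := mul_nonneg (by linarith) (by linarith)
    have hB0 : 0 ≤ (2 - x0) * (1 - y1) := mul_nonneg (by linarith) (by linarith)
    have hAB : ((1 - x1) * (2 - y0)) * ((2 - x0) * (1 - y1)) ≤ A * B :=
      mul_le_mul hA1 hB1 hB0 (le_trans hA0 hA1)
    have e1 : 2 - x0 - x1 ≤ (1 - x1) * (2 - x0) := by nlinarith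
    have e2 : 2 - y0 - y1 ≤ (1 - y1) * (2 - y0) := by nlinarith
    have e3 : (2 - x0 - x1) * (2 - y0 - y1) ≤ ((1 - x1) * (2 - x0)) * ((1 - y1) * (2 - y0)) :=
      mul_le_mul e1 e2 (by linarith) (mul_nonneg (by linarith) (by linarith))
    nlinarith

end Pool.Agent.V7H35.OddCross
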