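import Mathlib

/-!
# Box partitions of a grid in which every line meets at least `k` parts

Abstract core.  `X` is the set of rows, `Y` the set of columns, `B` the set of parts; `α b x` says
that the part `b` meets the row `x`, `β b y` that it meets the column `y`.

The proof: take an optimal mixed strategy `ρ` of the row player in the game where the other player
chooses a part and wins if the part meets the chosen row; let `a` be the value of the game.  If `a`
is at most `1 / 2`, both for rows and for columns, then summing `(1 / 2 - r b) * (1 / 2 - c b)` over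
all parts gives the bound.  If `a > 1 / 2`, then the parts used by an optimal strategy `w` of the
second player lie in disjoint sets of columns, and choosing a column through the part `b` with
probability `w b` gives a distribution on columns which hits every part with probability at most
`1 - a`; now sum `(a - r b) * (1 - a - c b)`.
-/

namespace Pool.Agent.V7H35.Pierce

open Finset
open scoped Classical

/-- von Neumann's minimax theorem for a finite matrix game. -/
theorem saddle {X B : Type*} [Fintype X] [Fintype B] [Nonempty X] [Nonempty B]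
    (M : X → B → ℝ) :
    ∃ (ρ : X → ℝ) (w : B → ℝ) (a : ℝ), (∀ x, 0 ≤ ρ x) ∧ ∑ x, ρ x = 1 ∧ (∀ b, 0 ≤ w b) ∧
      ∑ b, w b = 1 ∧ (∀ b, ∑ x, ρ x * M x b ≤ a) ∧ (∀ x, a ≤ ∑ b, w b * M x b) := by
  set f : (X → ℝ) → (B → ℝ) → ℝ := fun ρ w => ∑ x, ∑ b, ρ x * w b * M x b with hf
  have hfx : ∀ ρ, ∀ w, f ρ w = ∑ b, w b * ∑ x, ρ x * M x b := by
    intro ρ w
    rw [hf]
    simp only
    rw [sum_comm]
    refine sum_congr rfl fun b _ => ?_
    rw [mul_sum]
    exact sum_congr rfl fun x _ => by ring
  have hfy : ∀ ρ, ∀ w, f ρ w = ∑ x, ρ x * ∑ b, w b * M x b := by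
    intro ρ w
    rw [hf]
    simp only
    refine sum_congr rfl fun x _ => ?_
    rw [mul_sum]
    exact sum_congr rfl fun b _ => by ring
  have hlin1 : ∀ w, ∀ ρ ρ' : X → ℝ, ∀ s t : ℝ, f (s • ρ + t • ρ') w = s * f ρ w + t * f ρ' w := by
    intro w ρ ρ' s t
    simp only [hfy, Pi.add_apply, Pi.smul_apply, smul_eq_mul]
    rw [mul_sum, mul_sum, ← sum_add_distrib]
    exact sum_congr rfl fun x _ => by ring
  have hlin2 : ∀ ρ, ∀ w w' : B → ℝ, ∀ s t : ℝ, f ρ (s • w + t • w') = s * f ρ w + t * f ρ w' := by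
    intro ρ w w' s t
    simp only [hfx, Pi.add_apply, Pi.smul_apply, smul_eq_mul]
    rw [mul_sum, mul_sum, ← sum_add_distrib]
    exact sum_congr rfl fun x _ => by ring
  have hconX : Convex ℝ (stdSimplex ℝ X) := convex_stdSimplex ℝ X
  have hconB : Convex ℝ (stdSimplex ℝ B) := convex_stdSimplex ℝ B
  have hcX : IsCompact (stdSimplex ℝ X) := isCompact_stdSimplex ℝ X
  have hcB : IsCompact (stdSimplex ℝ B) := isCompact_stdSimplex ℝ B
  have hneX : (stdSimplex ℝ X).Nonempty := ⟨_, single_mem_stdSimplex ℝ (Classical.arbitrary X)⟩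
  have hneB : (stdSimplex ℝ B).Nonempty := ⟨_, single_mem_stdSimplex ℝ (Classical.arbitrary B)⟩
  have hct1 : ∀ w, Continuous (fun ρ : X → ℝ => f ρ w) := by
    intro w
    simp only [hfy]
    fun_prop
  have hct2 : ∀ ρ, Continuous (fun w : B → ℝ => f ρ w) := by
    intro ρ
    simp only [hfx]
    fun_prop
  obtain ⟨ρ, hρ, w, hw, hsad⟩ := Sion.exists_isSaddlePointOn (X := stdSimplex ℝ X)
    (Y := stdSimplex ℝ B) (f := f) hneX hconX hcX
    (fun w _ => (hct1 w).lowerSemicontinuous.lowerSemicontinuousOn _)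
    (fun w _ => by
      refine ConvexOn.quasiconvexOn ⟨hconX, ?_⟩
      intro ρ _ ρ' _ s t _ _ _
      simp only [smul_eq_mul]
      exact (hlin1 w ρ ρ' s t).le)
    hconB hneB hcB
    (fun ρ _ => (hct2 ρ).upperSemicontinuous.upperSemicontinuousOn _)
    (fun ρ _ => by
      refine ConcaveOn.quasiconcaveOn ⟨hconB, ?_⟩
      intro w _ w' _ s t _ _ _
      simp only [smul_eq_mul]
      exact (hlin2 ρ w w' s t).ge)
  refine ⟨ρ, w, f ρ w, hρ.1, hρ.2, hw.1, hw.2, ?_, ?_⟩
  · intro b
    have h := hsad ρ hρ (Pi.single b 1) (single_mem_stdSimplex ℝ b)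
    rw [hfx] at h
    simpa [Pi.single_apply] using h
  · intro x
    have h := hsad (Pi.single x 1) (single_mem_stdSimplex ℝ x) w hw
    rw [hfy (Pi.single x 1)] at h
    simpa [Pi.single_apply] using h

variable {X Y B : Type*} [Fintype X] [Fintype Y] [Fintype B]

/-- The two-distribution bound. -/
theorem pair_bound (α : B → X → Prop) (β : B → Y → Prop)
    (hpart : ∀ x y, ∃! b, α b x ∧ β b y) (k : ℕ)
    (hrow : ∀ x, k ≤ (univ.filter fun b => α b x).card)
    (hcol : ∀ y, k ≤ (univ.filter fun b => β b y).card)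
    (ρ : X → ℝ) (σ : Y → ℝ) (hρ : ∀ x, 0 ≤ ρ x) (hρ1 : ∑ x, ρ x = 1) (hσ : ∀ y, 0 ≤ σ y)
    (hσ1 : ∑ y, σ y = 1) (a : ℝ) (ha0 : 0 ≤ a) (ha1 : a ≤ 1)
    (hr : ∀ b, ∑ x, ρ x * (if α b x then 1 else 0) ≤ a)
    (hc : ∀ b, ∑ y, σ y * (if β b y then 1 else 0) ≤ 1 - a) :
    4 * ((k : ℝ) - 1) ≤ Fintype.card B := by
  set r : B → ℝ := fun b => ∑ x, ρ x * (if α b x then 1 else 0) with hrdef
  set c : B → ℝ := fun b => ∑ y, σ y * (if β b y then 1 else 0) with hcdef
  have hsr : (k : ℝ) ≤ ∑ b, r b := by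
    have h1 : ∑ b, r b = ∑ x, ρ x * ((univ.filter fun b => α b x).card : ℝ) := by
      simp only [hrdef]
      rw [sum_comm]
      refine sum_congr rfl fun x _ => ?_
      rw [← mul_sum, sum_boole]
    rw [h1]
    calc (k : ℝ) = ∑ x, ρ x * (k : ℝ) := by rw [← sum_mul, hρ1, one_mul]
      _ ≤ _ := sum_le_sum fun x _ => mul_le_mul_of_nonneg_left (by exact_mod_cast hrow x) (hρ x)
  have hsc : (k : ℝ) ≤ ∑ b, c b := by
    have h1 : ∑ b, c b = ∑ y, σ y * ((univ.filter fun b => β b y).card : ℝ) := by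
      simp only [hcdef]
      rw [sum_comm]
      refine sum_congr rfl fun y _ => ?_
      rw [← mul_sum, sum_boole]
    rw [h1]
    calc (k : ℝ) = ∑ y, σ y * (k : ℝ) := by rw [← sum_mul, hσ1, one_mul]
      _ ≤ _ := sum_le_sum fun y _ => mul_le_mul_of_nonneg_left (by exact_mod_cast hcol y) (hσ y)
  have hsrc : ∑ b, r b * c b = 1 := by
    have hone : ∀ x y, ∑ b, ((if α b x then (1 : ℝ) else 0) * (if β b y then 1 else 0)) = 1 := by
      intro x y
      obtain ⟨b, hb, hbu⟩ := hpart x y
      rw [sum_eq_single b]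
      · simp [hb.1, hb.2]
      · intro b' _ hb'
        by_cases h1 : α b' x
        · by_cases h2 : β b' y
          · exact absurd (hbu b' ⟨h1, h2⟩) hb'
          · simp [h2]
        · simp [h1]
      · intro h
        exact absurd (mem_univ b) h
    calc ∑ b, r b * c b
        = ∑ b, ∑ x, ∑ y, ρ x * σ y *
            ((if α b x then (1 : ℝ) else 0) * (if β b y then 1 else 0)) := by
          refine sum_congr rfl fun b _ => ?_
          simp only [hrdef, hcdef]
          rw [sum_mul_sum]
          refine sum_congr rfl fun x _ => sum_congr rfl fun y _ => by ring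
      _ = ∑ x, ∑ y, ρ x * σ y *
            ∑ b, ((if α b x then (1 : ℝ) else 0) * (if β b y then 1 else 0)) := by
          rw [sum_comm]
          refine sum_congr rfl fun x _ => ?_
          rw [sum_comm]
          refine sum_congr rfl fun y _ => ?_
          rw [mul_sum]
      _ = ∑ x, ∑ y, ρ x * σ y := by
          refine sum_congr rfl fun x _ => sum_congr rfl fun y _ => by rw [hone, mul_one]
      _ = 1 := by rw [← sum_mul_sum, hρ1, hσ1, one_mul]
  have hnn : 0 ≤ ∑ b, (a - r b) * (1 - a - c b) :=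
    sum_nonneg fun b _ => mul_nonneg (by linarith [hr b]) (by linarith [hc b])
  have hexp : ∑ b, (a - r b) * (1 - a - c b) =
      a * (1 - a) * Fintype.card B - a * ∑ b, c b - (1 - a) * ∑ b, r b + ∑ b, r b * c b := by
    have : ∀ b, (a - r b) * (1 - a - c b) =
        a * (1 - a) - a * c b - (1 - a) * r b + r b * c b := fun b => by ring
    calc ∑ b, (a - r b) * (1 - a - c b)
        = ∑ b, (a * (1 - a) - a * c b - (1 - a) * r b + r b * c b) :=
          sum_congr rfl fun b _ => this b
      _ = ∑ _b : B, a * (1 - a) - ∑ b, a * c b - ∑ b, (1 - a) * r b + ∑ b, r b * c b := by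
          rw [sum_add_distrib, sum_sub_distrib, sum_sub_distrib]
      _ = _ := by
          rw [sum_const, card_univ, nsmul_eq_mul, ← mul_sum, ← mul_sum]
          ring
  rw [hexp, hsrc] at hnn
  have h1 : a * (k : ℝ) ≤ a * ∑ b, c b := mul_le_mul_of_nonneg_left hsc ha0
  have h2 : (1 - a) * (k : ℝ) ≤ (1 - a) * ∑ b, r b :=
    mul_le_mul_of_nonneg_left hsr (by linarith)
  have h3 : (k : ℝ) - 1 ≤ a * (1 - a) * Fintype.card B := by linarith
  have hm : (0 : ℝ) ≤ Fintype.card B := Nat.cast_nonneg _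
  have h4 : a * (1 - a) * (Fintype.card B : ℝ) ≤ 1 / 4 * Fintype.card B := by
    refine mul_le_mul_of_nonneg_right ?_ hm
    nlinarith [sq_nonneg (a - 1 / 2)]
  linarith

/-- If the value of the row game is larger than `1 / 2`, then a good distribution on the columns
exists. -/
theorem dominated (α : B → X → Prop) (β : B → Y → Prop)
    (hpart : ∀ x y, ∃! b, α b x ∧ β b y)
    (hα : ∀ b, ∃ x, α b x) (hα' : ∀ b, ∃ x, ¬ α b x) (hβ : ∀ b, ∃ y, β b y)
    (ρ : X → ℝ) (w : B → ℝ) (a : ℝ) (hρ : ∀ x, 0 ≤ ρ x) (hρ1 : ∑ x, ρ x = 1)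
    (hw : ∀ b, 0 ≤ w b) (hw1 : ∑ b, w b = 1)
    (hr : ∀ b, ∑ x, ρ x * (if α b x then 1 else 0) ≤ a)
    (hwa : ∀ x, a ≤ ∑ b, w b * (if α b x then 1 else 0)) (ha : 1 / 2 < a) :
    ∃ σ : Y → ℝ, (∀ y, 0 ≤ σ y) ∧ ∑ y, σ y = 1 ∧
      ∀ b, ∑ y, σ y * (if β b y then 1 else 0) ≤ 1 - a := by
  set r : B → ℝ := fun b => ∑ x, ρ x * (if α b x then 1 else 0) with hrdef
  -- complementary slackness
  have hslack : ∀ b, 0 < w b → r b = a := by
    intro b hb
    by_contra hne
    have hlt : r b < a := lt_of_le_of_ne (hr b) hne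
    have h1 : ∑ b, w b * r b < ∑ b, w b * a := by
      refine sum_lt_sum (fun b _ => mul_le_mul_of_nonneg_left (hr b) (hw b)) ⟨b, mem_univ b, ?_⟩
      exact mul_lt_mul_of_pos_left hlt hb
    rw [← sum_mul, hw1, one_mul] at h1
    have h2 : ∑ b, w b * r b = ∑ x, ρ x * ∑ b, w b * (if α b x then 1 else 0) := by
      simp only [hrdef, mul_sum]
      rw [sum_comm]
      exact sum_congr rfl fun x _ => sum_congr rfl fun b _ => by ring
    have h3 : a ≤ ∑ x, ρ x * ∑ b, w b * (if α b x then 1 else 0) := by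
      calc a = ∑ x, ρ x * a := by rw [← sum_mul, hρ1, one_mul]
        _ ≤ _ := sum_le_sum fun x _ => mul_le_mul_of_nonneg_left (hwa x) (hρ x)
    linarith
  -- a column meets at most one part of positive weight
  have hdisj : ∀ b b' y, 0 < w b → 0 < w b' → β b y → β b' y → b = b' := by
    intro b b' y hb hb' hby hb'y
    by_contra hne
    have h1 : r b + r b' ≤ 1 := by
      have hle : ∀ x, ρ x * (if α b x then 1 else 0) + ρ x * (if α b' x then 1 else 0) ≤ ρ x := by
        intro x
        rw [← mul_add]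
        have h2 : (if α b x then (1 : ℝ) else 0) + (if α b' x then 1 else 0) ≤ 1 := by
          by_cases h3 : α b x
          · have h4 : ¬ α b' x := by
              intro h4
              obtain ⟨c, -, hcu⟩ := hpart x y
              exact hne ((hcu b ⟨h3, hby⟩).trans (hcu b' ⟨h4, hb'y⟩).symm)
            simp [h3, h4]
          · simp only [h3, if_false, zero_add]
            split_ifs <;> norm_num
        calc ρ x * _ ≤ ρ x * 1 := mul_le_mul_of_nonneg_left h2 (hρ x)
          _ = ρ x := mul_one _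
      calc r b + r b' = ∑ x, (ρ x * (if α b x then 1 else 0) + ρ x * (if α b' x then 1 else 0)) := by
            rw [sum_add_distrib]
        _ ≤ ∑ x, ρ x := sum_le_sum fun x _ => hle x
        _ = 1 := hρ1
    rw [hslack b hb, hslack b' hb'] at h1
    linarith
  choose yy hyy using hβ
  refine ⟨fun y => ∑ b, if yy b = y then w b else 0, ?_, ?_, ?_⟩
  · intro y
    exact sum_nonneg fun b _ => by split_ifs <;> simp [hw b]
  · rw [sum_comm, ← hw1]
    exact sum_congr rfl fun b _ => by simp
  · intro z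
    have h1 : ∑ y, (∑ b, if yy b = y then w b else 0) * (if β z y then (1 : ℝ) else 0) =
        ∑ b, w b * (if β z (yy b) then 1 else 0) := by
      simp only [sum_mul]
      rw [sum_comm]
      refine sum_congr rfl fun b _ => ?_
      rw [sum_eq_single (yy b)]
      · simp
      · intro y _ hy
        rw [if_neg (Ne.symm hy), zero_mul]
      · intro h
        exact absurd (mem_univ _) h
    rw [h1]
    -- a row avoiding all the parts of positive weight whose column meets `z`
    have hx : ∃ x, ∀ b, 0 < w b → β z (yy b) → ¬ α b x := by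
      by_cases hz : 0 < w z
      · obtain ⟨x, hx⟩ := hα' z
        refine ⟨x, fun b hb hzb => ?_⟩
        have := hdisj z b (yy b) hz hb hzb (hyy b)
        rw [← this]
        exact hx
      · obtain ⟨x, hx⟩ := hα z
        refine ⟨x, fun b hb hzb hbx => ?_⟩
        obtain ⟨c, -, hcu⟩ := hpart x (yy b)
        have : b = z := (hcu b ⟨hbx, hyy b⟩).trans (hcu z ⟨hx, hzb⟩).symm
        rw [this] at hb
        exact hz hb
    obtain ⟨x, hx⟩ := hx
    have h2 : ∑ b, w b * (if β z (yy b) then (1 : ℝ) else 0) +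
        ∑ b, w b * (if α b x then (1 : ℝ) else 0) ≤ 1 := by
      have hle : ∀ b, w b * (if β z (yy b) then (1 : ℝ) else 0) +
          w b * (if α b x then (1 : ℝ) else 0) ≤ w b := by
        intro b
        rw [← mul_add]
        rcases (hw b).eq_or_lt with h0 | h0
        · rw [← h0]; simp
        · have h3 : (if β z (yy b) then (1 : ℝ) else 0) + (if α b x then 1 else 0) ≤ 1 := by
            by_cases h4 : β z (yy b)
            · simp [h4, hx b h0 h4]
            · simp only [h4, if_false, zero_add]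
              split_ifs <;> norm_num
          calc w b * _ ≤ w b * 1 := mul_le_mul_of_nonneg_left h3 (hw b)
            _ = w b := mul_one _
      calc _ = ∑ b, (w b * (if β z (yy b) then (1 : ℝ) else 0) +
            w b * (if α b x then (1 : ℝ) else 0)) := by rw [sum_add_distrib]
        _ ≤ ∑ b, w b := sum_le_sum fun b _ => hle b
        _ = 1 := hw1
    linarith [hwa x]

/-- Main bound: a partition of a grid into boxes, none of which meets all rows or all columns, and
such that every row and every column meets at least `k` parts, has at least `4 * (k - 1)` parts. -/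
theorem grid_bound [Nonempty X] [Nonempty Y] (α : B → X → Prop) (β : B → Y → Prop)
    (hpart : ∀ x y, ∃! b, α b x ∧ β b y)
    (hα : ∀ b, ∃ x, α b x) (hα' : ∀ b, ∃ x, ¬ α b x) (hβ : ∀ b, ∃ y, β b y)
    (hβ' : ∀ b, ∃ y, ¬ β b y) (k : ℕ)
    (hrow : ∀ x, k ≤ (univ.filter fun b => α b x).card)
    (hcol : ∀ y, k ≤ (univ.filter fun b => β b y).card) :
    4 * ((k : ℝ) - 1) ≤ Fintype.card B := by
  have : Nonempty B := ⟨(hpart (Classical.arbitrary X) (Classical.arbitrary Y)).choose⟩
  have hpart' : ∀ y x, ∃! b, β b y ∧ α b x := by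
    intro y x
    obtain ⟨b, hb, hbu⟩ := hpart x y
    exact ⟨b, hb.symm, fun c hc => hbu c hc.symm⟩
  obtain ⟨ρ, w, a, hρ, hρ1, hw, hw1, hr, hwa⟩ :=
    saddle (X := X) (B := B) (fun x b => if α b x then (1 : ℝ) else 0)
  obtain ⟨σ, v, a', hσ, hσ1, hv, hv1, hc, hva⟩ :=
    saddle (X := Y) (B := B) (fun y b => if β b y then (1 : ℝ) else 0)
  have hle1 : a ≤ 1 := by
    calc a ≤ _ := hwa (Classical.arbitrary X)
      _ ≤ ∑ b, w b * 1 := sum_le_sum fun b _ =>
        mul_le_mul_of_nonneg_left (by split_ifs <;> norm_num) (hw b)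
      _ = 1 := by simp only [mul_one]; exact hw1
  have hle1' : a' ≤ 1 := by
    calc a' ≤ _ := hva (Classical.arbitrary Y)
      _ ≤ ∑ b, v b * 1 := sum_le_sum fun b _ =>
        mul_le_mul_of_nonneg_left (by split_ifs <;> norm_num) (hv b)
      _ = 1 := by simp only [mul_one]; exact hv1
  rcases lt_or_ge (1 / 2) a with h | h
  · obtain ⟨σ', hσ', hσ1', hc'⟩ := dominated α β hpart hα hα' hβ ρ w a hρ hρ1 hw hw1 hr hwa h
    exact pair_bound α β hpart k hrow hcol ρ σ' hρ hρ1 hσ' hσ1' a (by linarith) hle1 hr hc'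
  rcases lt_or_ge (1 / 2) a' with h' | h'
  · obtain ⟨ρ', hρ', hρ1', hr'⟩ := dominated β α hpart' hβ hβ' hα σ v a' hσ hσ1 hv hv1 hc hva h'
    exact pair_bound β α hpart' k hcol hrow σ ρ' hσ hσ1 hρ' hρ1' a' (by linarith) hle1' hc hr'
  · exact pair_bound α β hpart k hrow hcol ρ σ hρ hρ1 hσ hσ1 (1 / 2) (by norm_num) (by norm_num)
      (fun b => (hr b).trans h) (fun b => (hc b).trans (by linarith))

end Pool.Agent.V7H35.Pierce
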