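import Pool.Agent.Q278.KT.Fin
import Pool.Agent.V7H81.AF.Tot

/-!
# Squares which are followed by few primes

The number of the `n ≤ X` for which some interval `(n², n² + h]` with `n^(1-δ) ≤ h ≤ n` contains fewer than `c h / log n` primes
is at most `C X^0.612`. This is a consequence of the starting theorem `Pool.Agent.Q278.KT.mainp_half` on the number of poor
intervals.
-/

set_option autoImplicit false

namespace Pool.Agent.V7H35.SqCount

open Finset Pool.Agent.Q240.KS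

/-- the number of the primes in `(n ^ 2, n ^ 2 + h]` -/
noncomputable def primes (n : ℕ) (h : ℝ) : ℕ := ((Ioc (n ^ 2) ⌊(n : ℝ) ^ 2 + h⌋₊).filter Nat.Prime).card

/-- all intervals `(n ^ 2, n ^ 2 + h]` with `n ^ (1 - δ) ≤ h ≤ n` contain at least `c h / log n` primes -/
def Rich (c δ : ℝ) (n : ℕ) : Prop :=
  ∀ h : ℝ, (n : ℝ) ^ (1 - δ) ≤ h → h ≤ n → c * h / Real.log n ≤ primes n h

lemma pic_eq (n : ℕ) (h : ℝ) : pic ((n : ℝ) ^ 2) h = primes n h := by
  unfold pic primes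
  have e : ⌊((n : ℝ) ^ 2)⌋₊ = n ^ 2 := by
    rw [show ((n : ℝ) ^ 2) = ((n ^ 2 : ℕ) : ℝ) by push_cast; ring]
    exact Nat.floor_natCast _
  rw [e]

lemma primes_mono (n : ℕ) {h h' : ℝ} (hh : h ≤ h') : primes n h ≤ primes n h' := by
  unfold primes
  refine card_le_card (filter_subset_filter _ (Ioc_subset_Ioc_right (Nat.floor_le_floor (by linarith))))

/-- the exceptional `n` in one block -/
lemma block : ∃ c δ η Y₁ : ℝ, 0 < c ∧ 0 < δ ∧ δ ≤ 1 / 2 ∧ 0 < η ∧ η ≤ 1 / 10 ∧ ∀ Y : ℝ, Y₁ ≤ Y → ∀ S : Finset ℕ,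
    (∀ n ∈ S, 1 ≤ n ∧ |2 * Real.log n - Y| ≤ 2 / 5 ∧ ¬ Rich c δ n) →
    (S.card : ℝ) ≤ (Y + 1) * Real.exp ((0.306 - η) * Y) := by
  classical
  obtain ⟨c₀, η₀, Y₀, hc₀, hη₀, hM⟩ := Pool.Agent.Q278.KT.mainp_half
  set η : ℝ := min η₀ (1 / 10) with hηd
  have hη0 : 0 < η := lt_min hη₀ (by norm_num)
  have hη1 : η ≤ η₀ := min_le_left _ _
  have hη2 : η ≤ 1 / 10 := min_le_right _ _
  refine ⟨c₀ / (4 * Real.exp 1), η, η, max (|Y₀|) (max 10 (12 / η)), by positivity, hη0, by linarith, hη0, hη2, ?_⟩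
  intro Y hY S hS
  have hYY0 : Y₀ ≤ Y := (le_abs_self _).trans ((le_max_left _ _).trans hY)
  have hY10 : (10 : ℝ) ≤ Y := ((le_max_left _ _).trans (le_max_right _ _)).trans hY
  have hYη : 12 / η ≤ Y := ((le_max_right _ _).trans (le_max_right _ _)).trans hY
  rw [div_le_iff₀ hη0] at hYη
  set Si : ℕ → Finset ℕ := fun i => S.filter (fun n => (n : ℝ) ^ (1 - η) * Real.exp (-1) ≤ Real.exp i ∧
    Real.exp i ≤ n ∧ (primes n (Real.exp i) : ℝ) < c₀ * Real.exp i / Y) with hSi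
  have hsub : S ⊆ (range (⌊Y⌋₊ + 1)).biUnion Si := by
    intro n hn
    obtain ⟨h1, h2, h3⟩ := hS n hn
    unfold Rich at h3
    push Not at h3
    obtain ⟨h, h4, h5, h6⟩ := h3
    have hn0 : (0 : ℝ) < n := by exact_mod_cast (by omega : 0 < n)
    have hn1 : (1 : ℝ) ≤ n := by exact_mod_cast h1
    have hh1 : (1 : ℝ) ≤ h := (Real.one_le_rpow hn1 (by linarith)).trans h4
    have hh0 : (0 : ℝ) < h := by linarith
    have hlog := abs_le.1 h2
    have hl : Y / 4 ≤ Real.log n := by linarith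
    have hl0 : 0 < Real.log n := by linarith
    have hlh0 : 0 ≤ Real.log h := Real.log_nonneg hh1
    have hlhn : Real.log h ≤ Real.log n := Real.log_le_log hh0 h5
    have hf1 : (⌊Real.log h⌋₊ : ℝ) ≤ Real.log h := Nat.floor_le hlh0
    have hf2 : Real.log h < (⌊Real.log h⌋₊ : ℝ) + 1 := Nat.lt_floor_add_one _
    have he1 : Real.exp (⌊Real.log h⌋₊ : ℝ) ≤ h := by
      rw [← Real.exp_log hh0] at *
      rw [Real.log_exp] at *
      exact Real.exp_le_exp.2 hf1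
    have he2 : h ≤ Real.exp 1 * Real.exp (⌊Real.log h⌋₊ : ℝ) := by
      rw [← Real.exp_add]
      calc h = Real.exp (Real.log h) := (Real.exp_log hh0).symm
        _ ≤ _ := Real.exp_le_exp.2 (by linarith)
    refine mem_biUnion.2 ⟨⌊Real.log h⌋₊, ?_, ?_⟩
    · rw [mem_range, Nat.lt_succ_iff]
      exact Nat.floor_le_floor (by linarith)
    · rw [hSi]
      refine mem_filter.2 ⟨hn, ?_, he1.trans h5, ?_⟩
      · calc (n : ℝ) ^ (1 - η) * Real.exp (-1) ≤ h * Real.exp (-1) :=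
              mul_le_mul_of_nonneg_right h4 (Real.exp_pos _).le
          _ ≤ (Real.exp 1 * Real.exp (⌊Real.log h⌋₊ : ℝ)) * Real.exp (-1) :=
              mul_le_mul_of_nonneg_right he2 (Real.exp_pos _).le
          _ = Real.exp (⌊Real.log h⌋₊ : ℝ) := by
              rw [Real.exp_neg]
              field_simp
      · have h7 : (primes n (Real.exp (⌊Real.log h⌋₊ : ℝ)) : ℝ) ≤ primes n h := by
          exact_mod_cast primes_mono n he1
        refine (h7.trans_lt h6).trans_le ?_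
        rw [div_le_div_iff₀ hl0 (by linarith)]
        calc c₀ / (4 * Real.exp 1) * h * Y ≤
              c₀ / (4 * Real.exp 1) * (Real.exp 1 * Real.exp (⌊Real.log h⌋₊ : ℝ)) * Y := by gcongr
          _ = c₀ * Real.exp (⌊Real.log h⌋₊ : ℝ) * (Y / 4) := by field_simp
          _ ≤ c₀ * Real.exp (⌊Real.log h⌋₊ : ℝ) * Real.log n := by gcongr
  have hcard : ∀ i ∈ range (⌊Y⌋₊ + 1), ((Si i).card : ℝ) ≤ Real.exp ((0.306 - η) * Y) := by
    intro i _
    rcases (Si i).eq_empty_or_nonempty with he | ⟨n₀, hn₀⟩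
    · rw [he, card_empty]
      push_cast
      positivity
    have hb : Real.exp ((1 - 1 / 2 - η₀) * Y) ≤ Real.exp i ∧ Real.exp (i : ℝ) ≤ Real.exp (0.9 * Y) := by
      rw [hSi] at hn₀
      obtain ⟨h1, h2, h3, -⟩ := mem_filter.1 hn₀
      obtain ⟨h4, h5, -⟩ := hS n₀ h1
      have hn0 : (0 : ℝ) < n₀ := by exact_mod_cast (by omega : 0 < n₀)
      have hlog := abs_le.1 h5
      constructor
      · refine le_trans ?_ h2
        rw [Real.rpow_def_of_pos hn0, ← Real.exp_add, Real.exp_le_exp]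
        have h6 : (1 - 1 / 2 - η₀) * Y ≤ (1 / 2 - η) * Y := mul_le_mul_of_nonneg_right (by linarith) (by linarith)
        have h7 : (Y / 2 - 1 / 5) * (1 - η) ≤ Real.log n₀ * (1 - η) :=
          mul_le_mul_of_nonneg_right (by linarith) (by linarith)
        nlinarith
      · refine h3.trans ?_
        rw [← Real.exp_log hn0, Real.exp_le_exp]
        linarith
    set U : Finset ℝ := (Si i).image (fun n : ℕ => (n : ℝ) ^ 2) with hU
    have hinj : Set.InjOn (fun n : ℕ => (n : ℝ) ^ 2) (Si i : Set ℕ) := by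
      intro x _ y _ hxy
      simp only at hxy
      have h1 : ((x ^ 2 : ℕ) : ℝ) = ((y ^ 2 : ℕ) : ℝ) := by push_cast; exact hxy
      have h2 : x ^ 2 = y ^ 2 := by exact_mod_cast h1
      exact Nat.pow_left_injective (by norm_num : (2 : ℕ) ≠ 0) h2
    have hUc : U.card = (Si i).card := card_image_of_injOn hinj
    rw [← hUc]
    have hfin := hM Y hYY0 (Real.exp i) hb.1 hb.2 U ?_ ?_
    · refine hfin.trans (Real.exp_le_exp.2 (mul_le_mul_of_nonneg_right (by linarith) (by linarith)))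
    · intro y hy
      obtain ⟨n, hn, rfl⟩ := mem_image.1 hy
      rw [hSi] at hn
      obtain ⟨h1, h2, h3, h4⟩ := mem_filter.1 hn
      obtain ⟨h5, h6, -⟩ := hS n h1
      have hn0 : (0 : ℝ) < n := by exact_mod_cast (by omega : 0 < n)
      refine ⟨by positivity, ?_, ?_⟩
      · rw [Real.log_pow]
        push_cast
        exact h6
      · rw [pic_eq]
        exact h4
    · intro y hy y' hy' hne
      obtain ⟨n, hn, rfl⟩ := mem_image.1 hy
      obtain ⟨n', hn', rfl⟩ := mem_image.1 hy'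
      rw [hSi] at hn hn'
      obtain ⟨h1, -, h3, -⟩ := mem_filter.1 hn
      obtain ⟨h1', -, h3', -⟩ := mem_filter.1 hn'
      have hnn : n ≠ n' := by
        rintro rfl
        exact hne rfl
      have h5 := (hS n h1).1
      have h5' := (hS n' h1').1
      have hn0 : (0 : ℝ) < n := by exact_mod_cast (by omega : 0 < n)
      have hn0' : (0 : ℝ) < n' := by exact_mod_cast (by omega : 0 < n')
      have h6 : (1 : ℝ) ≤ |(n : ℝ) - n'| := by
        rcases lt_or_gt_of_ne hnn with h7 | h7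
        · have h8 : (n : ℝ) + 1 ≤ n' := by exact_mod_cast h7
          rw [abs_sub_comm, abs_of_nonneg (by linarith)]
          linarith
        · have h8 : (n' : ℝ) + 1 ≤ n := by exact_mod_cast h7
          rw [abs_of_nonneg (by linarith)]
          linarith
      have h7 : |(n : ℝ) ^ 2 - (n' : ℝ) ^ 2| = |(n : ℝ) - n'| * (n + n') := by
        rw [show (n : ℝ) ^ 2 - (n' : ℝ) ^ 2 = ((n : ℝ) - n') * (n + n') by ring, abs_mul,
          abs_of_pos (show (0 : ℝ) < n + n' by linarith)]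
      rw [h7]
      nlinarith
  calc (S.card : ℝ) ≤ (((range (⌊Y⌋₊ + 1)).biUnion Si).card : ℝ) := by exact_mod_cast card_le_card hsub
    _ ≤ ∑ i ∈ range (⌊Y⌋₊ + 1), ((Si i).card : ℝ) := by exact_mod_cast card_biUnion_le
    _ ≤ ∑ _i ∈ range (⌊Y⌋₊ + 1), Real.exp ((0.306 - η) * Y) := sum_le_sum hcard
    _ = ((⌊Y⌋₊ : ℝ) + 1) * Real.exp ((0.306 - η) * Y) := by
        rw [sum_const, card_range, nsmul_eq_mul]
        push_cast
        ring
    _ ≤ (Y + 1) * Real.exp ((0.306 - η) * Y) := by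
        have := Nat.floor_le (show (0 : ℝ) ≤ Y by linarith)
        gcongr

/-- the number of the exceptional `n ≤ X` -/
lemma rich_count : ∃ c δ : ℝ, 0 < c ∧ 0 < δ ∧ δ ≤ 1 / 2 ∧ ∃ C : ℝ, 0 ≤ C ∧ ∀ X : ℝ, 1 ≤ X → ∀ F : Finset ℕ,
    (∀ n ∈ F, 1 ≤ n ∧ (n : ℝ) ≤ X ∧ ¬ Rich c δ n) → (F.card : ℝ) ≤ C * X ^ (0.612 : ℝ) := by
  classical
  obtain ⟨c, δ, η, Y₁, hc, hδ, hδ2, hη, hη2, hB⟩ := block
  set K₀ : ℝ := Real.exp (|Y₁| + 1) with hK₀
  have hK0 : 0 ≤ K₀ := (Real.exp_pos _).le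
  refine ⟨c, δ, hc, hδ, hδ2, (5 / η + 1) * (K₀ + (2 / η + 1)), by positivity, fun X hX F hF => ?_⟩
  have hX0 : 0 < X := by linarith
  have hl : 0 ≤ Real.log X := Real.log_nonneg hX
  set Fj : ℕ → Finset ℕ := fun j => F.filter (fun n => ⌊5 * Real.log n⌋₊ = j) with hFj
  have hsub : F ⊆ (range (⌊5 * Real.log X⌋₊ + 1)).biUnion Fj := by
    intro n hn
    obtain ⟨h1, h2, -⟩ := hF n hn
    have hn0 : (0 : ℝ) < n := by exact_mod_cast (by omega : 0 < n)
    refine mem_biUnion.2 ⟨⌊5 * Real.log n⌋₊, ?_, mem_filter.2 ⟨hn, rfl⟩⟩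
    rw [mem_range, Nat.lt_succ_iff]
    exact Nat.floor_le_floor (by linarith [Real.log_le_log hn0 h2])
  have hj : ∀ j ∈ range (⌊5 * Real.log X⌋₊ + 1), ((Fj j).card : ℝ) ≤
      K₀ + (2 * Real.log X + 1) * X ^ (0.612 - 2 * η) := by
    intro j hj
    rw [mem_range, Nat.lt_succ_iff] at hj
    have hjX : (j : ℝ) ≤ 5 * Real.log X := by
      have h1 : (j : ℝ) ≤ (⌊5 * Real.log X⌋₊ : ℝ) := by exact_mod_cast hj
      exact h1.trans (Nat.floor_le (by linarith))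
    have hmem : ∀ n ∈ Fj j, 1 ≤ n ∧ |2 * Real.log n - 2 * (j : ℝ) / 5| ≤ 2 / 5 ∧ ¬ Rich c δ n := by
      intro n hn
      rw [hFj] at hn
      obtain ⟨h1, h2⟩ := mem_filter.1 hn
      obtain ⟨h3, h4, h5⟩ := hF n h1
      have hn1 : (1 : ℝ) ≤ n := by exact_mod_cast h3
      have hln : 0 ≤ Real.log n := Real.log_nonneg hn1
      have h6 : (j : ℝ) ≤ 5 * Real.log n := by
        rw [← h2]
        exact Nat.floor_le (by linarith)
      have h7 : 5 * Real.log n < (j : ℝ) + 1 := by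
        rw [← h2]
        exact Nat.lt_floor_add_one _
      refine ⟨h3, ?_, h5⟩
      rw [abs_le]
      constructor <;> linarith
    have hpos : 0 ≤ (2 * Real.log X + 1) * X ^ (0.612 - 2 * η) := by positivity
    rcases le_or_gt Y₁ (2 * (j : ℝ) / 5) with hY | hY
    · refine (hB _ hY _ hmem).trans ?_
      have h1 : (2 * (j : ℝ) / 5 + 1) * Real.exp ((0.306 - η) * (2 * (j : ℝ) / 5)) ≤
          (2 * Real.log X + 1) * X ^ (0.612 - 2 * η) := by
        rw [Real.rpow_def_of_pos hX0]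
        have h2 : (0.306 - η) * (2 * (j : ℝ) / 5) ≤ Real.log X * (0.612 - 2 * η) := by nlinarith
        gcongr
        linarith
      linarith
    · have h1 : (Fj j) ⊆ Icc 1 ⌊K₀⌋₊ := by
        intro n hn
        obtain ⟨h3, h4, -⟩ := hmem n hn
        have hn0 : (0 : ℝ) < n := by exact_mod_cast (by omega : 0 < n)
        rw [mem_Icc]
        refine ⟨h3, Nat.le_floor ?_⟩
        have h5 := (abs_le.1 h4).2
        have h6 := le_abs_self Y₁
        have h7 := abs_nonneg Y₁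
        calc (n : ℝ) = Real.exp (Real.log n) := (Real.exp_log hn0).symm
          _ ≤ K₀ := Real.exp_le_exp.2 (by linarith)
      have h2 : ((Fj j).card : ℝ) ≤ K₀ := by
        have h3 : (Fj j).card ≤ ⌊K₀⌋₊ := (card_le_card h1).trans (by rw [Nat.card_Icc]; omega)
        exact (Nat.cast_le.2 h3).trans (Nat.floor_le hK0)
      linarith
  have h1 : (F.card : ℝ) ≤ (5 * Real.log X + 1) * (K₀ + (2 * Real.log X + 1) * X ^ (0.612 - 2 * η)) := by
    calc (F.card : ℝ) ≤ (((range (⌊5 * Real.log X⌋₊ + 1)).biUnion Fj).card : ℝ) := by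
          exact_mod_cast card_le_card hsub
      _ ≤ ∑ j ∈ range (⌊5 * Real.log X⌋₊ + 1), ((Fj j).card : ℝ) := by exact_mod_cast card_biUnion_le
      _ ≤ ∑ _j ∈ range (⌊5 * Real.log X⌋₊ + 1), (K₀ + (2 * Real.log X + 1) * X ^ (0.612 - 2 * η)) :=
          sum_le_sum hj
      _ = ((⌊5 * Real.log X⌋₊ : ℝ) + 1) * (K₀ + (2 * Real.log X + 1) * X ^ (0.612 - 2 * η)) := by
          rw [sum_const, card_range, nsmul_eq_mul]
          push_cast
          ring
      _ ≤ _ := by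
          have h2 := Nat.floor_le (show (0 : ℝ) ≤ 5 * Real.log X by linarith)
          gcongr
  have hlog : Real.log X ≤ X ^ η / η := Real.log_le_rpow_div hX0.le hη
  have hXη : 1 ≤ X ^ η := Real.one_le_rpow hX hη.le
  have h5 : 5 * Real.log X + 1 ≤ (5 / η + 1) * X ^ η := by
    have : 5 / η * X ^ η = 5 * (X ^ η / η) := by ring
    nlinarith
  have h6 : 2 * Real.log X + 1 ≤ (2 / η + 1) * X ^ η := by
    have : 2 / η * X ^ η = 2 * (X ^ η / η) := by ring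
    nlinarith
  have h7 : K₀ + (2 * Real.log X + 1) * X ^ (0.612 - 2 * η) ≤ (K₀ + (2 / η + 1)) * X ^ (0.612 - η) := by
    have h8 : 1 ≤ X ^ (0.612 - η) := Real.one_le_rpow hX (by linarith)
    have h9 : X ^ η * X ^ (0.612 - 2 * η) = X ^ (0.612 - η) := by
      rw [← Real.rpow_add hX0]
      congr 1
      ring
    have h10 : (2 * Real.log X + 1) * X ^ (0.612 - 2 * η) ≤ (2 / η + 1) * X ^ η * X ^ (0.612 - 2 * η) :=
      mul_le_mul_of_nonneg_right h6 (by positivity)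
    rw [mul_assoc, h9] at h10
    nlinarith
  refine h1.trans ?_
  calc (5 * Real.log X + 1) * (K₀ + (2 * Real.log X + 1) * X ^ (0.612 - 2 * η))
      ≤ ((5 / η + 1) * X ^ η) * ((K₀ + (2 / η + 1)) * X ^ (0.612 - η)) := by
        apply mul_le_mul h5 h7 (by positivity) (by positivity)
    _ = (5 / η + 1) * (K₀ + (2 / η + 1)) * (X ^ η * X ^ (0.612 - η)) := by ring
    _ = _ := by
        rw [← Real.rpow_add hX0]
        congr 2
        ring

/-- the least prime greater than `n ^ 2` -/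
noncomputable def q (n : ℕ) : ℕ := sInf {p : ℕ | p.Prime ∧ n ^ 2 < p}

/-- the distance from `n ^ 2` to the next prime -/
noncomputable def a (n : ℕ) : ℕ := q n - n ^ 2

/-- `a(n) ≤ n ^ (1 - δ)` and `a(n) ≤ 1 + φ(n)`, and all intervals `(n ^ 2, n ^ 2 + h]` with `n ^ (1 - δ) ≤ h ≤ n` contain at
least `c h / log n` primes -/
def Good (c δ : ℝ) (n : ℕ) : Prop := (a n : ℝ) ≤ (n : ℝ) ^ (1 - δ) ∧ a n ≤ 1 + Nat.totient n ∧ Rich c δ n

lemma good_of_rich {c δ : ℝ} (hc : 0 < c) (hδ : 0 < δ) (hδ1 : δ ≤ 1 / 2) : ∃ n₀ : ℕ, ∀ n : ℕ, n₀ ≤ n → Rich c δ n →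
    Good c δ n := by
  have ht : Filter.Tendsto (fun n : ℕ => (n : ℝ) ^ (δ / 2)) Filter.atTop Filter.atTop :=
    (tendsto_rpow_atTop (by positivity)).comp tendsto_natCast_atTop_atTop
  obtain ⟨n₁, hn₁⟩ := Filter.eventually_atTop.1 (ht.eventually_ge_atTop (4 / δ + 1))
  refine ⟨max n₁ 2, fun n hn hR => ?_⟩
  have hn2 : 2 ≤ n := (le_max_right _ _).trans hn
  have hnr : (2 : ℝ) ≤ n := by exact_mod_cast hn2
  have hn0 : (0 : ℝ) < n := by linarith
  have hpow := hn₁ n ((le_max_left _ _).trans hn)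
  have hlog : 0 < Real.log n := Real.log_pos (by linarith)
  have hle : (n : ℝ) ^ (1 - δ) ≤ n := by
    calc (n : ℝ) ^ (1 - δ) ≤ (n : ℝ) ^ (1 : ℝ) := Real.rpow_le_rpow_of_exponent_le (by linarith) (by linarith)
      _ = n := Real.rpow_one _
  have hp := hR _ le_rfl hle
  have hpos : 0 < (primes n ((n : ℝ) ^ (1 - δ)) : ℝ) := lt_of_lt_of_le (by positivity) hp
  have hpos' : 0 < primes n ((n : ℝ) ^ (1 - δ)) := by exact_mod_cast hpos
  unfold primes at hpos'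
  obtain ⟨p, hp⟩ := card_pos.1 hpos'
  obtain ⟨h1, h2⟩ := mem_filter.1 hp
  rw [mem_Ioc] at h1
  have hq : q n ≤ p := Nat.sInf_le ⟨h2, h1.1⟩
  have hpr : (p : ℝ) ≤ (n : ℝ) ^ 2 + (n : ℝ) ^ (1 - δ) := by
    have h3 : (p : ℝ) ≤ (⌊(n : ℝ) ^ 2 + (n : ℝ) ^ (1 - δ)⌋₊ : ℝ) := by exact_mod_cast h1.2
    exact h3.trans (Nat.floor_le (by positivity))
  have ha : (a n : ℝ) ≤ (n : ℝ) ^ (1 - δ) := by
    have h3 : a n ≤ p - n ^ 2 := Nat.sub_le_sub_right hq _
    have h4 : (a n : ℝ) ≤ ((p - n ^ 2 : ℕ) : ℝ) := by exact_mod_cast h3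
    rw [Nat.cast_sub h1.1.le] at h4
    push_cast at h4
    linarith
  have htot : (n : ℝ) ^ (1 - δ) ≤ Nat.totient n := by
    have h3 : (n : ℝ) ≤ (Nat.totient n : ℝ) * ((Nat.log 2 n : ℝ) + 1) := by
      exact_mod_cast Pool.Agent.V7H81.AF.le_totient_mul_log (by omega : n ≠ 0)
    have h4 : (Nat.log 2 n : ℝ) ≤ 2 * Real.log n := by
      have h5 : ((2 : ℝ) ^ (Nat.log 2 n)) ≤ n := by exact_mod_cast Nat.pow_log_le_self 2 (by omega : n ≠ 0)
      have h6 := Real.log_le_log (by positivity) h5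
      rw [Real.log_pow] at h6
      have h7 := Real.log_two_gt_d9
      have h8 : (0 : ℝ) ≤ (Nat.log 2 n : ℝ) := Nat.cast_nonneg _
      nlinarith
    have h5 : Real.log n ≤ (n : ℝ) ^ (δ / 2) / (δ / 2) := Real.log_le_rpow_div hn0.le (by positivity)
    have h6 : (Nat.log 2 n : ℝ) + 1 ≤ (n : ℝ) ^ δ := by
      have h7 : (n : ℝ) ^ δ = (n : ℝ) ^ (δ / 2) * (n : ℝ) ^ (δ / 2) := by
        rw [← Real.rpow_add hn0]
        congr 1
        ring
      have h8 : 2 * ((n : ℝ) ^ (δ / 2) / (δ / 2)) = 4 / δ * (n : ℝ) ^ (δ / 2) := by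
        field_simp
        ring
      have h9 : 1 ≤ (n : ℝ) ^ (δ / 2) := Real.one_le_rpow (by linarith) (by positivity)
      rw [h7]
      nlinarith
    have h7 : (n : ℝ) ^ (1 - δ) * (n : ℝ) ^ δ = n := by
      rw [← Real.rpow_add hn0, sub_add_cancel, Real.rpow_one]
    have h8 : 0 < (n : ℝ) ^ δ := by positivity
    have h9 : (n : ℝ) ^ (1 - δ) * (n : ℝ) ^ δ ≤ (Nat.totient n : ℝ) * (n : ℝ) ^ δ := by
      rw [h7]
      exact h3.trans (mul_le_mul_of_nonneg_left h6 (Nat.cast_nonneg _))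
    exact le_of_mul_le_mul_right h9 h8
  refine ⟨ha, ?_, hR⟩
  have h3 : (a n : ℝ) ≤ Nat.totient n := ha.trans htot
  have h4 : a n ≤ Nat.totient n := by exact_mod_cast h3
  omega

/-- the exceptional set in the form needed by the transfer theorems -/
theorem count : ∃ c δ : ℝ, 0 < c ∧ 0 < δ ∧ δ ≤ 1 / 2 ∧ ∀ ε : ℝ, 0 < ε → ∃ C : ℝ, ∀ X : ℝ, 1 ≤ X →
    {n : ℕ | (1 ≤ n ∧ ¬ Good c δ n) ∧ (n : ℝ) ≤ X}.Finite ∧
    ({n : ℕ | (1 ≤ n ∧ ¬ Good c δ n) ∧ (n : ℝ) ≤ X}.ncard : ℝ) ≤ C * X ^ (0.612 + ε) := by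
  classical
  obtain ⟨c, δ, hc, hδ, hδ1, C, hC0, hC⟩ := rich_count
  obtain ⟨n₀, hn₀⟩ := good_of_rich hc hδ hδ1
  refine ⟨c, δ, hc, hδ, hδ1, fun ε hε => ⟨C + n₀, fun X hX => ?_⟩⟩
  have hfin : {n : ℕ | (1 ≤ n ∧ ¬ Good c δ n) ∧ (n : ℝ) ≤ X}.Finite :=
    (Set.finite_Iic ⌊X⌋₊).subset fun n hn => Nat.le_floor hn.2
  refine ⟨hfin, ?_⟩
  have hX1 : 1 ≤ X ^ (0.612 + ε : ℝ) := Real.one_le_rpow hX (by positivity)
  set F : Finset ℕ := (Icc 1 ⌊X⌋₊).filter (fun n => ¬ Rich c δ n) with hF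
  have hsub : {n : ℕ | (1 ≤ n ∧ ¬ Good c δ n) ∧ (n : ℝ) ≤ X} ⊆ ((F ∪ range n₀ : Finset ℕ) : Set ℕ) := by
    rintro n ⟨⟨h1, h2⟩, h3⟩
    rw [Finset.mem_coe, mem_union]
    by_cases h4 : n < n₀
    · exact Or.inr (mem_range.2 h4)
    · refine Or.inl (mem_filter.2 ⟨mem_Icc.2 ⟨h1, Nat.le_floor h3⟩, fun h5 => h2 (hn₀ n (by omega) h5)⟩)
  have h1 : ({n : ℕ | (1 ≤ n ∧ ¬ Good c δ n) ∧ (n : ℝ) ≤ X}.ncard : ℝ) ≤ ((F ∪ range n₀).card : ℝ) := by
    have := Set.ncard_le_ncard hsub (Finset.finite_toSet _)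
    rw [Set.ncard_coe_finset] at this
    exact_mod_cast this
  have h2 : ((F ∪ range n₀).card : ℝ) ≤ (F.card : ℝ) + n₀ := by
    have := card_union_le F (range n₀)
    rw [card_range] at this
    exact_mod_cast this
  have h3 : (F.card : ℝ) ≤ C * X ^ (0.612 : ℝ) := by
    refine hC X hX F fun n hn => ?_
    obtain ⟨h4, h5⟩ := mem_filter.1 hn
    rw [mem_Icc] at h4
    exact ⟨h4.1, (Nat.cast_le.2 h4.2).trans (Nat.floor_le (by linarith)), h5⟩
  have h4 : X ^ (0.612 : ℝ) ≤ X ^ (0.612 + ε : ℝ) := Real.rpow_le_rpow_of_exponent_le hX (by linarith)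
  have h5 : (0 : ℝ) ≤ n₀ := Nat.cast_nonneg _
  nlinarith [mul_le_mul_of_nonneg_left h4 hC0]

end Pool.Agent.V7H35.SqCount
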