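import Pool.Agent.R482.ST.Star

/-!
# Windows of starshaped sequences: properties of natural numbers with a power saving (helper35)
-/

set_option autoImplicit false

namespace Pool.Agent.V7H35.StarNat

open Finset
open Pool.Agent.R482.ST (Starshaped Conv)

open Classical in
/-- if the admissible bad numbers have a power saving, then for almost all `x` all admissible numbers in the windows around
`f n x` are good, for all large `n` -/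
theorem star_good_nat (Adm Good : ℕ → Prop) {f : ℕ → ℝ → ℝ} {a s τ θ : ℝ} (hf : Starshaped a f) (hτ : 0 ≤ τ)
    (hv : Conv a f τ) (hs : 0 ≤ s) (hθ : θ < 1)
    (hP : ∀ ε : ℝ, 0 < ε → ∃ C : ℝ, ∀ X : ℕ, 1 ≤ X →
      ({t : ℕ | 1 ≤ t ∧ t ≤ X ∧ Adm t ∧ ¬ Good t}.ncard : ℝ) ≤ C * (X : ℝ) ^ (s + ε)) :
    ∃ E : Set ℝ, dimH E ≤ ENNReal.ofReal ((s + τ) / (1 - θ)) ∧ ∀ x : ℝ, a < x → x ∉ E → ∀ c : ℝ,
      ∃ n₀ : ℕ, ∀ n : ℕ, n₀ ≤ n → ∀ t : ℕ, Adm t → |(t : ℝ) - f n x| ≤ c * (f n x) ^ θ → 0 < t ∧ Good t := by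
  obtain ⟨E, hE, hE2⟩ := Pool.Agent.R482.ST.win_nat {t | Adm t ∧ ¬ Good t} hf hτ hv hs hθ (fun ε hε => by
    obtain ⟨C, hC⟩ := hP ε hε
    refine ⟨C, fun X hX => le_trans (le_of_eq ?_) (hC X hX)⟩
    congr 1
    rw [← Set.ncard_coe_finset]
    congr 1
    ext t
    simp only [coe_filter, mem_Ioc, Set.mem_ofPred_eq]
    constructor
    · rintro ⟨⟨h1, h2⟩, h3, h4⟩
      exact ⟨h1, h2, h3, h4⟩
    · rintro ⟨h1, h2, h3, h4⟩
      exact ⟨⟨h1, h2⟩, h3, h4⟩)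
  refine ⟨E, hE, fun x hx hxE c => ?_⟩
  obtain ⟨n₀, hn⟩ := hE2 x hx hxE c
  refine ⟨n₀, fun n hn1 t ht h1 => ?_⟩
  obtain ⟨h2, h3⟩ := hn n hn1 t h1
  refine ⟨h2, ?_⟩
  by_contra hcon
  exact h3 ⟨ht, hcon⟩

end Pool.Agent.V7H35.StarNat
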