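import Pool.Agent.V7H35.W32C

/-!
# Few large values from a second moment
-/

set_option autoImplicit false

open Filter Topology

namespace Pool.Agent.V7H35.TwistCount

/-- Chebyshev's inequality on dyadic intervals: `b(n) ≥ 0`, mean square of order `X^{1 + o(1)}` -/
lemma count (b : ℕ → ℝ) (hb : ∀ n, 0 ≤ b n)
    (hM : ∀ ε : ℝ, 0 < ε → ∃ C : ℝ, ∀ X : ℕ, 1 ≤ X → ∑ n ∈ Finset.Icc 1 X, b n ^ 2 ≤ C * (X : ℝ) ^ (1 + ε))
    {β : ℝ} (hβ : 0 < β) (hβ1 : β ≤ 1 / 2) :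
    ∀ ε' : ℝ, 0 < ε' → ∃ C : ℝ, ∀ X : ℝ, 1 ≤ X →
      {n : ℕ | (1 ≤ n ∧ ¬ b n ≤ (n : ℝ) ^ β) ∧ (n : ℝ) ≤ X}.Finite ∧
      ({n : ℕ | (1 ≤ n ∧ ¬ b n ≤ (n : ℝ) ^ β) ∧ (n : ℝ) ≤ X}.ncard : ℝ) ≤ C * X ^ (1 - 2 * β + ε') := by
  intro ε' hε'
  obtain ⟨C₀, hC₀⟩ := hM ε' hε'
  obtain ⟨C, hC⟩ : ∃ C : ℝ, C = |C₀| + 1 := ⟨_, rfl⟩
  have hCpos : 0 < C := by rw [hC]; positivity
  have hs : 0 < 1 - 2 * β + ε' := by linarith
  have hd : ∀ x : ℕ, 1 ≤ x → ({n : ℕ | x / 2 < n ∧ n ≤ x ∧ ¬ b n ≤ (n : ℝ) ^ β}.ncard : ℝ) ≤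
      C * 2 * (x : ℝ) ^ (1 - 2 * β + ε') := by
    intro x hx
    have hx0 : (0 : ℝ) < x := by exact_mod_cast hx
    set S : Set ℕ := {n : ℕ | x / 2 < n ∧ n ≤ x ∧ ¬ b n ≤ (n : ℝ) ^ β} with hS
    have hfin : S.Finite := (Set.finite_Iic x).subset fun n hn => hn.2.1
    have e1 : (S.ncard : ℝ) = (hfin.toFinset.card : ℝ) := by
      rw [Set.ncard_eq_toFinset_card S hfin]
    have hsub : hfin.toFinset ⊆ Finset.Icc 1 x := by
      intro n hn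
      rw [Set.Finite.mem_toFinset] at hn
      exact Finset.mem_Icc.2 ⟨by have := hn.1; omega, hn.2.1⟩
    have hlow : ∀ n ∈ hfin.toFinset, ((x : ℝ) / 2) ^ (2 * β) ≤ b n ^ 2 := by
      intro n hn
      rw [Set.Finite.mem_toFinset] at hn
      obtain ⟨h1, h2, h3⟩ := hn
      rw [not_le] at h3
      have h4 : (x : ℝ) / 2 ≤ n := by
        have h5 : x < 2 * n := by omega
        have h6 : (x : ℝ) < 2 * n := by exact_mod_cast h5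
        linarith
      calc ((x : ℝ) / 2) ^ (2 * β) ≤ (n : ℝ) ^ (2 * β) :=
            Real.rpow_le_rpow (by positivity) h4 (by positivity)
        _ = ((n : ℝ) ^ β) ^ 2 := by
            rw [← Real.rpow_natCast, ← Real.rpow_mul (Nat.cast_nonneg _)]
            congr 1
            push_cast
            ring
        _ ≤ b n ^ 2 := pow_le_pow_left₀ (Real.rpow_nonneg (Nat.cast_nonneg _) _) h3.le 2
    have h7 : (hfin.toFinset.card : ℝ) * ((x : ℝ) / 2) ^ (2 * β) ≤ C * (x : ℝ) ^ (1 + ε') := by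
      calc (hfin.toFinset.card : ℝ) * ((x : ℝ) / 2) ^ (2 * β)
          = ∑ n ∈ hfin.toFinset, ((x : ℝ) / 2) ^ (2 * β) := by
            rw [Finset.sum_const, nsmul_eq_mul]
        _ ≤ ∑ n ∈ hfin.toFinset, b n ^ 2 := Finset.sum_le_sum hlow
        _ ≤ ∑ n ∈ Finset.Icc 1 x, b n ^ 2 :=
            Finset.sum_le_sum_of_subset_of_nonneg hsub fun n _ _ => by positivity
        _ ≤ C₀ * (x : ℝ) ^ (1 + ε') := hC₀ x hx
        _ ≤ C * (x : ℝ) ^ (1 + ε') := mul_le_mul_of_nonneg_right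
            (by rw [hC]; linarith [le_abs_self C₀]) (Real.rpow_nonneg hx0.le _)
    rw [e1]
    have h8 : 0 < ((x : ℝ) / 2) ^ (2 * β) := Real.rpow_pos_of_pos (by positivity) _
    rw [← le_div_iff₀ h8] at h7
    refine h7.trans ?_
    rw [div_le_iff₀ h8, Real.div_rpow hx0.le two_pos.le]
    have h9 : (2 : ℝ) ^ (2 * β) ≤ 2 := by
      calc (2 : ℝ) ^ (2 * β) ≤ 2 ^ (1 : ℝ) :=
            Real.rpow_le_rpow_of_exponent_le one_le_two (by linarith)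
        _ = 2 := Real.rpow_one 2
    have h10 : (0 : ℝ) < 2 ^ (2 * β) := Real.rpow_pos_of_pos two_pos _
    have h11 : (x : ℝ) ^ (1 + ε') = (x : ℝ) ^ (1 - 2 * β + ε') * (x : ℝ) ^ (2 * β) := by
      rw [← Real.rpow_add hx0]
      congr 1
      ring
    rw [h11]
    have h12 : 1 ≤ 2 / (2 : ℝ) ^ (2 * β) := by
      rw [le_div_iff₀ h10]
      linarith
    have h13 : 0 ≤ C * ((x : ℝ) ^ (1 - 2 * β + ε') * (x : ℝ) ^ (2 * β)) := by positivity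
    calc C * ((x : ℝ) ^ (1 - 2 * β + ε') * (x : ℝ) ^ (2 * β))
        = C * ((x : ℝ) ^ (1 - 2 * β + ε') * (x : ℝ) ^ (2 * β)) * 1 := (mul_one _).symm
      _ ≤ C * ((x : ℝ) ^ (1 - 2 * β + ε') * (x : ℝ) ^ (2 * β)) * (2 / (2 : ℝ) ^ (2 * β)) :=
          mul_le_mul_of_nonneg_left h12 h13
      _ = C * 2 * (x : ℝ) ^ (1 - 2 * β + ε') * ((x : ℝ) ^ (2 * β) / 2 ^ (2 * β)) := by ring
  have h1 := W32.card_of_dyadic (fun n => ¬ b n ≤ (n : ℝ) ^ β) (D := C * 2) (s := 1 - 2 * β + ε') (by positivity) hs hd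
  refine ⟨C * 2 / (1 - 2 ^ (-(1 - 2 * β + ε'))), fun X hX => ?_⟩
  have hX0 : 0 ≤ X := by linarith
  have e : {n : ℕ | (1 ≤ n ∧ ¬ b n ≤ (n : ℝ) ^ β) ∧ (n : ℝ) ≤ X} =
      {n : ℕ | 1 ≤ n ∧ n ≤ ⌊X⌋₊ ∧ ¬ b n ≤ (n : ℝ) ^ β} := by
    ext n
    simp only [Set.mem_ofPred_eq, Nat.le_floor_iff hX0]
    tauto
  rw [e]
  refine ⟨(Set.finite_Iic ⌊X⌋₊).subset fun n hn => hn.2.1, (h1 _).trans ?_⟩
  have h2 : (2 : ℝ) ^ (-(1 - 2 * β + ε')) < 1 := Real.rpow_lt_one_of_one_lt_of_neg one_lt_two (by linarith)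
  refine mul_le_mul_of_nonneg_left ?_ (div_nonneg (by positivity) (by linarith))
  exact Real.rpow_le_rpow (Nat.cast_nonneg _) (Nat.floor_le hX0) hs.le

end Pool.Agent.V7H35.TwistCount
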