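import Pool.Agent.Results.MP_788af2_nt.TwistMomentsH45
import Pool.Agent.V7H35.LogEx

/-!
# Few quadratic twists of large rank, from the moments of `2 ^ rank`
-/

set_option autoImplicit false

namespace Pool.Agent.V7H35.TwistFew

open Finset Pool.Agent.V7H35.LogMetric
open Pool.Agent.Results.MP_788af2_nt.TwistMomentsH45 (rk)

/-- For every `A` there are at most `C X / (log X) ^ A` numbers `t ≤ X` for which the rank of the twist by `D(t)` is larger
than `log (log t) / K`. -/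
lemma few_rank {a b : ℤ} (ha : a ≠ 0) (hb : b ≠ 0) (hab : a ≠ b) {m : ℕ} {γ δ : Fin m → ℤ} (hγ : ∀ i, γ i ≠ 0)
    (hδ : ∀ i l, i ≠ l → γ i * δ l ≠ γ l * δ i) {K : ℕ} (hK : 1 ≤ K) :
    Few {t : ℕ | Real.log (Real.log t) < K * rk a b (∏ i, (γ i * t + δ i))} (fun n : ℕ => (n : ℝ)) := by
  classical
  refine few_of fun A => ?_
  have hl2 : 0 < Real.log 2 := Real.log_pos (by norm_num)
  have hKr : (0 : ℝ) < K := by exact_mod_cast hK
  obtain ⟨k, hk⟩ := exists_nat_ge ((A : ℝ) * K / Real.log 2)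
  rw [div_le_iff₀ hl2] at hk
  obtain ⟨C, hC⟩ := Pool.Agent.Results.MP_788af2_nt.TwistMomentsH45.result k (fun _ => a) (fun _ => b) (fun _ => m)
    (fun _ => γ) (fun _ => δ) (fun _ => ha) (fun _ => hb) (fun _ => hab) (fun _ => hγ) (fun _ => hδ)
  refine ⟨2 ^ A * |C|, fun X hX => ?_⟩
  have hX0 : 0 < X := (Real.exp_pos 2).trans_le hX
  have hlog : 2 ≤ Real.log X := (Real.le_log_iff_exp_le hX0).2 hX
  have hX1 : 1 ≤ X := by
    have := Real.add_one_le_exp (2 : ℝ)
    linarith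
  set N : ℕ := ⌊X⌋₊ with hN
  have hN1 : 1 ≤ N := Nat.le_floor (by simpa using hX1)
  have hNX : (N : ℝ) ≤ X := Nat.floor_le hX0.le
  set g : ℤ → ℝ := fun t => ∏ _i : Fin k, (2 : ℝ) ^ rk a b (∏ i, (γ i * t + δ i)) with hg
  have hg0 : ∀ t, 0 ≤ g t := fun t => prod_nonneg fun _ _ => by positivity
  have hmom : ∑ t ∈ Icc (-(N : ℤ)) N, g t ≤ C * N := hC N hN1
  have hfin : {t : ℕ | t ∈ {t : ℕ | Real.log (Real.log t) < K * rk a b (∏ i, (γ i * t + δ i))} ∧
      Real.sqrt X < t ∧ (t : ℝ) ≤ X}.Finite := (Set.finite_Iic ⌊X⌋₊).subset fun n hn => Nat.le_floor hn.2.2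
  set F : Finset ℕ := hfin.toFinset with hF
  have hL0 : 1 ≤ Real.log X / 2 := by linarith
  have hlower : ∀ t ∈ F, (Real.log X / 2) ^ A ≤ g (t : ℤ) := by
    intro t ht
    obtain ⟨h1, h2, h3⟩ := hfin.mem_toFinset.1 ht
    have h1' : Real.log (Real.log t) < K * rk a b (∏ i, (γ i * (t : ℤ) + δ i)) := h1
    set r : ℕ := rk a b (∏ i, (γ i * (t : ℤ) + δ i)) with hr
    have hs0 : 0 < Real.sqrt X := Real.sqrt_pos.2 hX0
    have h4 : Real.log X / 2 ≤ Real.log t := by
      have h5 := Real.log_le_log hs0 h2.le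
      rwa [Real.log_sqrt hX0.le] at h5
    have h5 : Real.log (Real.log X / 2) ≤ Real.log (Real.log t) := Real.log_le_log (by linarith) h4
    set L : ℝ := Real.log (Real.log X / 2) with hL
    have hL1 : 0 ≤ L := Real.log_nonneg hL0
    have e1 : (Real.log X / 2) ^ A = Real.exp (A * L) := by
      rw [Real.exp_nat_mul, hL, Real.exp_log (by linarith)]
    have e2 : g (t : ℤ) = Real.exp ((k : ℝ) * ((r : ℝ) * Real.log 2)) := by
      rw [hg]
      simp only [prod_const, card_univ, Fintype.card_fin]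
      rw [Real.exp_nat_mul, Real.exp_nat_mul, Real.exp_log (by norm_num)]
    rw [e1, e2, Real.exp_le_exp]
    have h6 : L ≤ K * r := by linarith
    have h7 : (A : ℝ) * L ≤ A * (K * r) := mul_le_mul_of_nonneg_left h6 (Nat.cast_nonneg A)
    have h8 : (A : ℝ) * K * r ≤ k * Real.log 2 * r := mul_le_mul_of_nonneg_right hk (Nat.cast_nonneg r)
    nlinarith
  have hsum : (F.card : ℝ) * (Real.log X / 2) ^ A ≤ C * N := by
    calc (F.card : ℝ) * (Real.log X / 2) ^ A = ∑ _t ∈ F, (Real.log X / 2) ^ A := by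
          rw [sum_const, nsmul_eq_mul]
      _ ≤ ∑ t ∈ F, g (t : ℤ) := sum_le_sum hlower
      _ = ∑ t ∈ F.image (fun t : ℕ => (t : ℤ)), g t := by
          rw [sum_image]
          intro x _ y _ hxy
          exact Nat.cast_injective hxy
      _ ≤ ∑ t ∈ Icc (-(N : ℤ)) N, g t := by
          refine sum_le_sum_of_subset_of_nonneg ?_ fun t _ _ => hg0 t
          intro t ht
          obtain ⟨n, hn, rfl⟩ := mem_image.1 ht
          obtain ⟨-, -, h3⟩ := hfin.mem_toFinset.1 hn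
          have h4 : n ≤ N := Nat.le_floor h3
          rw [mem_Icc]
          constructor <;> omega
      _ ≤ C * N := hmom
  have hcard : ({t : ℕ | t ∈ {t : ℕ | Real.log (Real.log t) < K * rk a b (∏ i, (γ i * t + δ i))} ∧
      Real.sqrt X < t ∧ (t : ℝ) ≤ X}.ncard : ℝ) = F.card := by
    rw [Set.ncard_eq_toFinset_card _ hfin]
  rw [hcard, le_div_iff₀ (by positivity)]
  have h9 : C * N ≤ |C| * X := by
    calc C * N ≤ |C| * N := mul_le_mul_of_nonneg_right (le_abs_self C) (Nat.cast_nonneg N)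
      _ ≤ |C| * X := mul_le_mul_of_nonneg_left hNX (abs_nonneg C)
  have h10 : (Real.log X / 2) ^ A * 2 ^ A = Real.log X ^ A := by
    rw [← mul_pow, div_mul_cancel₀ _ (by norm_num)]
  calc (F.card : ℝ) * Real.log X ^ A = ((F.card : ℝ) * (Real.log X / 2) ^ A) * 2 ^ A := by
        rw [← h10]
        ring
    _ ≤ (|C| * X) * 2 ^ A := mul_le_mul_of_nonneg_right (hsum.trans h9) (by positivity)
    _ = 2 ^ A * |C| * X := by ring

end Pool.Agent.V7H35.TwistFew
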