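import Mathlib

/-!
# Mean squares of the coefficients of an absolutely convergent trigonometric series
-/

set_option autoImplicit false

open MeasureTheory Filter Topology

namespace Pool.Agent.V7H35.W32

local instance : Fact ((0 : ℝ) < 1) := ⟨one_pos⟩

lemma l2_le_sup (c : ℕ → ℂ) (L : ℕ) (M : ℝ) (hM : 0 ≤ M)
    (h : ∀ x : ℝ, ‖∑ n ∈ Finset.range L, c n * Complex.exp (2 * Real.pi * Complex.I * n * x)‖ ≤ M) :
    ∑ n ∈ Finset.range L, ‖c n‖ ^ 2 ≤ M ^ 2 := by
  classical
  set g : C(AddCircle (1 : ℝ), ℂ) := ∑ n ∈ Finset.range L, c n • fourier (n : ℤ) with hg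
  have h1 : ‖g‖ ≤ M := by
    rw [ContinuousMap.norm_le _ hM]
    intro x
    obtain ⟨x, rfl⟩ := QuotientAddGroup.mk_surjective x
    have e : g (x : AddCircle (1 : ℝ)) =
        ∑ n ∈ Finset.range L, c n * Complex.exp (2 * Real.pi * Complex.I * n * x) := by
      rw [hg, ContinuousMap.coe_sum, Finset.sum_apply]
      refine Finset.sum_congr rfl fun n _ => ?_
      rw [ContinuousMap.coe_smul, Pi.smul_apply, smul_eq_mul, fourier_coe_apply]
      congr 2
      push_cast
      ring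
    exact (congrArg norm e).le.trans (h x)
  have h2 : ‖ContinuousMap.toLp (E := ℂ) 2 (AddCircle.haarAddCircle (T := (1 : ℝ))) ℂ g‖ ≤ ‖g‖ := by
    refine (ContinuousLinearMap.le_opNorm _ _).trans ?_
    refine mul_le_of_le_one_left (norm_nonneg _) ?_
    refine (ContinuousMap.toLp_norm_le (AddCircle.haarAddCircle (T := (1 : ℝ)))).trans ?_
    have hm : measureUnivNNReal (AddCircle.haarAddCircle (T := (1 : ℝ))) = 1 := by
      rw [← ENNReal.coe_inj, coe_measureUnivNNReal, measure_univ, ENNReal.coe_one]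
    rw [hm]
    simp
  have h3 : ContinuousMap.toLp (E := ℂ) 2 (AddCircle.haarAddCircle (T := (1 : ℝ))) ℂ g =
      ∑ n ∈ Finset.range L, c n • (fourierLp 2 (n : ℤ) : Lp ℂ 2 (AddCircle.haarAddCircle (T := (1 : ℝ)))) := by
    rw [hg, map_sum]
    refine Finset.sum_congr rfl fun n _ => ?_
    rw [map_smul]
  have ho : Orthonormal ℂ (fun n : ℕ => (fourierLp 2 (n : ℤ) : Lp ℂ 2 (AddCircle.haarAddCircle (T := (1 : ℝ))))) :=
    (orthonormal_fourier (T := (1 : ℝ))).comp (fun n : ℕ => (n : ℤ)) Nat.cast_injective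
  have h4 := ho.inner_sum c c (Finset.range L)
  have h5 : ‖∑ n ∈ Finset.range L,
      c n • (fourierLp 2 (n : ℤ) : Lp ℂ 2 (AddCircle.haarAddCircle (T := (1 : ℝ))))‖ ^ 2 =
      ∑ n ∈ Finset.range L, ‖c n‖ ^ 2 := by
    have h6 : ((‖∑ n ∈ Finset.range L,
      c n • (fourierLp 2 (n : ℤ) : Lp ℂ 2 (AddCircle.haarAddCircle (T := (1 : ℝ))))‖ ^ 2 : ℝ) : ℂ) =
      ((∑ n ∈ Finset.range L, ‖c n‖ ^ 2 : ℝ) : ℂ) := by
      rw [Complex.ofReal_pow, ← Complex.coe_algebraMap, ← inner_self_eq_norm_sq_to_K (𝕜 := ℂ)]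
      rw [h4, map_sum]
      refine Finset.sum_congr rfl fun n _ => ?_
      rw [mul_comm, Complex.mul_conj, Complex.normSq_eq_norm_sq]
      rfl
    exact_mod_cast h6
  rw [← h5, ← h3]
  exact pow_le_pow_left₀ (norm_nonneg _) (h2.trans h1) 2

/-- Bessel's inequality for an absolutely convergent trigonometric series. -/
lemma sum_sq_le (c : ℕ → ℂ) (hs : Summable fun n => ‖c n‖) (B : ℝ) (hB0 : 0 ≤ B)
    (hB : ∀ x : ℝ, ‖∑' n : ℕ, c n * Complex.exp (2 * Real.pi * Complex.I * n * x)‖ ≤ B) (K : ℕ) :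
    ∑ n ∈ Finset.range K, ‖c n‖ ^ 2 ≤ B ^ 2 := by
  set tail : ℕ → ℝ := fun L => ∑' n : ℕ, ‖c (n + L)‖ with htail
  have ht : Tendsto tail atTop (𝓝 0) := tendsto_sum_nat_add fun n => ‖c n‖
  have ht0 : ∀ L, 0 ≤ tail L := fun L => tsum_nonneg fun n => norm_nonneg _
  have he : ∀ (n : ℕ) (x : ℝ), ‖Complex.exp (2 * Real.pi * Complex.I * n * x)‖ = 1 := by
    intro n x
    have : (2 * Real.pi * Complex.I * n * x : ℂ) = ((2 * Real.pi * n * x : ℝ) : ℂ) * Complex.I := by
      push_cast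
      ring
    rw [this, Complex.norm_exp_ofReal_mul_I]
  have key : ∀ L : ℕ, K ≤ L → ∑ n ∈ Finset.range K, ‖c n‖ ^ 2 ≤ (B + tail L) ^ 2 := by
    intro L hKL
    refine le_trans ?_ (l2_le_sup c L (B + tail L) (add_nonneg hB0 (ht0 L)) fun x => ?_)
    · exact Finset.sum_le_sum_of_subset_of_nonneg (Finset.range_mono hKL) fun n _ _ => by positivity
    · have hsum : Summable fun n : ℕ => c n * Complex.exp (2 * Real.pi * Complex.I * n * x) := by
        refine Summable.of_norm ?_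
        refine hs.congr fun n => ?_
        rw [norm_mul, he, mul_one]
      have e := hsum.sum_add_tsum_nat_add L
      have e2 : ∑ n ∈ Finset.range L, c n * Complex.exp (2 * Real.pi * Complex.I * n * x) =
          ∑' n : ℕ, c n * Complex.exp (2 * Real.pi * Complex.I * n * x) -
            ∑' n : ℕ, c (n + L) * Complex.exp (2 * Real.pi * Complex.I * (n + L : ℕ) * x) := by
        rw [← e]
        ring
      rw [e2]
      refine (norm_sub_le _ _).trans (add_le_add (hB x) ?_)
      have hs2 : Summable fun n : ℕ => ‖c (n + L) * Complex.exp (2 * Real.pi * Complex.I * (n + L : ℕ) * x)‖ := by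
        refine ((summable_nat_add_iff L).2 hs).congr fun n => ?_
        rw [norm_mul, he, mul_one]
      refine (norm_tsum_le_tsum_norm hs2).trans (le_of_eq ?_)
      refine tsum_congr fun n => ?_
      rw [norm_mul, he, mul_one]
  have hlim : Tendsto (fun L => (B + tail L) ^ 2) atTop (𝓝 (B ^ 2)) := by
    simpa using (ht.const_add B).pow 2
  exact ge_of_tendsto hlim ((eventually_ge_atTop K).mono key)

end Pool.Agent.V7H35.W32
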