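import Pool.Agent.V7H35.W32A

/-!
# Cusp forms of weight `3/2`: boundedness, mean squares of the coefficients, few large coefficients
-/

set_option autoImplicit false

open MeasureTheory Filter Topology UpperHalfPlane CongruenceSubgroup
open scoped MatrixGroups Manifold

namespace Pool.Agent.V7H35.W32

/-- `ε_d` -/
noncomputable def eps (d : ℤ) : ℂ := if d % 4 = 1 then 1 else Complex.I

/-- the quadratic residue symbol `(c / d)` in the extended sense of Shimura -/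
def sym (c d : ℤ) : ℤ := if c < 0 ∧ d < 0 then -jacobiSym c d.natAbs else jacobiSym c d.natAbs

/-- the theta multiplier `j(γ, z) = ε_d⁻¹ (c / d) (c z + d)^{1/2}` -/
noncomputable def j (γ : SL(2, ℤ)) (z : ℍ) : ℂ :=
  (eps (γ 1 1))⁻¹ * (sym (γ 1 0) (γ 1 1) : ℂ) * ((γ 1 0 : ℂ) * (z : ℂ) + (γ 1 1 : ℂ)) ^ (1 / 2 : ℂ)

/-- `f` is a cusp form of weight `3/2` on `Γ_0(N)` with the character `χ`, in the normalisation of Shimura, and the `a n`,
`n ≥ 1`, are its Fourier coefficients: `f` is holomorphic, `f(γ z) = χ(d) j(γ, z)³ f(z)` for `γ` in `Γ_0(N)`, the function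
`y^{3/4} |f(z)|` tends to zero at every cusp, and `f(z) = ∑ a(n) e(n z)`, the sum over `n ≥ 1`. -/
structure IsCuspForm (N : ℕ) (χ : DirichletCharacter ℂ N) (f : ℍ → ℂ) (a : ℕ → ℂ) : Prop where
  /-- `f` is holomorphic -/
  holomorphic : MDifferentiable 𝓘(ℂ) 𝓘(ℂ) f
  /-- the transformation law -/
  transform : ∀ γ ∈ Gamma0 N, ∀ z : ℍ, f (γ • z) = χ ((γ 1 1 : ℤ) : ZMod N) * j γ z ^ 3 * f z
  /-- `f` vanishes at the cusps -/
  cusps : ∀ g : SL(2, ℤ), Tendsto (fun z : ℍ => (g • z).im ^ (3 / 4 : ℝ) * ‖f (g • z)‖) atImInfty (𝓝 0)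
  /-- there is no constant term -/
  zero : a 0 = 0
  /-- the Fourier series -/
  series : ∀ z : ℍ, HasSum (fun n : ℕ => a n * Complex.exp (2 * Real.pi * Complex.I * n * (z : ℂ))) (f z)

lemma norm_eps (d : ℤ) : ‖eps d‖ = 1 := by
  unfold eps
  split_ifs <;> simp

lemma norm_sym (c d : ℤ) : ‖(sym c d : ℂ)‖ ≤ 1 := by
  have h : ∀ n : ℕ, ‖((jacobiSym c n : ℤ) : ℂ)‖ ≤ 1 := by
    intro n
    rcases jacobiSym.trichotomy c n with h | h | h <;> simp [h]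
  unfold sym
  split_ifs
  · rw [Int.cast_neg, norm_neg]
    exact h _
  · exact h _

lemma norm_j (γ : SL(2, ℤ)) (z : ℍ) :
    ‖j γ z‖ ^ 3 ≤ ‖(γ 1 0 : ℂ) * (z : ℂ) + (γ 1 1 : ℂ)‖ ^ (3 / 2 : ℝ) := by
  set w : ℂ := (γ 1 0 : ℂ) * (z : ℂ) + (γ 1 1 : ℂ) with hw
  have h1 : ‖w ^ (1 / 2 : ℂ)‖ = ‖w‖ ^ (1 / 2 : ℝ) := by
    have := Complex.norm_cpow_real w (1 / 2)
    rw [← this]
    congr 2
    push_cast
    rfl
  have h2 : ‖j γ z‖ ≤ ‖w‖ ^ (1 / 2 : ℝ) := by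
    unfold j
    rw [norm_mul, norm_mul, norm_inv, norm_eps, inv_one, one_mul, ← hw, h1]
    exact mul_le_of_le_one_left (Real.rpow_nonneg (norm_nonneg _) _) (norm_sym _ _)
  calc ‖j γ z‖ ^ 3 ≤ (‖w‖ ^ (1 / 2 : ℝ)) ^ 3 := pow_le_pow_left₀ (norm_nonneg _) h2 3
    _ = ‖w‖ ^ (3 / 2 : ℝ) := by
        rw [← Real.rpow_natCast, ← Real.rpow_mul (norm_nonneg _)]
        norm_num

variable {N : ℕ} {χ : DirichletCharacter ℂ N} {f : ℍ → ℂ} {a : ℕ → ℂ}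

lemma IsCuspForm.le (h : IsCuspForm N χ f a) (γ : SL(2, ℤ)) (hγ : γ ∈ Gamma0 N) (z : ℍ) :
    (γ • z).im ^ (3 / 4 : ℝ) * ‖f (γ • z)‖ ≤ z.im ^ (3 / 4 : ℝ) * ‖f z‖ := by
  set w : ℂ := (γ 1 0 : ℂ) * (z : ℂ) + (γ 1 1 : ℂ) with hw
  have hw0 : w ≠ 0 := by
    have := UpperHalfPlane.denom_ne_zero γ z
    rwa [ModularGroup.denom_apply] at this
  have hn : 0 < ‖w‖ := norm_pos_iff.2 hw0
  have him : (γ • z).im = z.im / ‖w‖ ^ 2 := by
    rw [ModularGroup.im_smul_eq_div_normSq, ModularGroup.denom_apply, Complex.normSq_eq_norm_sq]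
  have h1 : (γ • z).im ^ (3 / 4 : ℝ) = z.im ^ (3 / 4 : ℝ) / ‖w‖ ^ (3 / 2 : ℝ) := by
    rw [him, Real.div_rpow z.im_pos.le (by positivity), ← Real.rpow_natCast, ← Real.rpow_mul hn.le]
    norm_num
  have h2 : ‖f (γ • z)‖ ≤ ‖w‖ ^ (3 / 2 : ℝ) * ‖f z‖ := by
    rw [h.transform γ hγ z, norm_mul, norm_mul, norm_pow]
    refine mul_le_mul_of_nonneg_right ?_ (norm_nonneg _)
    calc ‖χ ((γ 1 1 : ℤ) : ZMod N)‖ * ‖j γ z‖ ^ 3 ≤ 1 * ‖w‖ ^ (3 / 2 : ℝ) :=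
          mul_le_mul (DirichletCharacter.norm_le_one χ _) (norm_j γ z) (by positivity) zero_le_one
      _ = _ := one_mul _
  have h3 : 0 < ‖w‖ ^ (3 / 2 : ℝ) := Real.rpow_pos_of_pos hn _
  rw [h1]
  calc z.im ^ (3 / 4 : ℝ) / ‖w‖ ^ (3 / 2 : ℝ) * ‖f (γ • z)‖
      ≤ z.im ^ (3 / 4 : ℝ) / ‖w‖ ^ (3 / 2 : ℝ) * (‖w‖ ^ (3 / 2 : ℝ) * ‖f z‖) :=
        mul_le_mul_of_nonneg_left h2 (div_nonneg (Real.rpow_nonneg z.im_pos.le _) h3.le)
    _ = z.im ^ (3 / 4 : ℝ) * ‖f z‖ := by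
        field_simp

/-- `y^{3/4} |f(z)|` is bounded -/
lemma IsCuspForm.bounded [NeZero N] (h : IsCuspForm N χ f a) :
    ∃ M : ℝ, 0 < M ∧ ∀ z : ℍ, ‖f z‖ ≤ M * z.im ^ (-(3 / 4) : ℝ) := by
  have hinv : ∀ g ∈ Gamma0 N, ∀ z : ℍ,
      (g • z).im ^ (3 / 4 : ℝ) * ‖f (g • z)‖ = z.im ^ (3 / 4 : ℝ) * ‖f z‖ := by
    intro g hg z
    refine le_antisymm (h.le g hg z) ?_
    have h1 := h.le g⁻¹ (inv_mem hg) (g • z)
    rwa [inv_smul_smul] at h1
  have hcont : Continuous fun z : ℍ => z.im ^ (3 / 4 : ℝ) * ‖f z‖ :=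
    (UpperHalfPlane.continuous_im.rpow_const fun z => Or.inl z.im_ne_zero).mul
      h.holomorphic.continuous.norm
  obtain ⟨C, hC⟩ := ModularGroup.exists_bound_of_subgroup_invariant_of_isBigO (Γ := Gamma0 N)
    (f := fun z : ℍ => z.im ^ (3 / 4 : ℝ) * ‖f z‖) hcont (t := 0) le_rfl (fun g => by
      simp only [Real.rpow_zero]
      exact (h.cusps g).isBigO_one ℝ) hinv
  refine ⟨|C| + 1, by positivity, fun z => ?_⟩
  have h1 := hC z
  rw [Real.rpow_zero, mul_one, Real.norm_of_nonneg (mul_nonneg (Real.rpow_nonneg z.im_pos.le _)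
    (norm_nonneg _))] at h1
  have h2 : 0 < z.im ^ (3 / 4 : ℝ) := Real.rpow_pos_of_pos z.im_pos _
  rw [Real.rpow_neg z.im_pos.le, ← div_eq_mul_inv, le_div_iff₀ h2]
  calc ‖f z‖ * z.im ^ (3 / 4 : ℝ) = z.im ^ (3 / 4 : ℝ) * ‖f z‖ := mul_comm _ _
    _ ≤ C := h1
    _ ≤ |C| + 1 := (le_abs_self C).trans (by linarith)

/-- the mean square of the coefficients -/
lemma IsCuspForm.sum_sq [NeZero N] (h : IsCuspForm N χ f a) :
    ∃ C : ℝ, 0 < C ∧ ∀ X : ℕ, 1 ≤ X →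
      ∑ n ∈ Finset.range (X + 1), ‖a n‖ ^ 2 ≤ C * (X : ℝ) ^ (3 / 2 : ℝ) := by
  obtain ⟨M, hM, hb⟩ := h.bounded
  refine ⟨M ^ 2 * Real.exp (4 * Real.pi), by positivity, fun X hX => ?_⟩
  have hX0 : (0 : ℝ) < X := by exact_mod_cast hX
  set y : ℝ := 1 / X with hy
  have hy0 : 0 < y := by positivity
  set c : ℕ → ℂ := fun n => a n * Complex.exp ((-(2 * Real.pi * n * y) : ℝ) : ℂ) with hc
  have hz : ∀ x : ℝ, 0 < ((x : ℂ) + y * Complex.I).im := fun x => by simpa using hy0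
  have hser : ∀ x : ℝ, HasSum (fun n : ℕ => c n * Complex.exp (2 * Real.pi * Complex.I * n * x))
      (f ⟨(x : ℂ) + y * Complex.I, hz x⟩) := by
    intro x
    have h1 := h.series ⟨(x : ℂ) + y * Complex.I, hz x⟩
    have e : (fun n : ℕ => c n * Complex.exp (2 * Real.pi * Complex.I * n * x)) =
        fun n : ℕ => a n * Complex.exp (2 * Real.pi * Complex.I * n *
          ((⟨(x : ℂ) + y * Complex.I, hz x⟩ : ℍ) : ℂ)) := by
      funext n
      rw [hc]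
      simp only
      rw [mul_assoc, ← Complex.exp_add]
      congr 2
      show ((-(2 * Real.pi * n * y) : ℝ) : ℂ) + 2 * Real.pi * Complex.I * n * x =
        2 * Real.pi * Complex.I * n * ((x : ℂ) + y * Complex.I)
      push_cast
      have hI : Complex.I * Complex.I = -1 := Complex.I_mul_I
      linear_combination (-(2 * (Real.pi : ℂ) * n * y)) * hI
    rw [e]
    exact h1
  have hs : Summable fun n => ‖c n‖ := by
    have h1 := (hser 0).summable.norm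
    simpa using h1
  have hB : ∀ x : ℝ, ‖∑' n : ℕ, c n * Complex.exp (2 * Real.pi * Complex.I * n * x)‖ ≤
      M * y ^ (-(3 / 4) : ℝ) := by
    intro x
    rw [(hser x).tsum_eq]
    have h1 := hb ⟨(x : ℂ) + y * Complex.I, hz x⟩
    have h2 : (⟨(x : ℂ) + y * Complex.I, hz x⟩ : ℍ).im = y := by
      show ((x : ℂ) + y * Complex.I).im = y
      simp
    rwa [h2] at h1
  have hmain := sum_sq_le c hs (M * y ^ (-(3 / 4) : ℝ)) (by positivity) hB (X + 1)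
  have h1 : ∀ n ∈ Finset.range (X + 1), ‖a n‖ ^ 2 ≤ Real.exp (4 * Real.pi) * ‖c n‖ ^ 2 := by
    intro n hn
    have hnX : (n : ℝ) ≤ X := by exact_mod_cast Nat.lt_succ_iff.1 (Finset.mem_range.1 hn)
    have h2 : ‖c n‖ = ‖a n‖ * Real.exp (-(2 * Real.pi * n * y)) := by
      rw [hc]
      simp only
      rw [norm_mul, ← Complex.ofReal_exp, Complex.norm_real, Real.norm_of_nonneg (Real.exp_pos _).le]
    have h3 : (n : ℝ) * y ≤ 1 := by
      rw [hy, mul_one_div, div_le_one hX0]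
      exact hnX
    have h4 : 1 ≤ Real.exp (4 * Real.pi) * Real.exp (-(2 * Real.pi * n * y)) ^ 2 := by
      rw [← Real.exp_nat_mul, ← Real.exp_add]
      apply Real.one_le_exp
      push_cast
      nlinarith [Real.pi_pos]
    rw [h2, mul_pow]
    calc ‖a n‖ ^ 2 = ‖a n‖ ^ 2 * 1 := (mul_one _).symm
      _ ≤ ‖a n‖ ^ 2 * (Real.exp (4 * Real.pi) * Real.exp (-(2 * Real.pi * n * y)) ^ 2) :=
          mul_le_mul_of_nonneg_left h4 (by positivity)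
      _ = _ := by ring
  calc ∑ n ∈ Finset.range (X + 1), ‖a n‖ ^ 2
      ≤ ∑ n ∈ Finset.range (X + 1), Real.exp (4 * Real.pi) * ‖c n‖ ^ 2 := Finset.sum_le_sum h1
    _ = Real.exp (4 * Real.pi) * ∑ n ∈ Finset.range (X + 1), ‖c n‖ ^ 2 := by rw [Finset.mul_sum]
    _ ≤ Real.exp (4 * Real.pi) * (M * y ^ (-(3 / 4) : ℝ)) ^ 2 :=
        mul_le_mul_of_nonneg_left hmain (Real.exp_pos _).le
    _ = M ^ 2 * Real.exp (4 * Real.pi) * (X : ℝ) ^ (3 / 2 : ℝ) := by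
        have h5 : (y ^ (-(3 / 4) : ℝ)) ^ 2 = (X : ℝ) ^ (3 / 2 : ℝ) := by
          rw [hy, one_div, Real.inv_rpow hX0.le, ← Real.rpow_neg hX0.le, neg_neg, ← Real.rpow_natCast,
            ← Real.rpow_mul hX0.le]
          norm_num
        rw [mul_pow, h5]
        ring

end Pool.Agent.V7H35.W32
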