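import Pool.Agent.V7H35.W32B

/-!
# Cusp forms of weight `3/2`: few large coefficients
-/

set_option autoImplicit false

open MeasureTheory Filter Topology UpperHalfPlane CongruenceSubgroup

namespace Pool.Agent.V7H35.W32

/-- halving -/
lemma card_of_dyadic (P : ℕ → Prop) {D s : ℝ} (hD : 0 ≤ D) (hs : 0 < s)
    (h : ∀ x : ℕ, 1 ≤ x → ({n : ℕ | x / 2 < n ∧ n ≤ x ∧ P n}.ncard : ℝ) ≤ D * (x : ℝ) ^ s) :
    ∀ x : ℕ, ({n : ℕ | 1 ≤ n ∧ n ≤ x ∧ P n}.ncard : ℝ) ≤ D / (1 - 2 ^ (-s)) * (x : ℝ) ^ s := by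
  have h2 : (2 : ℝ) ^ (-s) < 1 := Real.rpow_lt_one_of_one_lt_of_neg one_lt_two (by linarith)
  have h20 : (0 : ℝ) < 2 ^ (-s) := Real.rpow_pos_of_pos two_pos _
  have hd : 0 < 1 - (2 : ℝ) ^ (-s) := by linarith
  set K := D / (1 - 2 ^ (-s)) with hK
  have hK0 : 0 ≤ K := div_nonneg hD hd.le
  have hKD : K * 2 ^ (-s) + D = K := by
    rw [hK]
    field_simp
    ring
  intro x
  induction x using Nat.strong_induction_on with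
  | _ x ih =>
    rcases Nat.eq_zero_or_pos x with rfl | hx
    · have e : {n : ℕ | 1 ≤ n ∧ n ≤ 0 ∧ P n} = ∅ := by
        ext n
        simp only [Set.mem_ofPred_eq, Set.mem_empty_iff_false, iff_false]
        omega
      rw [e, Set.ncard_empty]
      simp [Real.zero_rpow hs.ne']
    · have h3 := ih (x / 2) (Nat.div_lt_self hx one_lt_two)
      have hsub : {n : ℕ | 1 ≤ n ∧ n ≤ x ∧ P n} ⊆
          {n : ℕ | 1 ≤ n ∧ n ≤ x / 2 ∧ P n} ∪ {n : ℕ | x / 2 < n ∧ n ≤ x ∧ P n} := by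
        rintro n ⟨h4, h5, h6⟩
        rcases Nat.lt_or_ge (x / 2) n with h7 | h7
        · exact Or.inr ⟨h7, h5, h6⟩
        · exact Or.inl ⟨h4, h7, h6⟩
      have hfin : ({n : ℕ | 1 ≤ n ∧ n ≤ x / 2 ∧ P n} ∪ {n : ℕ | x / 2 < n ∧ n ≤ x ∧ P n}).Finite := by
        refine (Set.finite_Iic x).subset ?_
        rintro n (⟨-, h5, -⟩ | ⟨-, h5, -⟩)
        · exact h5.trans (Nat.div_le_self x 2)
        · exact h5
      have h8 : ({n : ℕ | 1 ≤ n ∧ n ≤ x ∧ P n}.ncard : ℝ) ≤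
          ({n : ℕ | 1 ≤ n ∧ n ≤ x / 2 ∧ P n}.ncard : ℝ) +
            ({n : ℕ | x / 2 < n ∧ n ≤ x ∧ P n}.ncard : ℝ) := by
        exact_mod_cast (Set.ncard_le_ncard hsub hfin).trans (Set.ncard_union_le _ _)
      have h9 : (((x / 2 : ℕ) : ℝ)) ^ s ≤ 2 ^ (-s) * (x : ℝ) ^ s := by
        have h10 : ((x / 2 : ℕ) : ℝ) ≤ (x : ℝ) / 2 := Nat.cast_div_le
        calc (((x / 2 : ℕ) : ℝ)) ^ s ≤ ((x : ℝ) / 2) ^ s :=
              Real.rpow_le_rpow (Nat.cast_nonneg _) h10 hs.le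
          _ = 2 ^ (-s) * (x : ℝ) ^ s := by
              rw [Real.div_rpow (Nat.cast_nonneg _) two_pos.le, Real.rpow_neg two_pos.le]
              ring
      have h11 := h x hx
      calc ({n : ℕ | 1 ≤ n ∧ n ≤ x ∧ P n}.ncard : ℝ)
          ≤ K * (((x / 2 : ℕ) : ℝ)) ^ s + D * (x : ℝ) ^ s := h8.trans (add_le_add h3 h11)
        _ ≤ K * (2 ^ (-s) * (x : ℝ) ^ s) + D * (x : ℝ) ^ s :=
            add_le_add (mul_le_mul_of_nonneg_left h9 hK0) le_rfl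
        _ = (K * 2 ^ (-s) + D) * (x : ℝ) ^ s := by ring
        _ = K * (x : ℝ) ^ s := by rw [hKD]

variable {N : ℕ} {χ : DirichletCharacter ℂ N} {f : ℍ → ℂ} {a : ℕ → ℂ}

lemma dyadic [NeZero N] (h : IsCuspForm N χ f a) {ε : ℝ} (hε : 0 < ε) (hε1 : ε ≤ 1 / 2) :
    ∃ D : ℝ, 0 < D ∧ ∀ x : ℕ, 1 ≤ x →
      ({n : ℕ | x / 2 < n ∧ n ≤ x ∧ ¬ ‖a n‖ ≤ (n : ℝ) ^ (1 / 4 + ε)}.ncard : ℝ) ≤
        D * (x : ℝ) ^ (1 - 2 * ε) := by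
  obtain ⟨C, hC, hsq⟩ := h.sum_sq
  refine ⟨C * 4, by positivity, fun x hx => ?_⟩
  have hx0 : (0 : ℝ) < x := by exact_mod_cast hx
  set S : Set ℕ := {n : ℕ | x / 2 < n ∧ n ≤ x ∧ ¬ ‖a n‖ ≤ (n : ℝ) ^ (1 / 4 + ε)} with hS
  have hfin : S.Finite := (Set.finite_Iic x).subset fun n hn => hn.2.1
  have e1 : (S.ncard : ℝ) = (hfin.toFinset.card : ℝ) := by
    rw [Set.ncard_eq_toFinset_card S hfin]
  have hsub : hfin.toFinset ⊆ Finset.range (x + 1) := by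
    intro n hn
    rw [Set.Finite.mem_toFinset] at hn
    exact Finset.mem_range.2 (Nat.lt_succ_of_le hn.2.1)
  have hlow : ∀ n ∈ hfin.toFinset, ((x : ℝ) / 2) ^ (1 / 2 + 2 * ε) ≤ ‖a n‖ ^ 2 := by
    intro n hn
    rw [Set.Finite.mem_toFinset] at hn
    obtain ⟨h1, h2, h3⟩ := hn
    rw [not_le] at h3
    have h4 : (x : ℝ) / 2 ≤ n := by
      have h5 : x < 2 * n := by omega
      have h6 : (x : ℝ) < 2 * n := by exact_mod_cast h5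
      linarith
    calc ((x : ℝ) / 2) ^ (1 / 2 + 2 * ε) ≤ (n : ℝ) ^ (1 / 2 + 2 * ε) :=
          Real.rpow_le_rpow (by positivity) h4 (by positivity)
      _ = ((n : ℝ) ^ (1 / 4 + ε)) ^ 2 := by
          rw [← Real.rpow_natCast, ← Real.rpow_mul (Nat.cast_nonneg _)]
          congr 1
          push_cast
          ring
      _ ≤ ‖a n‖ ^ 2 := pow_le_pow_left₀ (Real.rpow_nonneg (Nat.cast_nonneg _) _) h3.le 2
  have h7 : (hfin.toFinset.card : ℝ) * ((x : ℝ) / 2) ^ (1 / 2 + 2 * ε) ≤ C * (x : ℝ) ^ (3 / 2 : ℝ) := by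
    calc (hfin.toFinset.card : ℝ) * ((x : ℝ) / 2) ^ (1 / 2 + 2 * ε)
        = ∑ n ∈ hfin.toFinset, ((x : ℝ) / 2) ^ (1 / 2 + 2 * ε) := by
          rw [Finset.sum_const, nsmul_eq_mul]
      _ ≤ ∑ n ∈ hfin.toFinset, ‖a n‖ ^ 2 := Finset.sum_le_sum hlow
      _ ≤ ∑ n ∈ Finset.range (x + 1), ‖a n‖ ^ 2 :=
          Finset.sum_le_sum_of_subset_of_nonneg hsub fun n _ _ => by positivity
      _ ≤ _ := hsq x hx
  rw [e1]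
  have h8 : 0 < ((x : ℝ) / 2) ^ (1 / 2 + 2 * ε) := Real.rpow_pos_of_pos (by positivity) _
  rw [← le_div_iff₀ h8] at h7
  refine h7.trans ?_
  rw [div_le_iff₀ h8, Real.div_rpow hx0.le two_pos.le]
  have h9 : (2 : ℝ) ^ (1 / 2 + 2 * ε) ≤ 4 := by
    calc (2 : ℝ) ^ (1 / 2 + 2 * ε) ≤ 2 ^ (2 : ℝ) :=
          Real.rpow_le_rpow_of_exponent_le one_le_two (by linarith)
      _ = 4 := by norm_num
  have h10 : (0 : ℝ) < 2 ^ (1 / 2 + 2 * ε) := Real.rpow_pos_of_pos two_pos _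
  have h11 : (x : ℝ) ^ (3 / 2 : ℝ) = (x : ℝ) ^ (1 - 2 * ε) * (x : ℝ) ^ (1 / 2 + 2 * ε) := by
    rw [← Real.rpow_add hx0]
    congr 1
    ring
  rw [h11]
  have h12 : 1 ≤ 4 / (2 : ℝ) ^ (1 / 2 + 2 * ε) := by
    rw [le_div_iff₀ h10]
    linarith
  have h13 : 0 ≤ C * ((x : ℝ) ^ (1 - 2 * ε) * (x : ℝ) ^ (1 / 2 + 2 * ε)) := by positivity
  calc C * ((x : ℝ) ^ (1 - 2 * ε) * (x : ℝ) ^ (1 / 2 + 2 * ε))
      = C * ((x : ℝ) ^ (1 - 2 * ε) * (x : ℝ) ^ (1 / 2 + 2 * ε)) * 1 := (mul_one _).symm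
    _ ≤ C * ((x : ℝ) ^ (1 - 2 * ε) * (x : ℝ) ^ (1 / 2 + 2 * ε)) * (4 / (2 : ℝ) ^ (1 / 2 + 2 * ε)) :=
        mul_le_mul_of_nonneg_left h12 h13
    _ = C * 4 * (x : ℝ) ^ (1 - 2 * ε) * ((x : ℝ) ^ (1 / 2 + 2 * ε) / 2 ^ (1 / 2 + 2 * ε)) := by ring

/-- there are at most `X ^ (1 - 2 ε + o(1))` integers `n ≤ X` with `|a(n)| > n ^ (1/4 + ε)` -/
lemma count [NeZero N] (h : IsCuspForm N χ f a) {ε : ℝ} (hε : 0 < ε) (hε1 : ε ≤ 1 / 2) :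
    ∀ ε' : ℝ, 0 < ε' → ∃ C : ℝ, ∀ X : ℝ, 1 ≤ X →
      {n : ℕ | (1 ≤ n ∧ ¬ ‖a n‖ ≤ (n : ℝ) ^ (1 / 4 + ε)) ∧ (n : ℝ) ≤ X}.Finite ∧
      ({n : ℕ | (1 ≤ n ∧ ¬ ‖a n‖ ≤ (n : ℝ) ^ (1 / 4 + ε)) ∧ (n : ℝ) ≤ X}.ncard : ℝ) ≤
        C * X ^ (1 - 2 * ε + ε') := by
  intro ε' hε'
  obtain ⟨D, hD, hd⟩ := dyadic h hε hε1
  have hs : 0 < 1 - 2 * ε + ε' := by linarith
  have h1 := card_of_dyadic (fun n => ¬ ‖a n‖ ≤ (n : ℝ) ^ (1 / 4 + ε)) (D := D) (s := 1 - 2 * ε + ε') hD.le hs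
    (fun x hx => (hd x hx).trans (mul_le_mul_of_nonneg_left
      (Real.rpow_le_rpow_of_exponent_le (by exact_mod_cast hx) (by linarith)) hD.le))
  refine ⟨D / (1 - 2 ^ (-(1 - 2 * ε + ε'))), fun X hX => ?_⟩
  have hX0 : 0 ≤ X := by linarith
  have e : {n : ℕ | (1 ≤ n ∧ ¬ ‖a n‖ ≤ (n : ℝ) ^ (1 / 4 + ε)) ∧ (n : ℝ) ≤ X} =
      {n : ℕ | 1 ≤ n ∧ n ≤ ⌊X⌋₊ ∧ ¬ ‖a n‖ ≤ (n : ℝ) ^ (1 / 4 + ε)} := by
    ext n
    simp only [Set.mem_ofPred_eq, Nat.le_floor_iff hX0]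
    tauto
  rw [e]
  refine ⟨(Set.finite_Iic ⌊X⌋₊).subset fun n hn => hn.2.1, (h1 _).trans ?_⟩
  have h2 : (2 : ℝ) ^ (-(1 - 2 * ε + ε')) < 1 := Real.rpow_lt_one_of_one_lt_of_neg one_lt_two (by linarith)
  refine mul_le_mul_of_nonneg_left ?_ (div_nonneg hD.le (by linarith))
  exact Real.rpow_le_rpow (Nat.cast_nonneg _) (Nat.floor_le hX0) hs.le

end Pool.Agent.V7H35.W32
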